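import Pool.Agent.KBQ.Defs
import Pool.Agent.KBZ.UOne

/-! Elementary properties of induced blocks. -/

namespace Pool.Agent.KBQ

open Pool.Agent.KB Pool.Agent.KB.ContrAux Pool.Agent.KBL Pool.Agent.KBZ Pool.Agent.KBU

/-- HINT: compare coefficients (`Br_coeff`). -/
theorem IndA_trc {K H H' : Type} [Group K] [Group H] [Fintype H] [Group H'] [Fintype H']
    (ι : H →* K) (κ : H' →* H) (α : MonoidAlgebra AInt K) :
    trc κ (trc ι α) = trc (ι.comp κ) α := by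
  refine MonoidAlgebra.ext ?_
  ext x
  rw [Br_coeff, Br_coeff, Br_coeff]
  rfl

/-- Transitivity. HINT: `Br_ctr`, `IndA_trc`. -/
theorem IndA_trans {K H H' : Type} [Group K] [Fintype K] [Group H] [Fintype H] [Group H']
    [Fintype H'] (𝔪 : Ideal AInt) (ι : H →* K) (κ : H' →* H) (θ : H' → ℂ) (ψ : H → ℂ) (χ : K → ℂ)
    (h1 : Ind 𝔪 ι ψ χ) (h2 : Ind 𝔪 κ θ ψ) : Ind 𝔪 (ι.comp κ) θ χ := by
  intro α hα
  have h3 := InM_add (h1 α hα) (h2 (trc ι α) (Br_ctr ι α hα))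
  rw [sub_add_sub_cancel, IndA_trc] at h3
  exact h3

/-- HINT: the same computation. -/
theorem IndA_mid {K H H' : Type} [Group K] [Fintype K] [Group H] [Fintype H] [Group H']
    [Fintype H'] (𝔪 : Ideal AInt) (ι : H →* K) (κ : H' →* H) (θ : H' → ℂ) (ψ : H → ℂ) (χ : K → ℂ)
    (h2 : Ind 𝔪 κ θ ψ) (h3 : Ind 𝔪 (ι.comp κ) θ χ) : Ind 𝔪 ι ψ χ := by
  intro α hα
  have h4 := InM_sub (h3 α hα) (h2 (trc ι α) (Br_ctr ι α hα))
  rw [IndA_trc, sub_sub_sub_cancel_right] at h4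
  exact h4

/-- HINT: `Alg_sum` for both, `InM_mul` with the coefficients. -/
theorem IndA_omg {H : Type} [Group H] [Fintype H] (𝔪 : Ideal AInt) (θ θ' : H → ℂ)
    (hθ : θ ∈ Irr H) (hθ' : θ' ∈ Irr H) (h : ∀ x, InM 𝔪 (omega θ x - omega θ' x))
    (β : MonoidAlgebra AInt H) (hβ : Ctr β) : InM 𝔪 (omg θ β - omg θ' β) := by
  classical
  rw [Alg_sum θ hθ β hβ, Alg_sum θ' hθ' β hβ, ← Finset.sum_sub_distrib]
  refine InM_sum _ _ fun K _ => ?_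
  rw [← mul_sub]
  exact InM_mul (β.coeff (Quotient.out K)).2 (h _)

/-- The central characters of a character determine those of its block: if
`InM (omg θ β - omg θ' β)` for all central `β` then the values `omega` are congruent.
HINT: `β = clsum x`, `Alg_clsum`, `Alg_ctr_clsum`. -/
theorem IndA_omega {H : Type} [Group H] [Fintype H] (𝔪 : Ideal AInt) (θ θ' : H → ℂ)
    (hθ : θ ∈ Irr H) (hθ' : θ' ∈ Irr H)
    (h : ∀ β : MonoidAlgebra AInt H, Ctr β → InM 𝔪 (omg θ β - omg θ' β)) (x : H) :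
    InM 𝔪 (omega θ x - omega θ' x) := by
  have h1 := h (clsum x) (Alg_ctr_clsum x)
  rw [Alg_clsum θ hθ, Alg_clsum θ' hθ'] at h1
  exact h1

/-- HINT: `IndA_omega` and subtraction: two characters with blocks induced from `θ` are in the same
block. -/
theorem IndA_uniq {K H : Type} [Group K] [Fintype K] [Group H] [Fintype H]
    (𝔪 : Ideal AInt) (ι : H →* K) (θ : H → ℂ) (χ χ' : K → ℂ) (hχ : χ ∈ Irr K) (hχ' : χ' ∈ Irr K)
    (h1 : Ind 𝔪 ι θ χ) (h2 : Ind 𝔪 ι θ χ') : χ' ∈ block 𝔪 χ := by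
  refine ⟨hχ', fun g => ?_⟩
  refine IndA_omega 𝔪 χ χ' hχ hχ' (fun β hβ => ?_) g
  have h3 := InM_sub (h1 β hβ) (h2 β hβ)
  rw [sub_sub_sub_cancel_right] at h3
  exact h3

/-- HINT: `IndA_omg` with `IndA_omega`-type congruences. -/
theorem IndA_block {K H : Type} [Group K] [Fintype K] [Group H] [Fintype H]
    (𝔪 : Ideal AInt) (ι : H →* K) (θ θ' : H → ℂ) (χ χ' : K → ℂ) (hθ : θ ∈ Irr H)
    (hχ : χ ∈ Irr K) (hθ' : θ' ∈ block 𝔪 θ) (hχ' : χ' ∈ block 𝔪 χ) (h : Ind 𝔪 ι θ χ) :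
    Ind 𝔪 ι θ' χ' := by
  intro α hα
  have h1 := IndA_omg 𝔪 χ χ' hχ hχ'.1 hχ'.2 α hα
  have h2 := IndA_omg 𝔪 θ θ' hθ hθ'.1 hθ'.2 (trc ι α) (Br_ctr ι α hα)
  have h3 := InM_add (InM_sub (h α hα) h1) h2
  have h4 : omg χ α - omg θ (trc ι α) - (omg χ α - omg χ' α) +
      (omg θ (trc ι α) - omg θ' (trc ι α)) = omg χ' α - omg θ' (trc ι α) := by ring
  rw [h4] at h3
  exact h3

/-- HINT: `e x` is the unique element with `ι₂ (e x) = k * ι₁ x * k⁻¹` (`MulEquiv.ofBijective`). -/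
theorem IndA_iso {K H₁ H₂ : Type} [Group K] [Group H₁] [Group H₂] (k : K) (ι₁ : H₁ →* K)
    (ι₂ : H₂ →* K) (hi₁ : Function.Injective ι₁) (hi₂ : Function.Injective ι₂)
    (h12 : ∀ x₁, ∃ x₂, ι₂ x₂ = k * ι₁ x₁ * k⁻¹) (h21 : ∀ x₂, ∃ x₁, ι₂ x₂ = k * ι₁ x₁ * k⁻¹) :
    ∃ e : H₁ ≃* H₂, ∀ x, ι₂ (e x) = k * ι₁ x * k⁻¹ := by
  choose f hf using h12
  have hmul : ∀ x y, f (x * y) = f x * f y := by
    intro x y
    apply hi₂
    rw [map_mul, hf, hf, hf, map_mul]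
    group
  have hinj : Function.Injective f := by
    intro x y hxy
    apply hi₁
    have h1 := congrArg ι₂ hxy
    rw [hf, hf] at h1
    exact mul_left_cancel (mul_right_cancel h1)
  have hsurj : Function.Surjective f := by
    intro y
    obtain ⟨x, hx⟩ := h21 y
    refine ⟨x, hi₂ ?_⟩
    rw [hf, hx]
  exact ⟨MulEquiv.ofBijective (MonoidHom.mk' f hmul) ⟨hinj, hsurj⟩, hf⟩

/-- HINT: `θ₂ ∘ e` is in `Irr H₁` (`UOne_irr`), its `omega` is `UOne_omega`; `omg (θ₂ ∘ e)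
(trc e β) = omg θ₂ β` (reindex the sum `ev`); then `IndA_omg`. -/
theorem IndA_omg_iso {H₁ H₂ : Type} [Group H₁] [Fintype H₁] [Group H₂] [Fintype H₂]
    (𝔪 : Ideal AInt) (e : H₁ ≃* H₂) (θ₁ : H₁ → ℂ) (θ₂ : H₂ → ℂ) (hθ₁ : θ₁ ∈ Irr H₁)
    (hθ₂ : θ₂ ∈ Irr H₂) (h : ∀ x, InM 𝔪 (omega θ₁ x - omega θ₂ (e x)))
    (β : MonoidAlgebra AInt H₂) (hβ : Ctr β) :
    InM 𝔪 (omg θ₁ (trc e.toMonoidHom β) - omg θ₂ β) := by
  have h1 : (fun x => θ₂ (e x)) ∈ Irr H₁ := UOne_irr e hθ₂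
  have h2 := IndA_omg 𝔪 θ₁ (fun x => θ₂ (e x)) hθ₁ h1 (fun x => by
    rw [UOne_omega]
    exact h x) (trc e.toMonoidHom β) (Br_ctr _ _ hβ)
  have h3 : omg (fun x => θ₂ (e x)) (trc e.toMonoidHom β) = omg θ₂ β := by
    unfold omg ev
    simp only [map_one]
    congr 1
    rw [← Equiv.sum_comp e.toEquiv (fun y => ((β.coeff y : AInt) : ℂ) * θ₂ y)]
    refine Finset.sum_congr rfl fun x _ => ?_
    rw [Br_coeff]
    rfl
  rw [h3] at h2
  exact h2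

/-- Conjugation invariance. HINT: `IndA_iso`, `IndA_omg_iso`; for a central `α` the restriction of
`α` along `x ↦ k * ι₁ x * k⁻¹` is `trc ι₁ α`. -/
theorem IndA_cj {K H₁ H₂ : Type} [Group K] [Fintype K] [Group H₁] [Fintype H₁] [Group H₂]
    [Fintype H₂] (𝔪 : Ideal AInt) (k : K) (ι₁ : H₁ →* K)
    (ι₂ : H₂ →* K) (hi₁ : Function.Injective ι₁) (hi₂ : Function.Injective ι₂)
    (h12 : ∀ x₁, ∃ x₂, ι₂ x₂ = k * ι₁ x₁ * k⁻¹) (h21 : ∀ x₂, ∃ x₁, ι₂ x₂ = k * ι₁ x₁ * k⁻¹)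
    (θ₁ : H₁ → ℂ) (θ₂ : H₂ → ℂ) (hθ₁ : θ₁ ∈ Irr H₁) (hθ₂ : θ₂ ∈ Irr H₂)
    (hcj : Cj 𝔪 k ι₁ θ₁ ι₂ θ₂) (χ : K → ℂ) (h : Ind 𝔪 ι₁ θ₁ χ) : Ind 𝔪 ι₂ θ₂ χ := by
  obtain ⟨e, he⟩ := IndA_iso k ι₁ ι₂ hi₁ hi₂ h12 h21
  intro α hα
  have h1 := IndA_omg_iso 𝔪 e θ₁ θ₂ hθ₁ hθ₂ (fun x => hcj x (e x) (he x).symm) (trc ι₂ α)
    (Br_ctr _ _ hα)
  have h2 : trc e.toMonoidHom (trc ι₂ α) = trc ι₁ α := by
    refine MonoidAlgebra.ext ?_
    ext x
    rw [Br_coeff, Br_coeff, Br_coeff]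
    have h3 : ι₂ (e.toMonoidHom x) = k * ι₁ x * k⁻¹ := he x
    rw [h3, hα]
  rw [h2] at h1
  have h4 := InM_add (h α hα) h1
  rw [sub_add_sub_cancel] at h4
  exact h4

open Classical in
/-- The two forms of `b^G = B`. HINT: `MajA_trc`, `Alg_clsum` and `Alg_decomp` (both sides are
additive and `AInt`-homogeneous in `α`); the `Fintype` instances of `C` agree
(`Subsingleton.elim`). -/
theorem IndA_sub {G : Type} [Group G] [Fintype G] (𝔪 : Ideal AInt) (C : Subgroup G) [Fintype C]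
    (ζ : C → ℂ) (hζ : ζ ∈ Irr C) (χ : G → ℂ) (hχ : χ ∈ Irr G) :
    Induces 𝔪 C ζ χ ↔ Ind 𝔪 C.subtype ζ χ := by
  have hm : ∀ g : G, omg ζ (trc C.subtype (clsum g)) =
      (∑ᶠ h : {h : C // IsConj g (h : G)}, ζ h) / ζ 1 := by
    intro g
    rw [← MajA_trc C ζ g]
    have key : ∀ i₁ i₂ : Fintype C, @omg C _ i₁ ζ (@trc G C _ _ i₁ C.subtype (clsum g)) =
        @omg C _ i₂ ζ (@trc G C _ _ i₂ C.subtype (clsum g)) := by
      intro i₁ i₂
      rw [Subsingleton.elim i₁ i₂]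
    exact key _ _
  constructor
  · intro h α hα
    obtain ⟨-, h2, -⟩ := CenA_basic ζ
    have ht : trc C.subtype α = ∑ K : ConjClasses G,
        α.coeff (Quotient.out K) • trc C.subtype (clsum (Quotient.out K)) := by
      refine MonoidAlgebra.ext ?_
      ext x
      rw [Br_coeff, MonoidAlgebra.coeff_sum, Finsupp.finsetSum_apply]
      conv_lhs => rw [Alg_decomp α hα, MonoidAlgebra.coeff_sum, Finsupp.finsetSum_apply]
      push_cast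
      refine Finset.sum_congr rfl fun K _ => ?_
      rw [MonoidAlgebra.coeff_smul_apply, MonoidAlgebra.coeff_smul_apply, Br_coeff]
    have h3 : omg ζ (trc C.subtype α) = ∑ K : ConjClasses G,
        ((α.coeff (Quotient.out K) : AInt) : ℂ) *
          omg ζ (trc C.subtype (clsum (Quotient.out K))) := by
      rw [ht]
      unfold omg
      rw [Alg_ev_sum, Finset.sum_div]
      refine Finset.sum_congr rfl fun K _ => ?_
      rw [h2, mul_div_assoc]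
    rw [Alg_sum χ hχ α hα, h3, ← Finset.sum_sub_distrib]
    refine InM_sum _ _ fun K _ => ?_
    rw [← mul_sub, hm]
    exact InM_mul (α.coeff (Quotient.out K)).2 (h _)
  · intro h g
    have h1 := h (clsum g) (Alg_ctr_clsum g)
    rw [Alg_clsum χ hχ, hm] at h1
    exact h1

/-- The form used in the files about `Loc`. HINT: `IndA_sub` and `finsum_eq_sum_of_fintype`. -/
theorem IndA_loc {G : Type} [Group G] [Fintype G] (𝔪 : Ideal AInt) (C : Subgroup G) [Fintype C]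
    (ζ : C → ℂ) (hζ : ζ ∈ Irr C) (χ : G → ℂ) (hχ : χ ∈ Irr G) (h : Ind 𝔪 C.subtype ζ χ)
    [∀ g : G, Fintype {h : C // IsConj g (h : G)}] (g : G) :
    InM 𝔪 (omega χ g - (∑ h : {h : C // IsConj g (h : G)}, ζ h) / ζ 1) := by
  have h1 := (IndA_sub 𝔪 C ζ hζ χ hχ).2 h g
  rw [finsum_eq_sum_of_fintype] at h1
  exact h1

end Pool.Agent.KBQ
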