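import Pool.Agent.KBL.Neck

/-! The necklace lemma with a twist: restriction of powers to a centralizer. -/

namespace Pool.Agent.KBQ

open Pool.Agent.KBL

/-- the twisted rotation of words -/
def NeckW_sig {G : Type} [Group G] (w : G) (m : ℕ) : Equiv.Perm (Fin (m + 1) → G) where
  toFun f := fun i => if i = Fin.last m then w * f 0 * w⁻¹ else f (i + 1)
  invFun f := fun i => if i = 0 then w⁻¹ * f (Fin.last m) * w else f (i - 1)
  left_inv f := by
    funext i
    by_cases h : i = 0
    · subst h
      simp only [if_true]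
      group
    · have h1 : i - 1 ≠ Fin.last m := by
        intro h2
        apply h
        have h3 : i = Fin.last m + 1 := by rw [← h2]; simp
        rw [h3, Fin.last_add_one]
      simp only [h, h1, if_false]
      congr 1
      simp
  right_inv f := by
    funext i
    by_cases h : i = Fin.last m
    · subst h
      simp only [if_true]
      group
    · have h1 : i + 1 ≠ 0 := by
        intro h2
        apply h
        have h3 : i + 1 = Fin.last m + 1 := by rw [h2, Fin.last_add_one]
        exact add_right_cancel h3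
      simp only [h, h1, if_false]
      congr 1
      simp

theorem NeckW_sig_last {G : Type} [Group G] (w : G) (m : ℕ) (f : Fin (m + 1) → G) :
    NeckW_sig w m f (Fin.last m) = w * f 0 * w⁻¹ := if_pos rfl

theorem NeckW_sig_ne {G : Type} [Group G] (w : G) (m : ℕ) (f : Fin (m + 1) → G) {i : Fin (m + 1)}
    (h : i ≠ Fin.last m) : NeckW_sig w m f i = f (i + 1) := if_neg h

theorem NeckW_sig_pow {G : Type} [Group G] (w : G) (m k : ℕ) (f : Fin (m + 1) → G)
    (i : Fin (m + 1)) :
    ((NeckW_sig w m) ^ k) f i = w ^ (((i : ℕ) + k) / (m + 1)) *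
      f ⟨((i : ℕ) + k) % (m + 1), Nat.mod_lt _ (Nat.succ_pos m)⟩ *
      (w ^ (((i : ℕ) + k) / (m + 1)))⁻¹ := by
  induction k generalizing f i with
  | zero =>
    have h1 : ((i : ℕ) + 0) / (m + 1) = 0 := Nat.div_eq_of_lt (by have := i.2; omega)
    rw [pow_zero, Equiv.Perm.one_apply, h1, pow_zero, one_mul, inv_one, mul_one]
    refine Neck_congr f ?_
    simp [Nat.mod_eq_of_lt i.2]
  | succ k ih =>
    rw [pow_succ, Equiv.Perm.mul_apply, ih]
    set q := ((i : ℕ) + k) / (m + 1) with hq
    have hdm := Nat.div_add_mod ((i : ℕ) + k) (m + 1)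
    have hlt : ((i : ℕ) + k) % (m + 1) < m + 1 := Nat.mod_lt ((i : ℕ) + k) (Nat.succ_pos m)
    by_cases h : (⟨((i : ℕ) + k) % (m + 1), Nat.mod_lt _ (Nat.succ_pos m)⟩ : Fin (m + 1)) =
        Fin.last m
    · have hr : ((i : ℕ) + k) % (m + 1) = m := congrArg Fin.val h
      have h1 : (i : ℕ) + (k + 1) = (m + 1) * (q + 1) := by
        rw [Nat.mul_add, Nat.mul_one, hq]
        omega
      have h2 : ((i : ℕ) + (k + 1)) / (m + 1) = q + 1 := by
        rw [h1, Nat.mul_div_cancel_left _ (Nat.succ_pos m)]
      have h3 : ((i : ℕ) + (k + 1)) % (m + 1) = 0 := by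
        rw [h1, Nat.mul_mod_right]
      rw [h, NeckW_sig_last, h2]
      have h4 : f ⟨((i : ℕ) + (k + 1)) % (m + 1), Nat.mod_lt _ (Nat.succ_pos m)⟩ = f 0 :=
        Neck_congr f (by simp [h3])
      rw [h4, pow_succ, mul_inv_rev]
      simp only [mul_assoc]
    · have hr : ((i : ℕ) + k) % (m + 1) ≠ m := fun h' => h (Fin.ext h')
      have h1 : (i : ℕ) + (k + 1) = (((i : ℕ) + k) % (m + 1) + 1) + (m + 1) * q := by
        rw [hq]
        omega
      have h2 : ((i : ℕ) + (k + 1)) / (m + 1) = q := by
        rw [h1, Nat.add_mul_div_left _ _ (Nat.succ_pos m), Nat.div_eq_of_lt (by omega), zero_add]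
      have h3 : ((i : ℕ) + (k + 1)) % (m + 1) = ((i : ℕ) + k) % (m + 1) + 1 := by
        rw [h1, Nat.add_mul_mod_self_left, Nat.mod_eq_of_lt (by omega)]
      rw [NeckW_sig_ne w m f h, h2]
      congr 2
      refine Neck_congr f ?_
      rw [Fin.val_add_one_of_lt (Fin.lt_last_iff_ne_last.2 h)]
      exact h3.symm

/-- the product of the rotated word -/
theorem NeckW_rot {G : Type} [Group G] (w : G) (m : ℕ) (f : Fin (m + 1) → G) :
    w * (List.ofFn (NeckW_sig w m f)).prod =
      (w * (f 0)⁻¹ * w⁻¹) * (w * (List.ofFn f).prod) * (w * (f 0)⁻¹ * w⁻¹)⁻¹ := by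
  rw [List.ofFn_succ' (f := NeckW_sig w m f), List.concat_eq_append, List.prod_append,
    List.ofFn_succ (f := f)]
  have h1 : (fun i : Fin m => NeckW_sig w m f i.castSucc) = fun i : Fin m => f i.succ := by
    funext i
    rw [NeckW_sig_ne w m f (Fin.castSucc_ne_last i)]
    congr 1
    exact Fin.coeSucc_eq_succ
  rw [h1, NeckW_sig_last]
  simp only [List.prod_cons, List.prod_nil, mul_one]
  group

theorem NeckW_conj {G : Type} [Group G] (w : G) (m : ℕ) (f : Fin (m + 1) → G) (z : G) :
    IsConj z (w * (List.ofFn (NeckW_sig w m f)).prod) ↔ IsConj z (w * (List.ofFn f).prod) := by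
  have h : IsConj (w * (List.ofFn f).prod) (w * (List.ofFn (NeckW_sig w m f)).prod) :=
    isConj_iff.2 ⟨_, (NeckW_rot w m f).symm⟩
  exact ⟨fun h' => h'.trans h.symm, fun h' => h'.trans h⟩

theorem NeckW_com {G : Type} [Group G] (w : G) (m : ℕ) (f : Fin (m + 1) → G) :
    (∀ i, w * NeckW_sig w m f i = NeckW_sig w m f i * w) ↔ ∀ i, w * f i = f i * w := by
  have h0 : ∀ x : G, w * (w * x * w⁻¹) = (w * x * w⁻¹) * w ↔ w * x = x * w := by
    intro x
    constructor
    · intro h
      have h1 : w * (w * x * w⁻¹) = w * x := by rw [h]; group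
      have h2 : w * x * w⁻¹ = x := mul_left_cancel h1
      rw [← h2]
      conv_lhs => rw [h2]
      group
    · intro h
      have h2 : w * x * w⁻¹ = x := by rw [h]; group
      rw [h2]
      exact h
  constructor
  · intro h i
    by_cases hi : i = 0
    · subst hi
      have h1 := h (Fin.last m)
      rw [NeckW_sig_last] at h1
      exact (h0 _).1 h1
    · have h1 : i - 1 ≠ Fin.last m := by
        intro h2
        apply hi
        have h3 : i = Fin.last m + 1 := by rw [← h2]; simp
        rw [h3, Fin.last_add_one]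
      have h2 := h (i - 1)
      rw [NeckW_sig_ne w m f h1] at h2
      simpa using h2
  · intro h i
    by_cases hi : i = Fin.last m
    · subst hi
      rw [NeckW_sig_last]
      exact (h0 _).2 (h 0)
    · rw [NeckW_sig_ne w m f hi]
      exact h _

open Classical in
/-- HINT: with `N = p ^ j`, `(α ^ N).coeff g` is the sum over the words `f : Fin N → G` with product
`g` of `∏ i, α.coeff (f i)` (`Neck_coeff`), similarly for `αC`. So the left sum is the sum over the
words `f` with `IsConj z (w * ∏ f)`, and the right sum is the sum over those of these words all of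
whose letters commute with `w` (letters `ι c`, injectivity of `ι`). Let `X` be the set of the other words (some
letter does not commute with `w`). `σ f = (f_2, ..., f_N, w f_1 w⁻¹)`: the product changes to a conjugate: with
`A = f_2 ⋯ f_N`: `w * (A * (w * f_1 * w⁻¹)) = (w * A) * (w * f_1) * w⁻¹`, conjugate (by `w`) to
`A * (w * f_1)`, conjugate (by `w * f_1`) to `w * f_1 * A`. The product of the `α.coeff (f i)` does not
change (`hα`). `σ ^ N` conjugates all letters by `w`, so `σ ^ (N * N) = 1` (`hw`:
`w ^ N = 1`), `N * N = p ^ (2 * j)`; and if `σ ^ (p ^ j)` fixes `f` then all letters commute with `w`,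
so `f` is not in `X`. `NeckA_main` (for `2 * j`, `e = j`). See the proof of `Neck_main`. -/
theorem NeckW_main {G C R : Type} [Group G] [Fintype G] [Group C] [Fintype C] [CommRing R]
    (p : ℕ) (hp : p.Prime) (w : G) (j : ℕ) (hw : w ^ (p ^ j) = 1) (α : MonoidAlgebra R G)
    (hα : ∀ x, α.coeff (w * x * w⁻¹) = α.coeff x) (ι : C →* G) (hι : Function.Injective ι)
    (hr : ∀ x : G, (∃ y, ι y = x) ↔ w * x = x * w) (αC : MonoidAlgebra R C)
    (hαC : ∀ c, αC.coeff c = α.coeff (ι c)) (z : G) :
    ((p : R) ^ (j + 1)) ∣ (∑ g : G with IsConj z (w * g), (α ^ (p ^ j)).coeff g) -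
      ∑ c : C with IsConj z (w * ι c), (αC ^ (p ^ j)).coeff c := by
  have hpj : 0 < p ^ j := pow_pos hp.pos j
  obtain ⟨m, hm⟩ := Nat.exists_eq_succ_of_ne_zero hpj.ne'
  rw [Nat.succ_eq_add_one] at hm
  -- the words with a letter not commuting with `w`
  let P : (Fin (m + 1) → G) → Prop := fun f =>
    IsConj z (w * (List.ofFn f).prod) ∧ ¬ ∀ i, w * f i = f i * w
  let σ := NeckW_sig w m
  have hσP : ∀ f, P (σ f) ↔ P f := fun f =>
    and_congr (NeckW_conj w m f z) (not_congr (NeckW_com w m f))
  let X := {f : Fin (m + 1) → G // P f}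
  let τ : Equiv.Perm X := σ.subtypePerm hσP
  have hτ : ∀ (k : ℕ) (x : X), ((τ ^ k) x).1 = (σ ^ k) x.1 := by
    intro k x
    rw [Equiv.Perm.subtypePerm_pow]
    rfl
  have key := NeckA_main (R := R) p (2 * j) j hp τ ?_ ?_ (fun x : X => ∏ i, α.coeff (x.1 i)) ?_
  · have hL : ∑ g : G with IsConj z (w * g), (α ^ (p ^ j)).coeff g =
        ∑ f : Fin (m + 1) → G with IsConj z (w * (List.ofFn f).prod), ∏ i, α.coeff (f i) := by
      rw [hm]
      simp only [Neck_coeff]
      rw [Finset.sum_comm]
      have h1 : ∀ f : Fin (m + 1) → G, (∑ g : G with IsConj z (w * g),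
          if (List.ofFn f).prod = g then ∏ i, α.coeff (f i) else 0) =
          if IsConj z (w * (List.ofFn f).prod) then ∏ i, α.coeff (f i) else 0 := by
        intro f
        rw [Finset.sum_ite_eq]
        simp
      simp only [h1]
      rw [← Finset.sum_filter]
    have hR : ∑ c : C with IsConj z (w * ι c), (αC ^ (p ^ j)).coeff c =
        ∑ f : Fin (m + 1) → C with IsConj z (w * ι (List.ofFn f).prod),
          ∏ i, αC.coeff (f i) := by
      rw [hm]
      simp only [Neck_coeff]
      rw [Finset.sum_comm]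
      have h1 : ∀ f : Fin (m + 1) → C, (∑ c : C with IsConj z (w * ι c),
          if (List.ofFn f).prod = c then ∏ i, αC.coeff (f i) else 0) =
          if IsConj z (w * ι (List.ofFn f).prod) then ∏ i, αC.coeff (f i) else 0 := by
        intro f
        rw [Finset.sum_ite_eq]
        simp
      simp only [h1]
      rw [← Finset.sum_filter]
    have hprod : ∀ f : Fin (m + 1) → C, ι (List.ofFn f).prod =
        (List.ofFn (fun i => ι (f i))).prod := by
      intro f
      rw [map_list_prod, List.map_ofFn]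
      rfl
    have hR2 : ∑ f : Fin (m + 1) → C with IsConj z (w * ι (List.ofFn f).prod),
          ∏ i, αC.coeff (f i) =
        ∑ f : Fin (m + 1) → G with IsConj z (w * (List.ofFn f).prod) ∧ ∀ i, w * f i = f i * w,
          ∏ i, α.coeff (f i) := by
      refine Finset.sum_bij (fun f _ => fun i => ι (f i)) ?_ ?_ ?_ ?_
      · intro f hf
        rw [Finset.mem_filter] at hf ⊢
        refine ⟨Finset.mem_univ _, ?_, fun i => (hr _).1 ⟨_, rfl⟩⟩
        rw [← hprod]
        exact hf.2
      · intro f _ f' _ h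
        funext i
        exact hι (congrFun h i)
      · intro f hf
        rw [Finset.mem_filter] at hf
        have h1 : ∀ i, ∃ y, ι y = f i := fun i => (hr _).2 (hf.2.2 i)
        choose y hy using h1
        refine ⟨y, ?_, funext hy⟩
        rw [Finset.mem_filter]
        refine ⟨Finset.mem_univ _, ?_⟩
        rw [hprod]
        simp only [hy]
        exact hf.2.1
      · intro f _
        refine Finset.prod_congr rfl fun i _ => ?_
        rw [hαC]
    have hsplit : ∑ f : Fin (m + 1) → G with IsConj z (w * (List.ofFn f).prod),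
          ∏ i, α.coeff (f i) =
        (∑ f : Fin (m + 1) → G with IsConj z (w * (List.ofFn f).prod) ∧ ∀ i, w * f i = f i * w,
          ∏ i, α.coeff (f i)) + ∑ f : Fin (m + 1) → G with P f, ∏ i, α.coeff (f i) := by
      rw [← Finset.sum_filter_add_sum_filter_not (Finset.univ.filter
        (fun f : Fin (m + 1) → G => IsConj z (w * (List.ofFn f).prod)))
        (fun f => ∀ i, w * f i = f i * w), Finset.filter_filter, Finset.filter_filter]
    have hX : ∑ f : Fin (m + 1) → G with P f, ∏ i, α.coeff (f i) =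
        ∑ x : X, ∏ i, α.coeff (x.1 i) := Finset.sum_subtype _ (fun f => by simp) _
    rw [hL, hR, hR2, hsplit, add_sub_cancel_left, hX]
    exact key
  · apply Equiv.ext
    intro x
    apply Subtype.ext
    rw [hτ, Equiv.Perm.one_apply]
    funext i
    have hNN : p ^ (2 * j) = (m + 1) * (m + 1) := by rw [two_mul, pow_add, hm]
    have h1 : ((i : ℕ) + p ^ (2 * j)) / (m + 1) = m + 1 := by
      rw [hNN, Nat.add_mul_div_left _ _ (Nat.succ_pos m), Nat.div_eq_of_lt i.2, zero_add]
    have h2 : ((i : ℕ) + p ^ (2 * j)) % (m + 1) = i := by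
      rw [hNN, Nat.add_mul_mod_self_left, Nat.mod_eq_of_lt i.2]
    have h3 : (σ ^ (p ^ (2 * j))) x.1 i = _ := NeckW_sig_pow w m (p ^ (2 * j)) x.1 i
    rw [h3, h1]
    have h4 : w ^ (m + 1) = 1 := by rw [← hm]; exact hw
    rw [h4, one_mul, inv_one, mul_one]
    exact Neck_congr _ h2
  · intro x hx
    have hfix : (σ ^ (p ^ j)) x.1 = x.1 := by rw [← hτ, hx]
    apply x.2.2
    intro i
    have h1 : ((i : ℕ) + p ^ j) / (m + 1) = 1 := by
      rw [hm, Nat.add_div_right _ (Nat.succ_pos m), Nat.div_eq_of_lt i.2]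
    have h2 : ((i : ℕ) + p ^ j) % (m + 1) = i := by
      rw [hm, Nat.add_mod_right, Nat.mod_eq_of_lt i.2]
    have h3 : (σ ^ (p ^ j)) x.1 i = _ := NeckW_sig_pow w m (p ^ j) x.1 i
    rw [hfix, h1, pow_one] at h3
    have h4 : x.1 ⟨((i : ℕ) + p ^ j) % (m + 1), Nat.mod_lt _ (Nat.succ_pos m)⟩ = x.1 i :=
      Neck_congr _ h2
    rw [h4] at h3
    have h5 : x.1 i * w = w * x.1 i := by
      conv_lhs => rw [h3]
      group
    exact h5.symm
  · intro x
    change ∏ i, α.coeff (σ x.1 i) = ∏ i, α.coeff (x.1 i)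
    have h1 : ∀ i, α.coeff (σ x.1 i) = α.coeff (x.1 (i + 1)) := by
      intro i
      by_cases hi : i = Fin.last m
      · subst hi
        have h2 : σ x.1 (Fin.last m) = w * x.1 0 * w⁻¹ := NeckW_sig_last w m x.1
        rw [h2, hα, Fin.last_add_one]
      · have h2 : σ x.1 i = x.1 (i + 1) := NeckW_sig_ne w m x.1 hi
        rw [h2]
    rw [Finset.prod_congr rfl (fun i _ => h1 i)]
    exact Fintype.prod_equiv (Equiv.addRight (1 : Fin (m + 1))) _ _ (fun i => rfl)

end Pool.Agent.KBQ
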