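import Pool.Agent.KBU.MajB
import Pool.Agent.KBU.Ext
import Pool.Agent.KBU.Reg
import Pool.Agent.KBU.TrE
import Pool.Agent.KBU.Gam
import Pool.Agent.KBU.Dgp
import Pool.Agent.KBU.Dfc

/-! Brauer pairs: blocks of centralizers of `p`-subgroups, written with injective homomorphisms. -/

namespace Pool.Agent.KBQ

open Pool.Agent.KB Pool.Agent.KB.ContrAux Pool.Agent.KBL Pool.Agent.KBZ Pool.Agent.KBU

/-- The block of `χ` is induced by the block of `θ` (along `ι`). -/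
def Ind {K H : Type} [Group K] [Fintype K] [Group H] [Fintype H] (𝔪 : Ideal AInt) (ι : H →* K)
    (θ : H → ℂ) (χ : K → ℂ) : Prop :=
  ∀ α : MonoidAlgebra AInt K, Ctr α → InM 𝔪 (omg χ α - omg θ (trc ι α))

/-- `ι` identifies `H` with the centralizer of `P` in `K`. -/
structure CenOf {K H : Type} [Group K] [Group H] (ι : H →* K) (P : Subgroup K) : Prop where
  inj : Function.Injective ι
  ran : ∀ x : K, (∃ y, ι y = x) ↔ ∀ g ∈ P, g * x = x * g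

/-- Conjugation by `k` carries the block of `θ₁` to the block of `θ₂`. -/
def Cj {K H₁ H₂ : Type} [Group K] [Group H₁] [Group H₂] (𝔪 : Ideal AInt) (k : K) (ι₁ : H₁ →* K)
    (θ₁ : H₁ → ℂ) (ι₂ : H₂ →* K) (θ₂ : H₂ → ℂ) : Prop :=
  ∀ x₁ x₂, k * ι₁ x₁ * k⁻¹ = ι₂ x₂ → InM 𝔪 (omega θ₁ x₁ - omega θ₂ x₂)

theorem CenOf.com {K H : Type} [Group K] [Group H] {ι : H →* K} {P : Subgroup K} (h : CenOf ι P)
    (y : H) {g : K} (hg : g ∈ P) : g * ι y = ι y * g := (h.ran (ι y)).1 ⟨y, rfl⟩ g hg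

theorem CenOf.nrm {K H : Type} [Group K] [Group H] {ι : H →* K} {P : Subgroup K} (h : CenOf ι P)
    {k : K} (hk : ∀ x, x ∈ P ↔ k * x * k⁻¹ ∈ P) (y : H) : ∃ y', ι y' = k * ι y * k⁻¹ := by
  refine (h.ran _).2 fun g hg => ?_
  have h1 : k⁻¹ * g * k ∈ P := by
    rw [hk]
    have : k * (k⁻¹ * g * k) * k⁻¹ = g := by group
    rwa [this]
  have h2 := h.com y h1
  have h3 : g * (k * ι y * k⁻¹) = k * ((k⁻¹ * g * k) * ι y) * k⁻¹ := by group
  rw [h3, h2]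
  group

/-- The stabilizer of the pair `(P, block of θ)`. -/
def Stb {K H : Type} [Group K] [Group H] (𝔪 : Ideal AInt) {ι : H →* K} {P : Subgroup K}
    (h : CenOf ι P) (θ : H → ℂ) : Subgroup K where
  carrier := {k | (∀ x, x ∈ P ↔ k * x * k⁻¹ ∈ P) ∧ Cj 𝔪 k ι θ ι θ}
  mul_mem' := by
    rintro a b ⟨ha, ha'⟩ ⟨hb, hb'⟩
    refine ⟨fun x => ?_, fun x₁ x₂ hx => ?_⟩
    · rw [hb x, ha (b * x * b⁻¹)]
      have : a * (b * x * b⁻¹) * a⁻¹ = a * b * x * (a * b)⁻¹ := by group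
      rw [this]
    · obtain ⟨y, hy⟩ := h.nrm hb x₁
      have h1 := hb' x₁ y hy.symm
      have h2 := ha' y x₂ (by rw [hy, ← hx]; group)
      have h3 := InM_add h1 h2
      rwa [sub_add_sub_cancel] at h3
  one_mem' := by
    refine ⟨fun x => by simp, fun x₁ x₂ hx => ?_⟩
    have : x₁ = x₂ := h.inj (by simpa using hx)
    rw [this, sub_self]
    exact InM_zero 𝔪
  inv_mem' := by
    rintro a ⟨ha, ha'⟩
    refine ⟨fun x => ?_, fun x₁ x₂ hx => ?_⟩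
    · rw [ha (a⁻¹ * x * a⁻¹⁻¹)]
      have : a * (a⁻¹ * x * a⁻¹⁻¹) * a⁻¹ = x := by group
      rw [this]
    · have h1 := ha' x₂ x₁ (by rw [← hx]; group)
      have h2 := InM_sub (InM_zero 𝔪) h1
      rwa [zero_sub, neg_sub] at h2

theorem Stb_mem {K H : Type} [Group K] [Group H] (𝔪 : Ideal AInt) {ι : H →* K} {P : Subgroup K}
    (h : CenOf ι P) (θ : H → ℂ) (k : K) : k ∈ Stb 𝔪 h θ ↔
      (∀ x, x ∈ P ↔ k * x * k⁻¹ ∈ P) ∧ Cj 𝔪 k ι θ ι θ := Iff.rfl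

end Pool.Agent.KBQ
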