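import Pool.Agent.KBQ.SMTa
import Pool.Agent.KBZ.SecW
import Pool.Agent.KBZ.Bess
import Pool.Agent.KBZ.UOne

/-! Brauer's second main theorem. -/

namespace Pool.Agent.KBQ

open Pool.Agent.KB Pool.Agent.KB.ContrAux Pool.Agent.KBL Pool.Agent.KBZ Pool.Agent.KBU

private theorem SMTb_self {G : Type} [Group G] {𝔪 : Ideal AInt} {χ₀ : G → ℂ} (hχ₀ : χ₀ ∈ Irr G) :
    χ₀ ∈ block 𝔪 χ₀ := ⟨hχ₀, fun g => ⟨0, 𝔪.zero_mem, by simp⟩⟩

/-- column orthogonality for every enumeration of the irreducible characters -/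
private theorem SMTb_col {C : Type} [Group C] [Fintype C] {L : ℕ} (Y : Fin L → C → ℂ)
    (hYi : Function.Injective Y) (hY : Set.range Y = Irr C) :
    (∀ g h : C, ¬ IsConj g h → ∑ i, Y i g * Y i h⁻¹ = 0) ∧
      (∀ g h : C, IsConj g h → ∑ i, Y i g * Y i h⁻¹ =
        (Nat.card C : ℂ) / (Nat.card {x : C // IsConj g x} : ℂ)) := by
  obtain ⟨K, X, hX1, hX2, hX3, hX4⟩ := Col_main C
  have hex : ∀ j : Fin L, ∃ i : Fin K, X i = Y j := fun j => by
    have : Y j ∈ Set.range X := by rw [hX2, ← hY]; exact Set.mem_range_self j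
    exact this
  choose f hf using hex
  have hfb : Function.Bijective f := by
    constructor
    · intro a b h
      apply hYi
      rw [← hf a, ← hf b, h]
    · intro i
      have : X i ∈ Set.range Y := by rw [hY, ← hX2]; exact Set.mem_range_self i
      obtain ⟨j, hj⟩ := this
      exact ⟨j, hX1 (by rw [hf j, hj])⟩
  have e : ∀ g h : C, ∑ i, Y i g * Y i h⁻¹ = ∑ i, X i g * X i h⁻¹ := fun g h => by
    rw [← hfb.sum_comp]
    exact Finset.sum_congr rfl fun j _ => by rw [hf j]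
  exact ⟨fun g h hc => by rw [e, hX3 g h hc], fun g h hc => by rw [e, hX4 g h hc]⟩

private theorem SMTb_order {G C : Type} [Group G] [Group C] (ι : C →* G)
    (hι : Function.Injective ι) (y : C) (h : ι y ∈ ι.range) :
    orderOf (⟨ι y, h⟩ : ι.range) = orderOf y := by
  rw [Subgroup.orderOf_mk, orderOf_injective ι hι]

private theorem SMTb_conj' {G C : Type} [Group G] [Group C] (w : G) (ι : C →* G)
    (hr : ∀ x : G, (∃ y, ι y = x) ↔ w * x = x * w) {y c : C} (h : IsConj y c) :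
    IsConj (w * ι y) (w * ι c) := by
  obtain ⟨k, hk⟩ := isConj_iff.1 h
  refine isConj_iff.2 ⟨ι k, ?_⟩
  have h1 : w * ι k = ι k * w := (hr _).1 ⟨k, rfl⟩
  rw [← hk, map_mul, map_mul, map_inv]
  calc ι k * (w * ι y) * (ι k)⁻¹ = (ι k * w) * ι y * (ι k)⁻¹ := by group
    _ = (w * ι k) * ι y * (ι k)⁻¹ := by rw [h1]
    _ = w * (ι k * ι y * (ι k)⁻¹) := by group

private theorem SMTb_conj {G C : Type} [Group G] [Fintype G] [Group C] (p : ℕ) (hp : p.Prime)
    (w : G) (n : ℕ) (hw : w ^ (p ^ n) = 1) (ι : C →* G)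
    (hι : Function.Injective ι) (hr : ∀ x : G, (∃ y, ι y = x) ↔ w * x = x * w) (y c : C)
    (hy : ¬ p ∣ orderOf y) (hc : ¬ p ∣ orderOf c) :
    IsConj (w * ι y) (w * ι c) ↔ IsConj y c := by
  refine ⟨fun h => ?_, fun h => SMTb_conj' w ι hr h⟩
  obtain ⟨k, hk⟩ := isConj_iff.1 h
  have hj : ¬ p ∣ 1 := fun h => hp.one_lt.ne' (Nat.dvd_one.1 h)
  have h1 := Bess_conj p n hp w hw ι.range (fun g => by
      rw [MonoidHom.mem_range, hr g]
      exact eq_comm) 1 hj ⟨ι y, MonoidHom.mem_range.2 ⟨y, rfl⟩⟩ ⟨ι c, MonoidHom.mem_range.2 ⟨c, rfl⟩⟩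
    (by rw [SMTb_order ι hι y]; exact hy) (by rw [SMTb_order ι hι c]; exact hc) k
    (by rw [pow_one]; exact hk)
  obtain ⟨⟨m, hm⟩, h2⟩ := h1
  refine isConj_iff.2 ⟨m, hι ?_⟩
  rw [map_mul, map_mul, map_inv, hm]
  exact h2

private theorem SMTb_card {G C : Type} [Group G] [Fintype G] [Group C] [Fintype C] (p : ℕ)
    (hp : p.Prime)
    (w : G) (n : ℕ) (hw : w ^ (p ^ n) = 1) (ι : C →* G)
    (hι : Function.Injective ι) (hr : ∀ x : G, (∃ y, ι y = x) ↔ w * x = x * w) (y : C)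
    (hy : ¬ p ∣ orderOf y) :
    Nat.card {g : G // IsConj (w * ι y) g} * Nat.card C =
      Nat.card G * Nat.card {z : C // IsConj y z} := by
  have hf : Fintype ι.range := Fintype.ofFinite _
  have h1 := SecW_card p n hp w hw ι.range (fun g => by
      rw [MonoidHom.mem_range, hr g]
      exact eq_comm) ⟨ι y, MonoidHom.mem_range.2 ⟨y, rfl⟩⟩ (by rw [SMTb_order ι hι y]; exact hy)
  let e : C ≃* ι.range := MonoidHom.ofInjective hι
  have h2 : Nat.card ι.range = Nat.card C := Nat.card_congr e.symm.toEquiv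
  have h3 : Nat.card {z : ι.range // IsConj (⟨ι y, MonoidHom.mem_range.2 ⟨y, rfl⟩⟩ : ι.range) z} =
      Nat.card {z : C // IsConj y z} := by
    refine (Nat.card_congr (e.toEquiv.subtypeEquiv fun b => ?_)).symm
    exact (UOne_isConj e y b).symm
  rw [h2, h3] at h1
  exact h1

open Classical in
/-- HINT: the set of the `j` with `Ind 𝔪 ι (Y j) χ₀` is a union of blocks (`IndA_block`); on each
block the sum vanishes by `Lim_main` (partition the sum by the relation of lying in the same block,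
`Finset.sum_partition` or induction, or: sum over the set of blocks). -/
theorem SMTb_zero {G C : Type} [Group G] [Fintype G] [Group C] [Fintype C] (p : ℕ)
    (hp : p.Prime) (𝔪 : Ideal AInt) (h𝔪 : 𝔪.IsMaximal) (hp𝔪 : (p : AInt) ∈ 𝔪) (χ₀ : G → ℂ)
    (hχ₀ : χ₀ ∈ Irr G) (ι : C →* G)
    {L : ℕ} (Y : Fin L → C → ℂ) (hYi : Function.Injective Y) (hY : Set.range Y = Irr C)
    (y c : C) (hy : ¬ p ∣ orderOf y) (hc : p ∣ orderOf c) :
    ∑ j with Ind 𝔪 ι (Y j) χ₀, Y j y * Y j c⁻¹ = 0 := by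
  have hsym : ∀ i j, Y j ∈ block 𝔪 (Y i) → Y i ∈ block 𝔪 (Y j) := fun i j h =>
    ⟨hY ▸ Set.mem_range_self i, fun g => by
      have h1 : InM 𝔪 (omega (Y i) g - omega (Y j) g) := h.2 g
      have h2 := InM_sub (InM_zero 𝔪) h1
      rwa [zero_sub, neg_sub] at h2⟩
  have htr : ∀ i j k, Y j ∈ block 𝔪 (Y i) → Y k ∈ block 𝔪 (Y j) → Y k ∈ block 𝔪 (Y i) :=
    fun i j k h h' => ⟨h'.1, fun g => by
      have h1 : InM 𝔪 (omega (Y i) g - omega (Y j) g) := h.2 g
      have h2 : InM 𝔪 (omega (Y j) g - omega (Y k) g) := h'.2 g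
      have h3 := InM_add h1 h2
      rwa [sub_add_sub_cancel] at h3⟩
  have hIrr : ∀ i, Y i ∈ Irr C := fun i => hY ▸ Set.mem_range_self i
  have hself : ∀ i, Y i ∈ block 𝔪 (Y i) := fun i => SMTb_self (hIrr i)
  let B : Fin L → Finset (Fin L) := fun j => Finset.univ.filter fun j' => Y j' ∈ block 𝔪 (Y j)
  have hB : ∀ i j, j ∈ B i ↔ Y j ∈ block 𝔪 (Y i) := fun i j => by
    simp only [B, Finset.mem_filter, Finset.mem_univ, true_and]
  -- column orthogonality for the given enumeration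
  obtain ⟨h1, h2⟩ := SMTb_col Y hYi hY
  rw [← Finset.sum_fiberwise (Finset.univ.filter fun j => Ind 𝔪 ι (Y j) χ₀) B]
  refine Finset.sum_eq_zero fun S _ => ?_
  rcases (((Finset.univ.filter fun j => Ind 𝔪 ι (Y j) χ₀)).filter fun j => B j = S).eq_empty_or_nonempty
    with h0 | ⟨j₀, hj₀⟩
  · rw [h0, Finset.sum_empty]
  · rw [Finset.mem_filter, Finset.mem_filter] at hj₀
    have e : (((Finset.univ.filter fun j => Ind 𝔪 ι (Y j) χ₀)).filter fun j => B j = S) = B j₀ := by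
      ext j
      rw [Finset.mem_filter, Finset.mem_filter, hB]
      constructor
      · rintro ⟨-, h⟩
        rw [← hB, hj₀.2, ← h, hB]
        exact hself j
      · intro h
        refine ⟨⟨Finset.mem_univ _, ?_⟩, ?_⟩
        · exact IndA_block 𝔪 ι (Y j₀) (Y j) χ₀ χ₀ (hIrr j₀) hχ₀ h (SMTb_self hχ₀) hj₀.1.2
        · rw [← hj₀.2]
          ext k
          rw [hB, hB]
          exact ⟨fun hk => htr j₀ j k h hk, fun hk => htr j j₀ k (hsym j₀ j h) hk⟩
    rw [e]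
    exact (Lim_main p hp 𝔪 h𝔪 hp𝔪 (Y j₀) (hIrr j₀) Y hY h1 h2 (B j₀) (fun i => hB j₀ i) y c hy hc).1

open Classical in
/-- HINT: `SMTa_main`; exchange the sums on the right; the terms with `p ∣ orderOf c` vanish by
`SMTb_zero`; `z` is not conjugate to `w * ι c` for `p`-regular `c`. -/
theorem SMTb_off {G C : Type} [Group G] [Fintype G] [Group C] [Fintype C] (p : ℕ)
    (hp : p.Prime) (𝔪 : Ideal AInt) (h𝔪 : 𝔪.IsMaximal) (hp𝔪 : (p : AInt) ∈ 𝔪) (χ₀ : G → ℂ)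
    (hχ₀ : χ₀ ∈ Irr G) (w : G) (n : ℕ) (hw : w ^ (p ^ n) = 1) (ι : C →* G)
    (hι : Function.Injective ι) (hr : ∀ x : G, (∃ y, ι y = x) ↔ w * x = x * w)
    {K : ℕ} (X : Fin K → G → ℂ) (hXi : Function.Injective X) (hX : Set.range X = Irr G)
    (y : C) (hy : ¬ p ∣ orderOf y) (z : G)
    (hz : ∀ c : C, ¬ p ∣ orderOf c → ¬ IsConj z (w * ι c)) :
    ∑ i with X i ∈ block 𝔪 χ₀, X i (w * ι y) * X i z⁻¹ = 0 := by
  obtain ⟨L, Y, hYi, hY, -, -⟩ := Col_main C
  have h1 := SMTa_main p hp 𝔪 h𝔪 hp𝔪 χ₀ hχ₀ w n hw ι hι hr X hXi hX Y hYi hY y hy z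
  have h2 : ∑ j with Ind 𝔪 ι (Y j) χ₀, Y j y * ∑ c : C with IsConj z (w * ι c), Y j c⁻¹ = 0 := by
    simp only [Finset.mul_sum]
    rw [Finset.sum_comm]
    refine Finset.sum_eq_zero fun c hc => ?_
    rw [Finset.mem_filter] at hc
    by_cases hpc : p ∣ orderOf c
    · exact SMTb_zero p hp 𝔪 h𝔪 hp𝔪 χ₀ hχ₀ ι Y hYi hY y c hy hpc
    · exact absurd hc.2 (hz c hpc)
  rw [h2, mul_zero] at h1
  rcases mul_eq_zero.1 h1 with h3 | h3
  · exfalso
    rcases mul_eq_zero.1 h3 with h4 | h4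
    · have : Nat.card C ≠ 0 := Nat.card_pos.ne'
      exact this (by exact_mod_cast h4)
    · have : Nonempty {x : G // IsConj z x} := ⟨⟨z, IsConj.refl z⟩⟩
      have h5 : Nat.card {x : G // IsConj z x} ≠ 0 := Nat.card_pos.ne'
      exact h5 (by exact_mod_cast h4)
  · exact h3

open Classical in
/-- HINT: `SMTa_main` for `z = w * ι y'`; the terms with `p ∣ orderOf c` vanish (`SMTb_zero`); for
`p`-regular `c`: `IsConj (w * ι y') (w * ι c) ↔ IsConj y' c` (compare `Bess_conj`: `w` is the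
`p`-part); so the right side is `|G| * |class of y'| * ∑ j, Y j y * Y j y'⁻¹`; and
`|class of w * ι y' in G| * |C| = |G| * |class of y' in C|` (`SecW_card`; for the subgroup `range ι`, or
directly by counting centralizers, `SecW_orb`). -/
theorem SMTb_main {G C : Type} [Group G] [Fintype G] [Group C] [Fintype C] (p : ℕ)
    (hp : p.Prime) (𝔪 : Ideal AInt) (h𝔪 : 𝔪.IsMaximal) (hp𝔪 : (p : AInt) ∈ 𝔪) (χ₀ : G → ℂ)
    (hχ₀ : χ₀ ∈ Irr G) (w : G) (n : ℕ) (hw : w ^ (p ^ n) = 1) (ι : C →* G)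
    (hι : Function.Injective ι) (hr : ∀ x : G, (∃ y, ι y = x) ↔ w * x = x * w)
    {K L : ℕ} (X : Fin K → G → ℂ) (hXi : Function.Injective X) (hX : Set.range X = Irr G)
    (Y : Fin L → C → ℂ) (hYi : Function.Injective Y) (hY : Set.range Y = Irr C)
    (y y' : C) (hy : ¬ p ∣ orderOf y) (hy' : ¬ p ∣ orderOf y') :
    ∑ i with X i ∈ block 𝔪 χ₀, X i (w * ι y) * X i (w * ι y')⁻¹ =
      ∑ j with Ind 𝔪 ι (Y j) χ₀, Y j y * Y j y'⁻¹ := by
  have h1 := SMTa_main p hp 𝔪 h𝔪 hp𝔪 χ₀ hχ₀ w n hw ι hι hr X hXi hX Y hYi hY y hy (w * ι y')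
  have hIrr : ∀ i, Y i ∈ Irr C := fun i => hY ▸ Set.mem_range_self i
  have h2 : ∑ j with Ind 𝔪 ι (Y j) χ₀, Y j y * ∑ c : C with IsConj (w * ι y') (w * ι c), Y j c⁻¹ =
      (Nat.card {c : C // IsConj y' c} : ℂ) * ∑ j with Ind 𝔪 ι (Y j) χ₀, Y j y * Y j y'⁻¹ := by
    simp only [Finset.mul_sum]
    rw [Finset.sum_comm]
    have h3 : ∀ c ∈ Finset.univ.filter (fun c : C => IsConj (w * ι y') (w * ι c)),
        (∑ j with Ind 𝔪 ι (Y j) χ₀, Y j y * Y j c⁻¹) = if IsConj y' c then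
          ∑ j with Ind 𝔪 ι (Y j) χ₀, Y j y * Y j y'⁻¹ else 0 := by
      intro c hc
      rw [Finset.mem_filter] at hc
      by_cases hpc : p ∣ orderOf c
      · rw [SMTb_zero p hp 𝔪 h𝔪 hp𝔪 χ₀ hχ₀ ι Y hYi hY y c hy hpc, if_neg]
        intro h
        exact hy' ((orderOf_conj h) ▸ hpc)
      · have h4 := (SMTb_conj p hp w n hw ι hι hr y' c hy' hpc).1 hc.2
        rw [if_pos h4]
        refine Finset.sum_congr rfl fun j _ => ?_
        rw [irr_conj (hIrr j) (isConj_inv h4)]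
    rw [Finset.sum_congr rfl h3, ← Finset.sum_filter, Finset.sum_const]
    have h5 : ((Finset.univ.filter (fun c : C => IsConj (w * ι y') (w * ι c))).filter
        fun c => IsConj y' c).card = Nat.card {c : C // IsConj y' c} := by
      rw [Nat.card_eq_fintype_card, Fintype.card_subtype]
      congr 1
      ext c
      rw [Finset.mem_filter, Finset.mem_filter, Finset.mem_filter]
      refine ⟨fun h => ⟨h.1.1, h.2⟩, fun h => ⟨⟨h.1, ?_⟩, h.2⟩⟩
      exact SMTb_conj' w ι hr h.2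
    rw [h5, nsmul_eq_mul, Finset.mul_sum]
  rw [h2] at h1
  have h6 := SMTb_card p hp w n hw ι hι hr y' hy'
  have h6' : (Nat.card {g : G // IsConj (w * ι y') g} : ℂ) * (Nat.card C : ℂ) =
      (Nat.card G : ℂ) * (Nat.card {z : C // IsConj y' z} : ℂ) := by exact_mod_cast h6
  have h7 : (Nat.card G : ℂ) ≠ 0 := by
    have : Nat.card G ≠ 0 := Nat.card_pos.ne'
    exact_mod_cast this
  have h8 : (Nat.card {z : C // IsConj y' z} : ℂ) ≠ 0 := by
    have : Nonempty {x : C // IsConj y' x} := ⟨⟨y', IsConj.refl y'⟩⟩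
    have h5 : Nat.card {x : C // IsConj y' x} ≠ 0 := Nat.card_pos.ne'
    exact_mod_cast h5
  apply mul_left_cancel₀ (mul_ne_zero h7 h8)
  rw [mul_comm (Nat.card C : ℂ), h6'] at h1
  rw [h1, mul_assoc]

end Pool.Agent.KBQ
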