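import Pool.Agent.KBQ.IndA
import Pool.Agent.KBU.HtA
import Pool.Agent.KBZ.Cnt
import Pool.Agent.KBZ.HD
import Pool.Agent.KBZ.CovZ

/-! The bound of the number of characters by a short vector of one section. -/

namespace Pool.Agent.KBQ

open Pool.Agent.KB Pool.Agent.KB.ContrAux Pool.Agent.KBL Pool.Agent.KBZ Pool.Agent.KBU

/-- HINT: some `t₀`, `t₁` with `f t₀ ≠ f t₁`; for every `t` one of `f t ≠ f t₀`, `f t ≠ f t₁` holds; the ordered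
pairs `(t₀, t)`, `(t, t₀)`, .. give `2 * (p - 1)` pairs with different values (see `HD_row`). -/
theorem LnX_pairs {A : Type} [DecidableEq A] (p : ℕ) (f : Fin p → A) (t₀ t₁ : Fin p)
    (h : f t₀ ≠ f t₁) :
    2 * (p - 1) ≤ (Finset.univ.filter fun z : Fin p × Fin p => f z.1 ≠ f z.2).card := by
  have h1 := Cnt_main f t₀ t₁ h
  refine h1.trans (le_of_eq ?_)
  congr

private theorem LnX_sq (p : ℕ) (hp : 1 ≤ p) (f : Fin p → ℤ) (t₀ t₁ : Fin p) (h : f t₀ ≠ f t₁) :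
    2 * ((p : ℤ) - 1) ≤ ∑ t, ∑ t', (f t - f t') ^ 2 := by
  have h1 := LnX_pairs p f t₀ t₁ h
  rw [← Finset.sum_product' Finset.univ Finset.univ (fun t t' => (f t - f t') ^ 2)]
  rw [Finset.univ_product_univ]
  have h2 : ∑ z ∈ (Finset.univ.filter fun z : Fin p × Fin p => f z.1 ≠ f z.2), (1 : ℤ) ≤
      ∑ z ∈ (Finset.univ.filter fun z : Fin p × Fin p => f z.1 ≠ f z.2), (f z.1 - f z.2) ^ 2 := by
    refine Finset.sum_le_sum fun z hz => ?_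
    have h3 : f z.1 - f z.2 ≠ 0 := sub_ne_zero.2 (Finset.mem_filter.1 hz).2
    have h4 : 0 < (f z.1 - f z.2) ^ 2 := by positivity
    omega
  have h3 : ∑ z ∈ (Finset.univ.filter fun z : Fin p × Fin p => f z.1 ≠ f z.2),
      (f z.1 - f z.2) ^ 2 ≤ ∑ z : Fin p × Fin p, (f z.1 - f z.2) ^ 2 :=
    Finset.sum_le_sum_of_subset_of_nonneg (Finset.filter_subset _ _) fun z _ _ => sq_nonneg _
  rw [Finset.sum_const, nsmul_eq_mul, mul_one] at h2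
  have h4 : ((2 * (p - 1) : ℕ) : ℤ) = 2 * ((p : ℤ) - 1) := by
    push_cast [Nat.cast_sub hp]
    ring
  rw [← h4]
  have h5 : ((2 * (p - 1) : ℕ) : ℤ) ≤
      ((Finset.univ.filter fun z : Fin p × Fin p => f z.1 ≠ f z.2).card : ℤ) := by
    exact_mod_cast h1
  exact h5.trans (h2.trans h3)

/-- `k(B) ≤ p ^ d * M(x, x)` if `p ∤ v(x)`. HINT: `hne` gives for each `i` some `r`, `t`, `t'` with different
values of `bil M x (a (χ i) r t)`; by `LnX_pairs` (values in `ℤ`) the sum over `t`, `t'` of the squares of the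
differences is at least `2 * (p - 1)`. `CovZ_main`. -/
theorem LnX_count {G : Type} [Group G] [Fintype G] {p : ℕ} {𝔪 : Ideal AInt} {u : G}
    {C : Subgroup G} [Fintype C] {ζ₀ : C → ℂ} (L : Loc p 𝔪 u C ζ₀) (χ₀ : G → ℂ)
    {k : ℕ} (χ : Fin k → G → ℂ) (hinj : Function.Injective χ) (hχ : ∀ i, χ i ∈ block 𝔪 χ₀)
    (x : Fin L.K → ℤ)
    (hne : ∀ χ ∈ block 𝔪 χ₀, ∃ r t t', bil L.M x (L.a χ r t) ≠ bil L.M x (L.a χ r t')) :
    (k : ℤ) ≤ (p : ℤ) ^ defect p (block 𝔪 ζ₀) * bil L.M x x := by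
  classical
  have hp := L.hp
  have h1 := CovZ_main L χ hinj (fun i => (hχ i).1) x
  have h2 : ∀ i, 2 * ((p : ℤ) - 1) ≤ ∑ r, ∑ t, ∑ t', (bil L.M x (L.a (χ i) r t) -
      bil L.M x (L.a (χ i) r t')) ^ 2 := by
    intro i
    obtain ⟨r, t, t', htt⟩ := hne (χ i) (hχ i)
    have h3 := LnX_sq p hp.one_lt.le (fun t => bil L.M x (L.a (χ i) r t)) t t' htt
    refine h3.trans ?_
    exact Finset.single_le_sum (f := fun r => ∑ t, ∑ t', (bil L.M x (L.a (χ i) r t) -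
      bil L.M x (L.a (χ i) r t')) ^ 2) (fun r _ => Finset.sum_nonneg fun t _ =>
        Finset.sum_nonneg fun t' _ => sq_nonneg _) (Finset.mem_univ r)
  have h3 : (k : ℤ) * (2 * ((p : ℤ) - 1)) ≤ 2 * ((p : ℤ) - 1) * (p : ℤ) ^ defect p (block 𝔪 ζ₀) *
      bil L.M x x := by
    refine le_trans ?_ h1
    have h4 : ∑ _i : Fin k, 2 * ((p : ℤ) - 1) = (k : ℤ) * (2 * ((p : ℤ) - 1)) := by
      rw [Finset.sum_const, Finset.card_univ, Fintype.card_fin, nsmul_eq_mul]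
    rw [← h4]
    exact Finset.sum_le_sum fun i _ => h2 i
  have hpp : (2 : ℤ) ≤ (p : ℤ) := by exact_mod_cast hp.two_le
  have h5 : 0 < 2 * ((p : ℤ) - 1) := by linarith
  have h6 : 2 * ((p : ℤ) - 1) * (k : ℤ) ≤
      2 * ((p : ℤ) - 1) * ((p : ℤ) ^ defect p (block 𝔪 ζ₀) * bil L.M x x) := by
    calc 2 * ((p : ℤ) - 1) * (k : ℤ) = (k : ℤ) * (2 * ((p : ℤ) - 1)) := by ring
      _ ≤ _ := h3
      _ = _ := by ring
  exact le_of_mul_le_mul_left h6 h5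

private theorem LnX_nonneg {G : Type} [Group G] [Fintype G] {p : ℕ} {𝔪 : Ideal AInt} {u : G}
    {C : Subgroup G} [Fintype C] {ζ₀ : C → ℂ} (L : Loc p 𝔪 u C ζ₀) (x : Fin L.K → ℤ) :
    0 ≤ bil L.M x x := by
  have h := CovZ_norm L x
  have h1 : (0 : ℝ) ≤ ((bil L.M x x : ℤ) : ℝ) := by
    rw [← h]
    positivity
  exact_mod_cast h1

open Classical in
/-- HINT: `AsmZ_main` gives `c`, `v`; `Ht_zero` for `χ`: `p` does not divide `∑ r t j, a r t j * v j`. So for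
some `r` the classes modulo `p` of `∑ j, a r t j * v j` are not the same for all `t` (otherwise the sum over
`t` is `p` times this). Among the pairs `(t, t')` with different classes take one with the least value of
`bil M (a r t - a r t') (a r t - a r t')`; by `LnX_pairs` there are `2 * (p - 1)` such pairs, and all the
terms are `≥ 0` (`CovZ_norm`). `x = a r t - a r t'`; `LnX_count` with (4) of `AsmZ_main`. -/
theorem LnX_main {G : Type} [Group G] [Fintype G] {p : ℕ} {𝔪 : Ideal AInt} {u : G}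
    {C : Subgroup G} [Fintype C] {ζ₀ : C → ℂ} (L : Loc p 𝔪 u C ζ₀) (χ₀ : G → ℂ) (hχ₀ : χ₀ ∈ Irr G)
    (hind : ∀ g : G, InM 𝔪 (omega χ₀ g - (∑ h : {h : C // IsConj g (h : G)}, ζ₀ h) / ζ₀ 1))
    (hmaj : defect p (block 𝔪 ζ₀) = defect p (block 𝔪 χ₀))
    {k : ℕ} (χ : Fin k → G → ℂ) (hinj : Function.Injective χ) (hχ : ∀ i, χ i ∈ block 𝔪 χ₀)
    (χ₁ : G → ℂ) (hχ₁ : χ₁ ∈ block 𝔪 χ₀) (h1 : ¬ InM 𝔪 (A p χ₁ χ₀)) :
    2 * ((p : ℤ) - 1) * k ≤ (p : ℤ) ^ defect p (block 𝔪 χ₀) *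
      ∑ r, ∑ t, ∑ t', bil L.M (L.a χ₁ r t - L.a χ₁ r t') (L.a χ₁ r t - L.a χ₁ r t') := by
  have hp := L.hp
  have hpp : (2 : ℤ) ≤ (p : ℤ) := by exact_mod_cast hp.two_le
  obtain ⟨c, v, hc, hM, -, h4, -⟩ := AsmZ_main L χ₀ hχ₀ hind hmaj
  have h0 := Ht_zero L χ₀ hχ₀ hind c v hM χ₁ hχ₁ h1
  -- the linear form
  obtain ⟨w, hw⟩ : ∃ w : (Fin L.K → ℤ) → ℤ, ∀ x, w x = ∑ j, x j * v j := ⟨_, fun _ => rfl⟩
  have hwsub : ∀ x y, w (x - y) = w x - w y := by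
    intro x y
    rw [hw, hw, hw, ← Finset.sum_sub_distrib]
    exact Finset.sum_congr rfl fun j _ => by rw [Pi.sub_apply]; ring
  have hex : ∃ r t t', ¬ (p : ℤ) ∣ w (L.a χ₁ r t) - w (L.a χ₁ r t') := by
    by_contra hcon
    push Not at hcon
    apply h0
    refine Finset.dvd_sum fun r _ => ?_
    have h2 : ∑ t, ∑ j, L.a χ₁ r t j * v j =
        ∑ t, (w (L.a χ₁ r t) - w (L.a χ₁ r ⟨0, hp.pos⟩)) + (p : ℤ) * w (L.a χ₁ r ⟨0, hp.pos⟩) := by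
      rw [Finset.sum_sub_distrib, Finset.sum_const, Finset.card_univ, Fintype.card_fin,
        nsmul_eq_mul, sub_add_cancel]
      exact Finset.sum_congr rfl fun t _ => (hw _).symm
    rw [h2]
    exact dvd_add (Finset.dvd_sum fun t _ => hcon r t _) (dvd_mul_right _ _)
  obtain ⟨r, t₀, t₁, ht⟩ := hex
  have hf : ∀ t t', ((w (L.a χ₁ r t) : ZMod p) ≠ (w (L.a χ₁ r t') : ZMod p)) ↔
      ¬ (p : ℤ) ∣ w (L.a χ₁ r t) - w (L.a χ₁ r t') := by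
    intro t t'
    rw [ne_eq, not_iff_not, ← sub_eq_zero, ← Int.cast_sub, ZMod.intCast_zmod_eq_zero_iff_dvd]
  have hcard := LnX_pairs p (fun t => (w (L.a χ₁ r t) : ZMod p)) t₀ t₁ ((hf _ _).2 ht)
  obtain ⟨S, hS⟩ : ∃ S : Finset (Fin p × Fin p), S = Finset.univ.filter
      fun z : Fin p × Fin p => (w (L.a χ₁ r z.1) : ZMod p) ≠ (w (L.a χ₁ r z.2) : ZMod p) := ⟨_, rfl⟩
  have hcard' : 2 * (p - 1) ≤ S.card := by
    rw [hS]
    refine hcard.trans (le_of_eq ?_)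
    congr
  have hne : S.Nonempty := by
    refine ⟨(t₀, t₁), ?_⟩
    rw [hS, Finset.mem_filter]
    exact ⟨Finset.mem_univ _, (hf _ _).2 ht⟩
  obtain ⟨g, hg⟩ : ∃ g : Fin p × Fin p → ℤ, ∀ z, g z =
      bil L.M (L.a χ₁ r z.1 - L.a χ₁ r z.2) (L.a χ₁ r z.1 - L.a χ₁ r z.2) := ⟨_, fun _ => rfl⟩
  obtain ⟨z₀, hz₀, hmin⟩ := S.exists_min_image g hne
  have hz₀' : ¬ (p : ℤ) ∣ w (L.a χ₁ r z₀.1) - w (L.a χ₁ r z₀.2) := by
    rw [hS, Finset.mem_filter] at hz₀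
    exact (hf _ _).1 hz₀.2
  have hcount := LnX_count L χ₀ χ hinj hχ (L.a χ₁ r z₀.1 - L.a χ₁ r z₀.2) (fun ψ hψ =>
    h4 ψ hψ _ (by rw [← hw, hwsub]; exact hz₀'))
  rw [← hg, hmaj] at hcount
  -- the sum over the pairs
  have hsum1 : (S.card : ℤ) * g z₀ ≤ ∑ z ∈ S, g z := by
    have : ∑ _z ∈ S, g z₀ ≤ ∑ z ∈ S, g z := Finset.sum_le_sum fun z hz => hmin z hz
    rwa [Finset.sum_const, nsmul_eq_mul] at this
  have hgn : ∀ z, 0 ≤ g z := fun z => by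
    rw [hg]
    exact LnX_nonneg L _
  have hsum2 : ∑ z ∈ S, g z ≤ ∑ t, ∑ t', bil L.M (L.a χ₁ r t - L.a χ₁ r t')
      (L.a χ₁ r t - L.a χ₁ r t') := by
    have h5 : ∑ z ∈ S, g z ≤ ∑ z : Fin p × Fin p, g z :=
      Finset.sum_le_sum_of_subset_of_nonneg (Finset.subset_univ _) fun z _ _ => hgn z
    refine h5.trans (le_of_eq ?_)
    rw [← Finset.sum_product' Finset.univ Finset.univ (fun t t' => bil L.M
      (L.a χ₁ r t - L.a χ₁ r t') (L.a χ₁ r t - L.a χ₁ r t')), Finset.univ_product_univ]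
    exact Finset.sum_congr rfl fun z _ => hg z
  have hsum3 : ∑ t, ∑ t', bil L.M (L.a χ₁ r t - L.a χ₁ r t') (L.a χ₁ r t - L.a χ₁ r t') ≤
      ∑ r, ∑ t, ∑ t', bil L.M (L.a χ₁ r t - L.a χ₁ r t') (L.a χ₁ r t - L.a χ₁ r t') :=
    Finset.single_le_sum (f := fun r => ∑ t, ∑ t', bil L.M (L.a χ₁ r t - L.a χ₁ r t')
      (L.a χ₁ r t - L.a χ₁ r t')) (fun r _ => Finset.sum_nonneg fun t _ =>
        Finset.sum_nonneg fun t' _ => LnX_nonneg L _) (Finset.mem_univ r)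
  have hcz : 2 * ((p : ℤ) - 1) ≤ (S.card : ℤ) := by
    have h5 : ((2 * (p - 1) : ℕ) : ℤ) = 2 * ((p : ℤ) - 1) := by
      push_cast [Nat.cast_sub hp.one_lt.le]
      ring
    rw [← h5]
    exact_mod_cast hcard'
  have hP : (0 : ℤ) ≤ (p : ℤ) ^ defect p (block 𝔪 χ₀) := by positivity
  calc 2 * ((p : ℤ) - 1) * k ≤ 2 * ((p : ℤ) - 1) * ((p : ℤ) ^ defect p (block 𝔪 χ₀) * g z₀) :=
        mul_le_mul_of_nonneg_left hcount (by linarith)
    _ = (p : ℤ) ^ defect p (block 𝔪 χ₀) * (2 * ((p : ℤ) - 1) * g z₀) := by ring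
    _ ≤ (p : ℤ) ^ defect p (block 𝔪 χ₀) * ((S.card : ℤ) * g z₀) := by
        refine mul_le_mul_of_nonneg_left ?_ hP
        exact mul_le_mul_of_nonneg_right hcz (hgn z₀)
    _ ≤ _ := mul_le_mul_of_nonneg_left (hsum1.trans (hsum2.trans hsum3)) hP

end Pool.Agent.KBQ
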