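import Pool.Agent.KBQ.LnS
import Pool.Agent.KBQ.LnX
import Pool.Agent.KBQ.LX

/-! `k(B) ≤ |E| |D|` for abelian defect groups. -/

namespace Pool.Agent.KBQ

open Pool.Agent.KB Pool.Agent.KB.ContrAux Pool.Agent.KBL Pool.Agent.KBZ Pool.Agent.KBU

theorem LnD_main {K H : Type} [Group K] [Fintype K] [Group H] [Fintype H] (p : ℕ)
    (hp : p.Prime) (𝔪 : Ideal AInt) (h𝔪 : 𝔪.IsMaximal) (hp𝔪 : (p : AInt) ∈ 𝔪) (χ : K → ℂ)
    (hχ : χ ∈ Irr K) (D : Subgroup K) (ι : H →* K) (ζ : H → ℂ) (hA : AbD p 𝔪 χ D ι ζ) (e : ℕ)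
    (he : Nat.card (Stb 𝔪 hA.cen ζ) ≤ e * Nat.card H) :
    (block 𝔪 χ).ncard ≤ e * p ^ defect p (block 𝔪 χ) := by
  classical
  have he1 : 1 ≤ e := by
    rcases Nat.eq_zero_or_pos e with h0 | h0
    · exfalso
      rw [h0, zero_mul] at he
      have h1 : 0 < Nat.card (Stb 𝔪 hA.cen ζ) := Nat.card_pos
      omega
    · exact h0
  rcases Nat.eq_zero_or_pos (defect p (block 𝔪 χ)) with hd0 | hd1
  · have h1 := FinA_small p hp 𝔪 h𝔪 hp𝔪 χ hχ (by omega)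
    refine h1.trans ?_
    exact Nat.le_mul_of_pos_left _ he1
  obtain ⟨d, hd⟩ : ∃ d, d = defect p (block 𝔪 χ) := ⟨_, rfl⟩
  have hcardD : Nat.card D = p ^ d := by rw [hd]; exact hA.card
  -- representatives
  have hcardR : Nat.card ι.range = Nat.card H :=
    (Nat.card_congr (Equiv.ofInjective ι hA.cen.inj)).symm
  obtain ⟨S, hS1, hS2, hS3⟩ := Reps_main D (Stb 𝔪 hA.cen ζ) ι.range
    (fun n hn x hx => (hn.1 x).1 hx) (Abl_range 𝔪 D ι hA.cen ζ hA.irr)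
    (fun c hc x hx => by
      obtain ⟨y, rfl⟩ := hc
      exact (hA.cen.com y hx).symm) e (by rw [hcardR]; exact he)
  -- the local data
  let C : S → Subgroup K := fun w => Subgroup.centralizer {w.1}
  haveI : ∀ w : S, Fintype (C w) := fun w => Fintype.ofFinite _
  have hmemC : ∀ (w : S) (x : K), x ∈ C w ↔ x * w.1 = w.1 * x := by
    intro w x
    rw [Subgroup.mem_centralizer_singleton_iff]
  have hr : ∀ (w : S) (x : K), (∃ y, (C w).subtype y = x) ↔ w.1 * x = x * w.1 := by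
    intro w x
    rw [eq_comm (a := w.1 * x), ← hmemC]
    exact ⟨fun ⟨y, hy⟩ => hy ▸ y.2, fun hx => ⟨⟨x, hx⟩, rfl⟩⟩
  have hex : ∀ w : S, ∃ (κ : H →* C w) (ψ : C w → ℂ),
      (∀ x, (C w).subtype (κ x) = ι x) ∧ ψ ∈ Irr (C w) ∧ Ind 𝔪 κ ζ ψ := fun w =>
    Bw_ex p hp 𝔪 h𝔪 hp𝔪 χ D ι ζ hA w.1 (hS1 _ w.2).1 (C w).subtype (C w).subtype_injective (hr w)
  choose κ ψ hκ hψ hindκ using hex
  have hBw : ∀ w : S, Ind 𝔪 (C w).subtype (ψ w) χ ∧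
      defect p (block 𝔪 (ψ w)) = defect p (block 𝔪 χ) ∧
      AbD p 𝔪 (ψ w) (D.comap (C w).subtype) (κ w) ζ := fun w =>
    Bw_main p hp 𝔪 h𝔪 hp𝔪 χ hχ D ι ζ hA w.1 (hS1 _ w.2).1 (C w).subtype (C w).subtype_injective
      (hr w) (κ w) (hκ w) (ψ w) (hψ w) (hindκ w)
  have hordw : ∀ w : S, ∃ m, orderOf w.1 = p ^ (m + 1) := by
    intro w
    obtain ⟨n, hn0⟩ := hA.pg ⟨w.1, (hS1 _ w.2).1⟩
    have hn : w.1 ^ (p ^ n) = 1 := by simpa using congrArg Subtype.val hn0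
    obtain ⟨t, -, ht⟩ := (Nat.dvd_prime_pow hp).mp (orderOf_dvd_of_pow_eq_one hn)
    rcases Nat.eq_zero_or_pos t with h0 | h0
    · exfalso
      rw [h0, pow_zero, orderOf_eq_one_iff] at ht
      exact (hS1 _ w.2).2 ht
    · exact ⟨t - 1, by rw [ht]; congr 1; omega⟩
  have hL : ∀ w : S, Nonempty (Loc p 𝔪 w.1 (C w) (ψ w)) := by
    intro w
    obtain ⟨t, ht⟩ := hordw w
    exact MkLoc_main p hp 𝔪 h𝔪 hp𝔪 w.1 t ht (C w) (hmemC w) (ψ w) (hψ w)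
  let L : ∀ w : S, Loc p 𝔪 w.1 (C w) (ψ w) := fun w => (hL w).some
  have hnc : ∀ i j : S, i ≠ j → ∀ k : K, k * i.1 * k⁻¹ = j.1 →
      ¬ Cj 𝔪 k (C i).subtype (ψ i) (C j).subtype (ψ j) := by
    intro i j hij k hk hcj
    obtain ⟨n, hn, hn2⟩ := Fus_main p hp 𝔪 h𝔪 hp𝔪 χ hχ D ι ζ hA i.1 j.1 (hS1 _ i.2).1
      (hS1 _ j.2).1 (C i).subtype (C i).subtype_injective (hr i) (C j).subtype
      (C j).subtype_injective (hr j) (κ i) (hκ i) (κ j) (hκ j) (ψ i) (hψ i) (ψ j) (hψ j)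
      (hindκ i) (hindκ j) k hk hcj
    exact hij (Subtype.ext (hS2 _ i.2 _ j.2 n hn hn2))
  -- a character of height zero
  obtain ⟨n', c, c₀, -, -, -, -, ⟨χ₁, hχ₁, hcχ₁⟩, hAG, -⟩ :=
    Cdeg_main p hp 𝔪 h𝔪 hp𝔪 χ hχ
  have hA1 : ¬ InM 𝔪 (A p χ₁ χ) := fun h => hcχ₁ ((hAG χ₁ hχ₁).1 h)
  have hblk : block 𝔪 χ₁ = block 𝔪 χ := by
    ext θ
    constructor
    · rintro ⟨h1, h2⟩
      refine ⟨h1, fun g => ?_⟩
      have h3 : InM 𝔪 (omega χ g - omega χ₁ g) := hχ₁.2 g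
      have h4 : InM 𝔪 (omega χ₁ g - omega θ g) := h2 g
      have h5 := InM_add h3 h4
      rwa [sub_add_sub_cancel] at h5
    · rintro ⟨h1, h2⟩
      refine ⟨h1, fun g => ?_⟩
      have h3 : InM 𝔪 (omega χ g - omega χ₁ g) := hχ₁.2 g
      have h4 : InM 𝔪 (omega χ g - omega θ g) := h2 g
      have h5 := InM_sub h4 h3
      have e5 : omega χ g - omega θ g - (omega χ g - omega χ₁ g) = omega χ₁ g - omega θ g := by
        ring
      rwa [e5] at h5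
  -- enumeration of the block
  have hfin := Gam_fin 𝔪 χ
  have hcB : hfin.toFinset.card = (block 𝔪 χ).ncard := (Set.ncard_eq_toFinset_card _ hfin).symm
  obtain ⟨k, hk⟩ : ∃ k, k = (block 𝔪 χ).ncard := ⟨_, rfl⟩
  obtain ⟨X, hXi, hXm⟩ : ∃ X : Fin k → K → ℂ, Function.Injective X ∧ ∀ i, X i ∈ block 𝔪 χ := by
    refine ⟨fun i => ((hfin.toFinset.equivFinOfCardEq (hcB.trans hk.symm)).symm i).1, ?_, ?_⟩
    · intro a b hab
      exact (hfin.toFinset.equivFinOfCardEq (hcB.trans hk.symm)).symm.injective (Subtype.ext hab)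
    · intro a
      exact hfin.mem_toFinset.1 ((hfin.toFinset.equivFinOfCardEq (hcB.trans hk.symm)).symm a).2
  obtain ⟨W, hW⟩ : ∃ W : S → ℤ, ∀ w, W w = ∑ r, ∑ t, ∑ t', bil (L w).M
      ((L w).a χ₁ r t - (L w).a χ₁ r t') ((L w).a χ₁ r t - (L w).a χ₁ r t') := ⟨_, fun _ => rfl⟩
  have h1 : ∀ w : S, 2 * ((p : ℤ) - 1) * k ≤ (p : ℤ) ^ d * W w := by
    intro w
    rw [hW, hd]
    exact LnX_main (L w) χ hχ (fun g => IndA_loc 𝔪 (C w) (ψ w) (hψ w) χ hχ (hBw w).1 g)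
      (hBw w).2.1 X hXi hXm χ₁ hχ₁ hA1
  have h2 : ∑ w, W w ≤ 2 * ((p : ℤ) - 1) * ((p : ℤ) ^ d - 1) := by
    rw [Finset.sum_congr rfl fun w _ => hW w]
    exact LnS_main p hp 𝔪 h𝔪 hp𝔪 d (fun w : S => w.1) C ψ L
      (fun w => by rw [(hBw w).2.1, hd]) hnc χ₁ hχ₁.1 (by rw [hblk, hd])
  have hp2 : (0 : ℤ) < 2 * ((p : ℤ) - 1) := by
    have : (1 : ℤ) < p := by exact_mod_cast hp.one_lt
    linarith
  have hpd : (0 : ℤ) < (p : ℤ) ^ d := by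
    have : (0 : ℤ) < p := by exact_mod_cast hp.pos
    positivity
  have h3 : (S.card : ℤ) * (2 * ((p : ℤ) - 1) * k) ≤ (p : ℤ) ^ d * (2 * ((p : ℤ) - 1) * ((p : ℤ) ^ d - 1)) := by
    calc (S.card : ℤ) * (2 * ((p : ℤ) - 1) * k) = ∑ w : S, 2 * ((p : ℤ) - 1) * k := by
          rw [Finset.sum_const, Finset.card_univ, Fintype.card_coe, nsmul_eq_mul]
      _ ≤ ∑ w : S, (p : ℤ) ^ d * W w := Finset.sum_le_sum fun w _ => h1 w
      _ = (p : ℤ) ^ d * ∑ w, W w := (Finset.mul_sum _ _ _).symm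
      _ ≤ _ := mul_le_mul_of_nonneg_left h2 hpd.le
  have h4 : (S.card : ℤ) * k ≤ (p : ℤ) ^ d * ((p : ℤ) ^ d - 1) := by
    have e1 : (S.card : ℤ) * (2 * ((p : ℤ) - 1) * k) = 2 * ((p : ℤ) - 1) * ((S.card : ℤ) * k) := by
      ring
    have e2 : (p : ℤ) ^ d * (2 * ((p : ℤ) - 1) * ((p : ℤ) ^ d - 1)) =
        2 * ((p : ℤ) - 1) * ((p : ℤ) ^ d * ((p : ℤ) ^ d - 1)) := by ring
    rw [e1, e2] at h3
    exact le_of_mul_le_mul_left h3 hp2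
  have h5 : (p : ℤ) ^ d - 1 ≤ e * S.card := by
    rw [hcardD] at hS3
    have : ((p ^ d : ℕ) : ℤ) ≤ ((e * S.card + 1 : ℕ) : ℤ) := by exact_mod_cast hS3
    push_cast at this
    linarith
  have hSpos : 0 < S.card := by
    rcases Nat.eq_zero_or_pos S.card with h0 | h0
    · exfalso
      rw [h0] at hS3
      have h6 : p ≤ p ^ d := Nat.le_self_pow (by omega) p
      have := hp.one_lt
      rw [hcardD] at hS3
      omega
    · exact h0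
  have h6 : (S.card : ℤ) * k ≤ S.card * (e * (p : ℤ) ^ d) := by
    calc (S.card : ℤ) * k ≤ (p : ℤ) ^ d * ((p : ℤ) ^ d - 1) := h4
      _ ≤ (p : ℤ) ^ d * (e * S.card) := mul_le_mul_of_nonneg_left h5 hpd.le
      _ = _ := by ring
  have h7 : (k : ℤ) ≤ e * (p : ℤ) ^ d :=
    le_of_mul_le_mul_left h6 (by exact_mod_cast hSpos)
  rw [← hk, ← hd]
  exact_mod_cast h7

end Pool.Agent.KBQ
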