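import Pool.Agent.KBQ.ChW

/-! The order of the inertial quotient. -/

namespace Pool.Agent.KBQ

/-- the elements of order `p` of the commutative group `D` -/
private def LnE_V {K : Type} [Group K] (p : ℕ) (D : Subgroup K)
    (hab : ∀ a ∈ D, ∀ b ∈ D, a * b = b * a) : Subgroup K where
  carrier := {x | x ∈ D ∧ x ^ p = 1}
  mul_mem' := by
    rintro a b ⟨ha, ha'⟩ ⟨hb, hb'⟩
    refine ⟨D.mul_mem ha hb, ?_⟩
    have : Commute a b := hab a ha b hb
    rw [this.mul_pow, ha', hb', one_mul]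
  one_mem' := ⟨D.one_mem, one_pow p⟩
  inv_mem' := by
    rintro a ⟨ha, ha'⟩
    exact ⟨D.inv_mem ha, by rw [inv_pow, ha', inv_one]⟩

private theorem LnE_V_mem {K : Type} [Group K] {p : ℕ} {D : Subgroup K}
    {hab : ∀ a ∈ D, ∀ b ∈ D, a * b = b * a} {x : K} :
    x ∈ LnE_V p D hab ↔ x ∈ D ∧ x ^ p = 1 := Iff.rfl

/-- conjugation -/
private def LnE_phi {K : Type} [Group K] (p : ℕ) (D N : Subgroup K)
    (hab : ∀ a ∈ D, ∀ b ∈ D, a * b = b * a)
    (hN : ∀ n ∈ N, ∀ x ∈ D, n * x * n⁻¹ ∈ D) : N →* MulAut (LnE_V p D hab) where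
  toFun n :=
    { toFun := fun x => ⟨n.1 * x.1 * n.1⁻¹, hN n.1 n.2 x.1 x.2.1, by
        have h := x.2.2
        rw [conj_pow, h, mul_one, mul_inv_cancel]⟩
      invFun := fun x => ⟨n.1⁻¹ * x.1 * n.1, by
        have h := hN n.1⁻¹ (N.inv_mem n.2) x.1 x.2.1
        rwa [inv_inv] at h, by
        have h := x.2.2
        have h2 : (n.1⁻¹ * x.1 * n.1⁻¹⁻¹) ^ p = 1 := by
          rw [conj_pow, h, mul_one, mul_inv_cancel]
        rwa [inv_inv] at h2⟩
      left_inv := fun x => Subtype.ext (by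
        show n.1⁻¹ * (n.1 * x.1 * n.1⁻¹) * n.1 = x.1
        group)
      right_inv := fun x => Subtype.ext (by
        show n.1 * (n.1⁻¹ * x.1 * n.1) * n.1⁻¹ = x.1
        group)
      map_mul' := fun x y => Subtype.ext (by
        show n.1 * (x.1 * y.1) * n.1⁻¹ = (n.1 * x.1 * n.1⁻¹) * (n.1 * y.1 * n.1⁻¹)
        group) }
  map_one' := by
    ext x
    show (1 : K) * x.1 * (1 : K)⁻¹ = x.1
    simp
  map_mul' := fun a b => by
    ext x
    show (a.1 * b.1) * x.1 * (a.1 * b.1)⁻¹ = a.1 * (b.1 * x.1 * b.1⁻¹) * a.1⁻¹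
    group

private theorem LnE_phi_apply {K : Type} [Group K] (p : ℕ) (D N : Subgroup K)
    (hab : ∀ a ∈ D, ∀ b ∈ D, a * b = b * a)
    (hN : ∀ n ∈ N, ∀ x ∈ D, n * x * n⁻¹ ∈ D) (n : N) (x : LnE_V p D hab) :
    ((LnE_phi p D N hab hN n x : LnE_V p D hab) : K) = n.1 * x.1 * n.1⁻¹ := rfl

private theorem LnE_norm {K : Type} [Group K] (D N C : Subgroup K)
    (hN : ∀ n ∈ N, ∀ x ∈ D, n * x * n⁻¹ ∈ D) (hCN : C ≤ N) (hC : ∀ c ∈ C, ∀ x ∈ D, c * x = x * c)
    (hCc : ∀ n ∈ N, (∀ x ∈ D, n * x = x * n) → n ∈ C) : (C.subgroupOf N).Normal := by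
  refine ⟨fun c hc g => ?_⟩
  rw [Subgroup.mem_subgroupOf] at hc ⊢
  refine hCc _ (g * c * g⁻¹).2 fun x hx => ?_
  have h1 : g.1⁻¹ * x * g.1 ∈ D := by
    have h := hN g.1⁻¹ (N.inv_mem g.2) x hx
    rwa [inv_inv] at h
  have h2 := hC c.1 hc _ h1
  show g.1 * c.1 * g.1⁻¹ * x = x * (g.1 * c.1 * g.1⁻¹)
  calc g.1 * c.1 * g.1⁻¹ * x = g.1 * (c.1 * (g.1⁻¹ * x * g.1)) * g.1⁻¹ := by group
    _ = g.1 * ((g.1⁻¹ * x * g.1) * c.1) * g.1⁻¹ := by rw [h2]
    _ = x * (g.1 * c.1 * g.1⁻¹) := by group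

private theorem LnE_idx {K : Type} [Group K] [Finite K] (N C : Subgroup K) (hCN : C ≤ N) :
    (C.subgroupOf N).index = Nat.card N / Nat.card C := by
  have h1 := Subgroup.card_mul_index (C.subgroupOf N)
  have h2 : Nat.card (C.subgroupOf N) = Nat.card C :=
    Nat.card_congr (Subgroup.subgroupOfEquivOfLe hCN).toEquiv
  rw [h2] at h1
  rw [← h1, Nat.mul_div_cancel_left _ Nat.card_pos]

private theorem LnE_memC {K : Type} [Group K] [Finite K] (p : ℕ) (hp : p.Prime)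
    (D N C : Subgroup K)
    (hD : IsPGroup p D) (hab : ∀ a ∈ D, ∀ b ∈ D, a * b = b * a)
    (hN : ∀ n ∈ N, ∀ x ∈ D, n * x * n⁻¹ ∈ D) (hCN : C ≤ N) (hC : ∀ c ∈ C, ∀ x ∈ D, c * x = x * c)
    (hCc : ∀ n ∈ N, (∀ x ∈ D, n * x = x * n) → n ∈ C) (hpi : ¬ p ∣ Nat.card N / Nat.card C)
    (x : K) (hx : x ∈ N) (h : ∀ y ∈ D, y ^ p = 1 → x * y = y * x) : x ∈ C := by
  refine hCc x hx ?_
  haveI := LnE_norm D N C hN hCN hC hCc
  refine ChU_omega p hp D hD hab x (fun y hy => hN x hx y hy) h (Nat.card N / Nat.card C) hpi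
    fun y hy => ?_
  have h1 : (⟨x, hx⟩ : N) ^ (C.subgroupOf N).index ∈ C.subgroupOf N := Subgroup.pow_index_mem _ _
  rw [LnE_idx N C hCN, Subgroup.mem_subgroupOf] at h1
  exact hC _ h1 y hy

private theorem LnE_ker {K : Type} [Group K] [Finite K] (p : ℕ) (hp : p.Prime)
    (D N C : Subgroup K)
    (hD : IsPGroup p D) (hab : ∀ a ∈ D, ∀ b ∈ D, a * b = b * a)
    (hN : ∀ n ∈ N, ∀ x ∈ D, n * x * n⁻¹ ∈ D) (hCN : C ≤ N) (hC : ∀ c ∈ C, ∀ x ∈ D, c * x = x * c)
    (hCc : ∀ n ∈ N, (∀ x ∈ D, n * x = x * n) → n ∈ C) (hpi : ¬ p ∣ Nat.card N / Nat.card C)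
    (x : N) : LnE_phi p D N hab hN x = 1 ↔ (x : K) ∈ C := by
  constructor
  · intro h
    refine LnE_memC p hp D N C hD hab hN hCN hC hCc hpi x.1 x.2 fun y hy hyp => ?_
    have h1 : ((LnE_phi p D N hab hN x ⟨y, hy, hyp⟩ : LnE_V p D hab) : K) = y := by rw [h]; rfl
    rw [LnE_phi_apply] at h1
    have h2 : x.1 * y * x.1⁻¹ = y := h1
    rw [mul_inv_eq_iff_eq_mul] at h2
    exact h2
  · intro h
    ext y
    rw [LnE_phi_apply, hC _ h y.1 y.2.1]
    show y.1 * x.1 * x.1⁻¹ = y.1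
    group

private theorem LnE_lin0 {W : Type} [AddCommGroup W] [Finite W] (p : ℕ) [hp : Fact p.Prime]
    (hV : ∀ v : W, p • v = 0) (r : ℕ) (hr : Nat.card W ≤ p ^ r) :
    ∃ s ≤ r, ∃ g : AddMonoid.End W →* Matrix (Fin s) (Fin s) (ZMod p), Function.Injective g := by
  let md : Module (ZMod p) W := AddCommGroup.zmodModule (n := p) hV
  have hfd : Module.Finite (ZMod p) W := Module.Finite.of_finite
  have h1 : Nat.card W = p ^ Module.finrank (ZMod p) W := by
    have h2 := Module.natCard_eq_pow_finrank (K := ZMod p) (V := W)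
    rw [Nat.card_zmod] at h2
    exact h2
  have hs : Module.finrank (ZMod p) W ≤ r := by
    have h3 : Nat.card W ≤ p ^ r := hr
    rw [h1] at h3
    exact (Nat.pow_le_pow_iff_right hp.out.one_lt).1 h3
  refine ⟨Module.finrank (ZMod p) W, hs, ?_⟩
  let b := Module.finBasis (ZMod p) W
  let f : AddMonoid.End W →* Module.End (ZMod p) W :=
    { toFun := fun e => AddMonoidHom.toZModLinearMap p e
      map_one' := by
        apply LinearMap.ext
        intro x
        rfl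
      map_mul' := fun e e' => by
        apply LinearMap.ext
        intro x
        rfl }
  let g : AddMonoid.End W →* Matrix (Fin (Module.finrank (ZMod p) W))
      (Fin (Module.finrank (ZMod p) W)) (ZMod p) :=
    ((LinearMap.toMatrixAlgEquiv b : Module.End (ZMod p) W ≃ₐ[ZMod p] _) :
      Module.End (ZMod p) W →* _).comp f
  refine ⟨g, ?_⟩
  intro e e' h
  have h1 : f e = f e' := (LinearMap.toMatrixAlgEquiv b).injective h
  apply AddMonoidHom.ext
  intro x
  exact LinearMap.congr_fun h1 x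

private theorem LnE_lin {V : Type} [CommGroup V] [Finite V] (p : ℕ) [hp : Fact p.Prime]
    (hV : ∀ v : V, v ^ p = 1) (r : ℕ) (hr : Nat.card V ≤ p ^ r) :
    ∃ s ≤ r, ∃ g : MulAut V →* Matrix (Fin s) (Fin s) (ZMod p), Function.Injective g := by
  obtain ⟨s, hs, g, hg⟩ := LnE_lin0 (W := Additive V) p (fun v => by
    apply Additive.toMul.injective
    exact hV (Additive.toMul v)) r hr
  let f : MulAut V →* AddMonoid.End (Additive V) :=
    { toFun := fun e => MonoidHom.toAdditive e.toMonoidHom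
      map_one' := by
        apply AddMonoidHom.ext
        intro x
        rfl
      map_mul' := fun e e' => by
        apply AddMonoidHom.ext
        intro x
        rfl }
  refine ⟨s, hs, g.comp f, fun e e' h => ?_⟩
  have h1 : f e = f e' := hg h
  apply MulEquiv.ext
  intro x
  exact Additive.ofMul.injective (DFunLike.congr_fun h1 (Additive.ofMul x))


/-- HINT: see the proof of `ChW_rank` (private lemmas `ChW_phi`, `ChW_ker`, `ChW_lin`: make copies of what is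
needed): `N / C` embeds in the group of automorphisms of `V = {x ∈ D | x ^ p = 1}`, which embeds in the
`s × s` matrices over `ZMod p`, `s ≤ r`; there are `p ^ (s ^ 2)` matrices. Or directly: an endomorphism of the
elementary abelian group `V` is determined by the images of at most `r` generators, `|V| ≤ p ^ r`. -/
theorem LnE_main {K : Type} [Group K] [Finite K] (p : ℕ) (hp : p.Prime) (D N C : Subgroup K)
    (hD : IsPGroup p D) (hab : ∀ a ∈ D, ∀ b ∈ D, a * b = b * a)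
    (hN : ∀ n ∈ N, ∀ x ∈ D, n * x * n⁻¹ ∈ D) (hCN : C ≤ N) (hC : ∀ c ∈ C, ∀ x ∈ D, c * x = x * c)
    (hCc : ∀ n ∈ N, (∀ x ∈ D, n * x = x * n) → n ∈ C) (hpi : ¬ p ∣ Nat.card N / Nat.card C)
    (r : ℕ) (hr : Nat.card {x : D // x ^ p = 1} ≤ p ^ r) :
    Nat.card N ≤ p ^ (r ^ 2) * Nat.card C := by
  classical
  haveI : Fact p.Prime := ⟨hp⟩
  letI cg : CommGroup (LnE_V p D hab) :=
    { (inferInstance : Group (LnE_V p D hab)) with
      mul_comm := fun a b => Subtype.ext (hab a.1 a.2.1 b.1 b.2.1) }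
  let φ := LnE_phi p D N hab hN
  have hker := LnE_ker p hp D N C hD hab hN hCN hC hCc hpi
  obtain ⟨s, hs, g, hg⟩ := LnE_lin (V := LnE_V p D hab) p (fun v => Subtype.ext v.2.2) r (by
    refine le_trans (le_of_eq ?_) hr
    exact Nat.card_congr (α := LnE_V p D hab) ⟨fun x => ⟨⟨x.1, x.2.1⟩, Subtype.ext x.2.2⟩,
      fun x => ⟨x.1.1, x.1.2, congrArg Subtype.val x.2⟩, fun x => rfl, fun x => rfl⟩)
  let E : Subgroup (MulAut (LnE_V p D hab)) := φ.range
  have e3 : φ.ker = C.subgroupOf N := by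
    ext a
    rw [MonoidHom.mem_ker, Subgroup.mem_subgroupOf]
    exact hker a
  have hcardE : Nat.card E = (C.subgroupOf N).index := by
    rw [← e3, Subgroup.index_ker]
  have hE : Nat.card E ≤ Nat.card (Matrix (Fin s) (Fin s) (ZMod p)) := by
    refine Nat.card_le_card_of_injective (fun x : E => g x.1) ?_
    intro x y h
    exact Subtype.ext (hg h)
  have hM : Nat.card (Matrix (Fin s) (Fin s) (ZMod p)) = p ^ (s ^ 2) := by
    show Nat.card (Fin s → Fin s → ZMod p) = p ^ (s ^ 2)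
    rw [Nat.card_fun, Nat.card_fun, Nat.card_zmod, Nat.card_eq_fintype_card, Fintype.card_fin,
      ← pow_mul, pow_two]
  have h6 : (p : ℕ) ^ (s ^ 2) ≤ p ^ (r ^ 2) :=
    Nat.pow_le_pow_right hp.pos (Nat.pow_le_pow_left hs 2)
  have h1 := Subgroup.card_mul_index (C.subgroupOf N)
  have h2 : Nat.card (C.subgroupOf N) = Nat.card C :=
    Nat.card_congr (Subgroup.subgroupOfEquivOfLe hCN).toEquiv
  rw [h2, ← hcardE] at h1
  rw [← h1, mul_comm]
  refine Nat.mul_le_mul_right _ ?_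
  calc Nat.card E ≤ p ^ (s ^ 2) := hE.trans (le_of_eq hM)
    _ ≤ p ^ (r ^ 2) := h6

end Pool.Agent.KBQ
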