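import Pool.Agent.KBQ.LY
import Pool.Agent.KBQ.Fin
import Pool.Agent.KBQ.LnD
import Pool.Agent.KBQ.LnE

/-! `k(B) ≤ |D|` if `12 * |C_E(u)| ≤ p + 1` for an element `u` of the abelian defect group. -/

namespace Pool.Agent.KBQ

open Pool.Agent.KB Pool.Agent.KB.ContrAux Pool.Agent.KBL Pool.Agent.KBZ Pool.Agent.KBU

open Classical in
theorem KY_main {G H : Type} [Group G] [Fintype G] [Group H] [Fintype H] (p : ℕ)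
    (hp : p.Prime) (𝔪 : Ideal AInt) (h𝔪 : 𝔪.IsMaximal) (hp𝔪 : (p : AInt) ∈ 𝔪) (χ : G → ℂ)
    (hχ : χ ∈ Irr G) (D : Subgroup G) (ι : H →* G) (ζ : H → ℂ) (hA : AbD p 𝔪 χ D ι ζ) (u : G)
    (hu : u ∈ D) (e : ℕ)
    (he : Nat.card {n : G // n ∈ Stb 𝔪 hA.cen ζ ∧ n * u = u * n} ≤ e * Nat.card H)
    (hpe : 12 * e ≤ p + 1) :
    (block 𝔪 χ).Finite ∧ (block 𝔪 χ).ncard ≤ p ^ defect p (block 𝔪 χ) := by
  have hr : ∀ x : G, (∃ y : Subgroup.centralizer {u}, (Subgroup.centralizer {u}).subtype y = x) ↔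
      u * x = x * u := by
    intro x
    constructor
    · rintro ⟨y, rfl⟩
      exact (Subgroup.mem_centralizer_singleton_iff.1 y.2).symm
    · intro hx
      exact ⟨⟨x, Subgroup.mem_centralizer_singleton_iff.2 hx.symm⟩, rfl⟩
  have hinj : Function.Injective (Subgroup.centralizer {u} : Subgroup G).subtype :=
    Subgroup.subtype_injective _
  obtain ⟨κ, ψ, hκ, hψ, hindψ⟩ := Bw_ex p hp 𝔪 h𝔪 hp𝔪 χ D ι ζ hA u hu _ hinj hr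
  obtain ⟨hInd, hdef, hB⟩ := Bw_main p hp 𝔪 h𝔪 hp𝔪 χ hχ D ι ζ hA u hu _ hinj hr κ hκ ψ hψ hindψ
  have hst : Nat.card (Stb 𝔪 hB.cen ζ) ≤ e * Nat.card H := by
    refine le_trans ?_ he
    refine Nat.card_le_card_of_injective
      (fun s : Stb 𝔪 hB.cen ζ => (⟨((s : Subgroup.centralizer {u}) : G),
        LY_stb hA u hu hκ hB.cen s.1 s.2⟩ :
        {n : G // n ∈ Stb 𝔪 hA.cen ζ ∧ n * u = u * n})) ?_
    intro a b hab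
    have h1 := congrArg Subtype.val hab
    exact Subtype.ext (Subtype.ext h1)
  have hell : ell p (block 𝔪 ψ) < p :=
    LY_lt p hp 𝔪 h𝔪 hp𝔪 ψ hψ _ κ ζ hB e hst hpe
  obtain ⟨m, hm⟩ : ∃ m, orderOf u = p ^ m := by
    obtain ⟨l, hl⟩ := hA.pg ⟨u, hu⟩
    have h1 : u ^ (p ^ l) = 1 := congrArg Subtype.val hl
    obtain ⟨m, -, hm⟩ := (Nat.dvd_prime_pow hp).1 (orderOf_dvd_of_pow_eq_one h1)
    exact ⟨m, hm⟩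
  obtain ⟨hfin, -, h3⟩ := MainZ_main p hp 𝔪 h𝔪 hp𝔪 χ hχ u m hm ψ hψ
    ((IndA_sub 𝔪 _ ψ hψ χ hχ).2 hInd) hdef
  exact ⟨hfin, h3 (by omega)⟩

theorem KY_index {G H : Type} [Group G] [Fintype G] [Group H] [Fintype H] (p : ℕ)
    (hp : p.Prime) (𝔪 : Ideal AInt) (h𝔪 : 𝔪.IsMaximal) (hp𝔪 : (p : AInt) ∈ 𝔪) (χ : G → ℂ)
    (hχ : χ ∈ Irr G) (D : Subgroup G) (ι : H →* G) (ζ : H → ℂ) (hA : AbD p 𝔪 χ D ι ζ)
    (A : Subgroup G) (hAT : A ≤ Stb 𝔪 hA.cen ζ) (hCA : ι.range ≤ A)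
    (hcm : ∀ a ∈ A, ∀ b ∈ A, a * b * a⁻¹ * b⁻¹ ∈ ι.range) (j : ℕ)
    (hj : Nat.card (Stb 𝔪 hA.cen ζ) ≤ j * Nat.card A) (hpj : 12 * j ≤ p + 1) :
    (block 𝔪 χ).Finite ∧ (block 𝔪 χ).ncard ≤ p ^ defect p (block 𝔪 χ) := by
  have hcr : Nat.card ι.range = Nat.card H :=
    Nat.card_congr (MonoidHom.ofInjective hA.cen.inj).toEquiv.symm
  obtain ⟨u, hu, -, hcard⟩ := ChW_main p hp D (Stb 𝔪 hA.cen ζ) ι.range A hA.pg hA.com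
    (Fin_nrm 𝔪 hA.cen ζ) (Abl_range 𝔪 D ι hA.cen ζ hA.irr) (Fin_com hA.cen) (Fin_cc 𝔪 hA.cen ζ)
    (by
      rw [hcr]
      exact LemV_main p hp 𝔪 h𝔪 hp𝔪 χ hχ D ι ζ hA D hA.pg ι hA.cen ζ hA.irr hA.ind)
    hAT hCA hcm j hj
  rw [hcr] at hcard
  exact KY_main p hp 𝔪 h𝔪 hp𝔪 χ hχ D ι ζ hA u hu j hcard hpj

theorem KY_rank {G H : Type} [Group G] [Fintype G] [Group H] [Fintype H] (p : ℕ)
    (hp : p.Prime) (𝔪 : Ideal AInt) (h𝔪 : 𝔪.IsMaximal) (hp𝔪 : (p : AInt) ∈ 𝔪) (χ : G → ℂ)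
    (hχ : χ ∈ Irr G) (D : Subgroup G) (ι : H →* G) (ζ : H → ℂ) (hA : AbD p 𝔪 χ D ι ζ) (r : ℕ)
    (hr : Nat.card {x : D // x ^ p = 1} ≤ p ^ r) (hpr : 12 * 25 ^ (r ^ 2) ≤ p + 1) :
    (block 𝔪 χ).Finite ∧ (block 𝔪 χ).ncard ≤ p ^ defect p (block 𝔪 χ) := by
  have hcr : Nat.card ι.range = Nat.card H :=
    Nat.card_congr (MonoidHom.ofInjective hA.cen.inj).toEquiv.symm
  obtain ⟨A, hAT, hCA, hcm, hj⟩ := ChW_rank p hp D (Stb 𝔪 hA.cen ζ) ι.range hA.pg hA.com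
    (Fin_nrm 𝔪 hA.cen ζ) (Abl_range 𝔪 D ι hA.cen ζ hA.irr) (Fin_com hA.cen) (Fin_cc 𝔪 hA.cen ζ)
    (by
      rw [hcr]
      exact LemV_main p hp 𝔪 h𝔪 hp𝔪 χ hχ D ι ζ hA D hA.pg ι hA.cen ζ hA.irr hA.ind)
    r hr
  exact KY_index p hp 𝔪 h𝔪 hp𝔪 χ hχ D ι ζ hA A hAT hCA hcm (25 ^ (r ^ 2)) hj hpr

theorem KY_all {G H : Type} [Group G] [Fintype G] [Group H] [Fintype H] (p : ℕ)
    (hp : p.Prime) (𝔪 : Ideal AInt) (h𝔪 : 𝔪.IsMaximal) (hp𝔪 : (p : AInt) ∈ 𝔪) (χ : G → ℂ)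
    (hχ : χ ∈ Irr G) (D : Subgroup G) (ι : H →* G) (ζ : H → ℂ) (hA : AbD p 𝔪 χ D ι ζ) (r : ℕ)
    (hr : Nat.card {x : D // x ^ p = 1} ≤ p ^ r) :
    (block 𝔪 χ).ncard ≤ (12 * 25 ^ (r ^ 2)) ^ (r ^ 2) * Nat.card D := by
  rcases le_or_gt (12 * 25 ^ (r ^ 2)) p with h | h
  · have h1 := (KY_rank p hp 𝔪 h𝔪 hp𝔪 χ hχ D ι ζ hA r hr (by omega)).2
    rw [← hA.card] at h1
    exact h1.trans (Nat.le_mul_of_pos_left _ (by positivity))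
  · have hcr : Nat.card ι.range = Nat.card H :=
      Nat.card_congr (MonoidHom.ofInjective hA.cen.inj).toEquiv.symm
    have h1 := LnE_main p hp D (Stb 𝔪 hA.cen ζ) ι.range hA.pg hA.com
      (Fin_nrm 𝔪 hA.cen ζ) (Abl_range 𝔪 D ι hA.cen ζ hA.irr) (Fin_com hA.cen) (Fin_cc 𝔪 hA.cen ζ)
      (by
        rw [hcr]
        exact LemV_main p hp 𝔪 h𝔪 hp𝔪 χ hχ D ι ζ hA D hA.pg ι hA.cen ζ hA.irr hA.ind)
      r hr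
    rw [hcr] at h1
    have h2 := LnD_main p hp 𝔪 h𝔪 hp𝔪 χ hχ D ι ζ hA (p ^ (r ^ 2)) h1
    rw [← hA.card] at h2
    refine h2.trans (Nat.mul_le_mul_right _ ?_)
    exact Nat.pow_le_pow_left h.le _

end Pool.Agent.KBQ
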