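import Mathlib

/-! Symmetric integral matrices of rank one. -/

namespace Pool.Agent.KBQ

/-- A symmetric integral matrix with positive diagonal all of whose `2 × 2` minors vanish is
`κ * v * vᵀ`. Proof: for `n = 0` trivial. Otherwise let `m = M 0 0 ≥ 1` and let `g` be the gcd of the
`M 0 a`, `M 0 a = g * w a` with `gcd (w a) = 1` (`Finset.extract_gcd`). The minors give
`M a b * m = M 0 a * M 0 b = g ^ 2 * w a * w b`, so `m` divides `g ^ 2 * w a * w b` for all `a`, `b`, so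
`m ∣ g ^ 2` (`Finset.gcd_mul_left`). `κ = g ^ 2 / m`, `v = w`; `v a ≠ 0` as `M a a ≥ 1`. -/
theorem Rig4R_main {n : ℕ} (M : Fin n → Fin n → ℤ) (hs : ∀ a b, M a b = M b a)
    (hd : ∀ a, 1 ≤ M a a) (hm : ∀ a b c d, M a b * M c d = M a d * M c b) :
    ∃ (κ : ℤ) (v : Fin n → ℤ), 1 ≤ κ ∧ (∀ a, v a ≠ 0) ∧ ∀ a b, M a b = κ * v a * v b := by
  classical
  rcases Nat.eq_zero_or_pos n with h0 | hpos
  · subst h0
    exact ⟨1, fun a => a.elim0, le_rfl, fun a => a.elim0, fun a => a.elim0⟩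
  obtain ⟨o, -⟩ : ∃ o : Fin n, o = ⟨0, hpos⟩ := ⟨_, rfl⟩
  obtain ⟨w, hw, hw1⟩ := Finset.extract_gcd (M o) (s := Finset.univ) ⟨o, Finset.mem_univ o⟩
  obtain ⟨g, hg⟩ : ∃ g, g = (Finset.univ : Finset (Fin n)).gcd (M o) := ⟨_, rfl⟩
  rw [← hg] at hw
  have hw' : ∀ a, M o a = g * w a := fun a => hw a (Finset.mem_univ a)
  have h1 : ∀ a b, M a b * M o o = g ^ 2 * w a * w b := by
    intro a b
    rw [hm a b o o, hs a o, hw', hw']
    ring
  have hmo : M o o ∣ g ^ 2 := by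
    have h2 : ∀ a, M o o ∣ g ^ 2 * w a := by
      intro a
      have h3 : M o o ∣ Finset.univ.gcd fun b => g ^ 2 * w a * w b :=
        Finset.dvd_gcd fun b _ => ⟨M a b, by rw [← h1 a b]; ring⟩
      rw [Finset.gcd_mul_left, hw1, mul_one] at h3
      exact (dvd_normalize_iff).1 h3
    have h3 : M o o ∣ Finset.univ.gcd fun b => g ^ 2 * w b := Finset.dvd_gcd fun b _ => h2 b
    rw [Finset.gcd_mul_left, hw1, mul_one] at h3
    exact (dvd_normalize_iff).1 h3
  obtain ⟨κ, hκ⟩ := hmo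
  have hmo1 := hd o
  have hg2 : g ^ 2 ≠ 0 := by
    intro h2
    have h3 := hw' o
    have h4 : g = 0 := pow_eq_zero_iff (two_ne_zero) |>.1 h2
    rw [h4, zero_mul] at h3
    omega
  have hκ1 : 1 ≤ κ := by
    by_contra hcon
    have h2 : M o o * κ ≤ 0 := mul_nonpos_of_nonneg_of_nonpos (by omega) (by omega)
    have h3 : 0 < g ^ 2 := lt_of_le_of_ne (sq_nonneg g) (Ne.symm hg2)
    omega
  have h2 : ∀ a b, M a b = κ * w a * w b := by
    intro a b
    have h3 := h1 a b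
    rw [hκ] at h3
    have h4 : M o o * (M a b) = M o o * (κ * w a * w b) := by linarith
    exact mul_left_cancel₀ (by omega) h4
  refine ⟨κ, w, hκ1, fun a h3 => ?_, h2⟩
  have h4 := hd a
  rw [h2, h3] at h4
  simp at h4

end Pool.Agent.KBQ
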