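import Pool.Agent.KBZ.Loc
import Pool.Agent.KBZ.Cdeg
import Pool.Agent.KBQ.Rig4R

/-! The matrix of contributions of a subsection with `l(b) ≤ 1` has rank one. -/

namespace Pool.Agent.KBQ

open Pool.Agent.KB Pool.Agent.KB.ContrAux Pool.Agent.KBL Pool.Agent.KBZ

theorem LocR_T {G : Type} [Group G] [Fintype G] (p : ℕ) (χ ψ : G → ℂ) :
    T p χ ψ = T p (preg p χ) (preg p ψ) := by
  classical
  unfold T preg
  refine Finset.sum_congr rfl fun g hg => ?_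
  have h1 := (Finset.mem_filter.1 hg).2
  rw [if_neg h1, if_neg (by rwa [orderOf_inv])]

theorem LocR_main {G : Type} [Group G] [Fintype G] {p : ℕ} {𝔪 : Ideal AInt} {u : G}
    {C : Subgroup G} [Fintype C] {ζ₀ : C → ℂ} (L : Loc p 𝔪 u C ζ₀)
    (hl : ell p (block 𝔪 ζ₀) ≤ 1) :
    ∃ (κ : ℤ) (c : Fin L.K → ℤ), 1 ≤ κ ∧ ¬ (p : ℤ) ∣ κ ∧ ∀ i j, L.M i j = κ * c i * c j := by
  classical
  have hsymm : ∀ i j, L.M i j = L.M j i := by
    intro i j
    have h1 := L.hM i j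
    rw [CDAux.T_symm, ← L.hM j i] at h1
    exact_mod_cast h1
  have hpos : ∀ i, 1 ≤ L.M i i := by
    intro i
    obtain ⟨m, hm1, -, -, hm4⟩ := Contr_main p L.hp 𝔪 L.hmax L.hpm ζ₀ L.hζ
    have h1 := hm1 (L.X i) (L.mem i) (L.X i) (L.mem i)
    have h2 := L.hM i i
    have h3 : (L.M i i : ℂ) = (m (L.X i) (L.X i) : ℂ) := by
      rw [h1, h2]
      rfl
    have h4 : L.M i i = m (L.X i) (L.X i) := by exact_mod_cast h3
    rw [h4]
    exact hm4 _ (L.mem i)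
  obtain ⟨f, hf⟩ : ∃ f : C → ℂ, ∀ i, ∃ c : ℂ, c • f = preg p (L.X i) := by
    have h1 : Module.finrank ℂ (Submodule.span ℂ (preg p '' block 𝔪 ζ₀)) ≤ 1 := hl
    rw [finrank_le_one_iff] at h1
    obtain ⟨v, hv⟩ := h1
    refine ⟨v.1, fun i => ?_⟩
    obtain ⟨c, hc⟩ := hv ⟨preg p (L.X i), Submodule.subset_span ⟨L.X i, L.mem i, rfl⟩⟩
    exact ⟨c, congrArg Subtype.val hc⟩
  choose lam hlam using hf
  have hT : ∀ i j, T p (L.X i) (L.X j) = lam i * lam j * T p f f := by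
    intro i j
    rw [LocR_T, ← hlam i, ← hlam j]
    unfold T
    rw [Finset.mul_sum]
    refine Finset.sum_congr rfl fun g _ => ?_
    simp only [Pi.smul_apply, smul_eq_mul]
    ring
  have hminor : ∀ a b c d, L.M a b * L.M c d = L.M a d * L.M c b := by
    intro a b c d
    have h : ((L.M a b * L.M c d : ℤ) : ℂ) = ((L.M a d * L.M c b : ℤ) : ℂ) := by
      push_cast
      rw [L.hM, L.hM, L.hM, L.hM, hT, hT, hT, hT]
      ring
    exact_mod_cast h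
  obtain ⟨κ, c, hκ, -, hc⟩ := Rig4R_main L.M hsymm hpos hminor
  refine ⟨κ, c, hκ, ?_, hc⟩
  intro hdvd
  obtain ⟨n', cc, c₀, -, hc₀, -, -, ⟨ψ, hψ, hcψ⟩, -, hmod⟩ :=
    Cdeg_main p L.hp 𝔪 L.hmax L.hpm ζ₀ L.hζ
  obtain ⟨i, rfl⟩ := L.surj ψ hψ
  have h1 := hmod _ hψ _ hψ (L.M i i) (L.hM i i)
  have h2 : (p : ℤ) ∣ L.M i i := by
    rw [hc i i, mul_assoc]
    exact Dvd.dvd.mul_right hdvd _
  have h3 : (p : ℤ) ∣ c₀ * cc (L.X i) * cc (L.X i) := by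
    have := dvd_sub h2 h1
    simpa using this
  have hpP : Prime (p : ℤ) := Nat.prime_iff_prime_int.mp L.hp
  rcases hpP.dvd_or_dvd h3 with h4 | h4
  · rcases hpP.dvd_or_dvd h4 with h5 | h5
    · exact hc₀ h5
    · exact hcψ (by exact_mod_cast h5)
  · exact hcψ (by exact_mod_cast h4)

end Pool.Agent.KBQ
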