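import Mathlib

/-! Representatives of the regular orbits. -/

namespace Pool.Agent.KBQ

/-- A subgroup of a `p`-group which is proper has index at least `p`. -/
theorem Reps4_idx {K : Type} [Group K] [Finite K] (p : ℕ) (hp : p.Prime) (D : Subgroup K)
    (hD : ∃ d, Nat.card D = p ^ d) (n x : K) (hx : x ∈ D) (hn : n * x ≠ x * n) :
    p * Nat.card (D ⊓ Subgroup.centralizer {n} : Subgroup K) ≤ Nat.card D := by
  obtain ⟨d, hd⟩ := hD
  obtain ⟨E, hE⟩ : ∃ E : Subgroup K, E = D ⊓ Subgroup.centralizer {n} := ⟨_, rfl⟩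
  rw [← hE]
  have hle : E ≤ D := hE ▸ inf_le_left
  have hdvd : Nat.card E ∣ p ^ d := hd ▸ Subgroup.card_dvd_of_le hle
  obtain ⟨k, hk, hk2⟩ := (Nat.dvd_prime_pow hp).1 hdvd
  have hlt : Nat.card E < Nat.card D := by
    refine lt_of_le_of_ne (Nat.card_le_card_of_injective (Subgroup.inclusion hle)
      (Subgroup.inclusion_injective hle)) fun h => ?_
    have h1 : E = D := Subgroup.eq_of_le_of_card_ge hle h.ge
    have h2 : x ∈ E := h1 ▸ hx
    rw [hE] at h2
    have h3 := Subgroup.mem_centralizer_singleton_iff.1 h2.2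
    exact hn h3.symm
  rw [hk2, hd] at hlt ⊢
  have h1 : k < d := (Nat.pow_lt_pow_iff_right hp.one_lt).1 hlt
  calc p * p ^ k = p ^ (k + 1) := by ring
    _ ≤ p ^ d := Nat.pow_le_pow_right hp.pos h1

/-- Proof. `e₀ = |N| / |C|` (so `1 ≤ e₀ ≤ e`). Let `G₀` be the set of the `w ∈ D` such that every
`n ∈ N` commuting with `w` is in `C`. (1) `N` acts on `G₀` by conjugation (`C` is normalized: `C` is the
set of the `n ∈ N` which commute with all elements of `D`, `hC`, `hcc`), and the orbit of `w ∈ G₀` has at most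
`e₀` elements (the map `n ↦ n * w * n⁻¹` is constant on the left cosets of `C`). `S` is a set of
representatives, so `|G₀| ≤ e₀ * |S|`. (2) If `w ∈ D` is not in `G₀`, there is `n ∈ N`, `n ∉ C`, with
`n * w = w * n`. The set `D_n` of the `w ∈ D` with `n * w = w * n` depends only on the coset `n C`, and for `n ∉ C` it is a
proper subgroup of `D` (`hcc`), of index at least `p` as `|D|` is a power of `p`. So
`|D| - |G₀| ≤ (e₀ - 1) * |D| / p`, i.e. `p * |D| ≤ p * |G₀| + (e₀ - 1) * |D|`. (3) So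
`|D| * (p + 1) ≤ e₀ * p * |S| + |D| * e₀`; as `|D| * (p + 1 - e₀) ≤ e₀ * p * |S|` the same holds with `e ≥ e₀`
in place of `e₀` (the left side decreases, the right side increases; if `p + 1 ≤ e` it is trivial). The
elements of `S` are different from `1` if `C ≠ N` (`1 ∈ G₀` would give `N ≤ C`). -/
theorem Reps4_main {K : Type} [Group K] [Finite K] (p : ℕ) (hp : p.Prime) (D N C : Subgroup K)
    (hD : ∃ d, Nat.card D = p ^ d)
    (hN : ∀ n ∈ N, ∀ x ∈ D, n * x * n⁻¹ ∈ D) (hCN : C ≤ N) (hC : ∀ c ∈ C, ∀ x ∈ D, c * x = x * c)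
    (hcc : ∀ n ∈ N, (∀ x ∈ D, n * x = x * n) → n ∈ C) (hne : C ≠ N)
    (e : ℕ) (he : Nat.card N ≤ e * Nat.card C) :
    ∃ S : Finset K, (∀ w ∈ S, w ∈ D ∧ w ≠ 1 ∧ ∀ n ∈ N, n * w = w * n → n ∈ C) ∧
      (∀ w ∈ S, ∀ w' ∈ S, ∀ n ∈ N, n * w * n⁻¹ = w' → w = w') ∧
      Nat.card D * (p + 1) ≤ e * p * S.card + Nat.card D * e := by
  classical
  have hfin : Fintype K := Fintype.ofFinite K
  let st : Setoid K :=
    { r := fun w w' => ∃ n ∈ N, n * w * n⁻¹ = w'
      iseqv :=
        { refl := fun w => ⟨1, N.one_mem, by simp⟩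
          symm := by
            rintro w _ ⟨n, hn, rfl⟩
            exact ⟨n⁻¹, N.inv_mem hn, by group⟩
          trans := by
            rintro w _ _ ⟨n, hn, rfl⟩ ⟨m, hm, rfl⟩
            exact ⟨m * n, N.mul_mem hm hn, by group⟩ } }
  let r : K → K := fun w => (Quotient.mk st w).out
  have hr : ∀ w, ∃ n ∈ N, n * r w * n⁻¹ = w := fun w => Quotient.mk_out (s := st) w
  have hrr : ∀ w w', (∃ n ∈ N, n * w * n⁻¹ = w') → r w = r w' := by
    intro w w' h
    have h1 : Quotient.mk st w = Quotient.mk st w' := Quotient.sound h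
    show (Quotient.mk st w).out = (Quotient.mk st w').out
    rw [h1]
  have hrid : ∀ w, r (r w) = r w := fun w => hrr _ _ (hr w)
  have hcard : ∀ (H : Subgroup K), Nat.card H = (Finset.univ.filter fun x => x ∈ H).card := by
    intro H
    rw [Nat.card_eq_fintype_card, Fintype.card_subtype]
  -- the regular points
  obtain ⟨G₀, hG₀⟩ : ∃ G₀ : Finset K, ∀ w, w ∈ G₀ ↔
      (w ∈ D ∧ ∀ n ∈ N, n * w = w * n → n ∈ C) :=
    ⟨Finset.univ.filter fun w => w ∈ D ∧ ∀ n ∈ N, n * w = w * n → n ∈ C, fun w => by simp⟩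
  obtain ⟨Df, hDf⟩ : ∃ Df : Finset K, Df = Finset.univ.filter fun w => w ∈ D := ⟨_, rfl⟩
  have hDf' : ∀ w, w ∈ Df ↔ w ∈ D := fun w => by rw [hDf]; simp
  have hDfc : Nat.card D = Df.card := by rw [hDf]; exact hcard D
  have hG₀D : G₀ ⊆ Df := fun w hw => (hDf' w).2 ((hG₀ w).1 hw).1
  have hG₀N : ∀ w ∈ G₀, ∀ m ∈ N, m * w * m⁻¹ ∈ G₀ := by
    intro w hw m hm
    rw [hG₀] at hw ⊢
    refine ⟨hN m hm w hw.1, fun n hn hcom => ?_⟩
    have h1 : m⁻¹ * n * m * w = w * (m⁻¹ * n * m) := by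
      calc m⁻¹ * n * m * w = m⁻¹ * (n * (m * w * m⁻¹)) * m := by group
        _ = m⁻¹ * ((m * w * m⁻¹) * n) * m := by rw [hcom]
        _ = w * (m⁻¹ * n * m) := by group
    have h2 : m⁻¹ * n * m ∈ C :=
      hw.2 _ (N.mul_mem (N.mul_mem (N.inv_mem hm) hn) hm) h1
    refine hcc n hn fun x hx => ?_
    have h3 : m⁻¹ * x * m⁻¹⁻¹ ∈ D := hN m⁻¹ (N.inv_mem hm) x hx
    have h4 := hC _ h2 _ h3
    calc n * x = m * ((m⁻¹ * n * m) * (m⁻¹ * x * m⁻¹⁻¹)) * m⁻¹ := by group
      _ = m * ((m⁻¹ * x * m⁻¹⁻¹) * (m⁻¹ * n * m)) * m⁻¹ := by rw [h4]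
      _ = x * n := by group
  have hrG : ∀ w ∈ G₀, r w ∈ G₀ := by
    intro w hw
    obtain ⟨n, hn, h1⟩ := hr w
    have h2 : r w = n⁻¹ * w * n⁻¹⁻¹ := by
      calc r w = n⁻¹ * (n * r w * n⁻¹) * n⁻¹⁻¹ := by group
        _ = n⁻¹ * w * n⁻¹⁻¹ := by rw [h1]
    rw [h2]
    exact hG₀N w hw n⁻¹ (N.inv_mem hn)
  have hCpos : 0 < Nat.card C := Nat.card_pos
  let Nf : Finset K := Finset.univ.filter fun x => x ∈ N
  have hNf : Nf.card = Nat.card N := (hcard N).symm
  -- (1)
  have hone : Nat.card C * G₀.card ≤ Nat.card N * (G₀.image r).card := by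
    have hfib : ∀ w ∈ G₀.image r, Nat.card C * (G₀.filter fun x => r x = w).card ≤ Nat.card N := by
      intro w hw
      obtain ⟨x, hx, rfl⟩ := Finset.mem_image.1 hw
      have hwD : r x ∈ D := ((hG₀ _).1 (hrG x hx)).1
      set w := r x with hwdef
      have hsub : (G₀.filter fun x => r x = w) ⊆ Nf.image fun n => n * w * n⁻¹ := by
        intro y hy
        rw [Finset.mem_filter] at hy
        obtain ⟨n, hn, h1⟩ := hr y
        rw [hy.2] at h1
        exact Finset.mem_image.2 ⟨n, by simp [Nf, hn], h1⟩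
      have h2 : Nat.card C * (Nf.image fun n => n * w * n⁻¹).card ≤ Nf.card := by
        refine Finset.mul_card_image_le_card Nf _ fun y hy => ?_
        obtain ⟨n, hn, rfl⟩ := Finset.mem_image.1 hy
        have hn' : n ∈ N := by simpa [Nf] using hn
        rw [hcard C]
        refine Finset.card_le_card_of_injOn (fun c => n * c) ?_ ?_
        · intro c hc
          have hc' : c ∈ C := by simpa using hc
          have h3 : c * w * c⁻¹ = w := by
            rw [hC c hc' w hwD]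
            group
          have h4 : n * c * w * (n * c)⁻¹ = n * w * n⁻¹ := by
            calc n * c * w * (n * c)⁻¹ = n * (c * w * c⁻¹) * n⁻¹ := by group
              _ = n * w * n⁻¹ := by rw [h3]
          simp only [Finset.coe_filter, Set.mem_ofPred_eq]
          exact ⟨by simpa [Nf] using N.mul_mem hn' (hCN hc'), h4⟩
        · intro c _ c' _ h3
          exact mul_left_cancel h3
      calc Nat.card C * (G₀.filter fun x => r x = w).card
          ≤ Nat.card C * (Nf.image fun n => n * w * n⁻¹).card :=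
            Nat.mul_le_mul_left _ (Finset.card_le_card hsub)
        _ ≤ Nat.card N := hNf ▸ h2
    rw [Finset.card_eq_sum_card_image r G₀, Finset.mul_sum]
    calc ∑ w ∈ G₀.image r, Nat.card C * (G₀.filter fun x => r x = w).card
        ≤ ∑ w ∈ G₀.image r, Nat.card N := Finset.sum_le_sum hfib
      _ = Nat.card N * (G₀.image r).card := by rw [Finset.sum_const, smul_eq_mul, mul_comm]
  -- (2)
  have htwo : p * (Nat.card C * (Df \ G₀).card) ≤ (Nat.card N - Nat.card C) * Nat.card D := by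
    obtain ⟨NC, hNC⟩ : ∃ NC : Finset K, ∀ n, n ∈ NC ↔ (n ∈ N ∧ n ∉ C) :=
      ⟨Finset.univ.filter fun n => n ∈ N ∧ n ∉ C, fun n => by simp⟩
    have hNCc : NC.card = Nat.card N - Nat.card C := by
      rw [hcard N, hcard C, ← Finset.card_sdiff_of_subset]
      · congr 1
        ext n
        rw [hNC]
        simp
      · intro n hn
        simp only [Finset.mem_filter, Finset.mem_univ, true_and] at hn ⊢
        exact hCN hn
    -- count the pairs
    have h1 : ∀ w ∈ Df \ G₀, Nat.card C ≤ (NC.filter fun n => n * w = w * n).card := by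
      intro w hw
      rw [Finset.mem_sdiff, hDf', hG₀] at hw
      obtain ⟨hwD, hw2⟩ := hw
      have hw3 : ∃ n ∈ N, n * w = w * n ∧ n ∉ C := by
        by_contra hcon
        push Not at hcon
        exact hw2 ⟨hwD, hcon⟩
      obtain ⟨n, hn, hnw, hnC⟩ := hw3
      rw [hcard C]
      refine Finset.card_le_card_of_injOn (fun c => n * c) ?_ ?_
      · intro c hc
        have hc' : c ∈ C := by simpa using hc
        have h3 := hC c hc' w hwD
        simp only [Finset.coe_filter, Set.mem_ofPred_eq, hNC]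
        refine ⟨⟨N.mul_mem hn (hCN hc'), fun h4 => hnC ?_⟩, ?_⟩
        · have := C.mul_mem h4 (C.inv_mem hc')
          rwa [mul_inv_cancel_right] at this
        · rw [mul_assoc, h3, ← mul_assoc, hnw, mul_assoc]
      · intro c _ c' _ h3
        exact mul_left_cancel h3
    have h2 : ∀ n ∈ NC, p * ((Df \ G₀).filter fun w => n * w = w * n).card ≤ Nat.card D := by
      intro n hn
      rw [hNC] at hn
      obtain ⟨x, hx, hx2⟩ : ∃ x ∈ D, n * x ≠ x * n := by
        by_contra hcon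
        push Not at hcon
        exact hn.2 (hcc n hn.1 hcon)
      refine le_trans (Nat.mul_le_mul_left _ ?_) (Reps4_idx p hp D hD n x hx hx2)
      rw [hcard]
      refine Finset.card_le_card fun w hw => ?_
      rw [Finset.mem_filter, Finset.mem_sdiff, hDf'] at hw
      rw [Finset.mem_filter]
      refine ⟨Finset.mem_univ _, Subgroup.mem_inf.2 ⟨hw.1.1, ?_⟩⟩
      rw [Subgroup.mem_centralizer_singleton_iff]
      exact hw.2.symm
    have h3 : Nat.card C * (Df \ G₀).card ≤
        ∑ n ∈ NC, ((Df \ G₀).filter fun w => n * w = w * n).card := by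
      calc Nat.card C * (Df \ G₀).card = ∑ w ∈ Df \ G₀, Nat.card C := by
            rw [Finset.sum_const, smul_eq_mul, mul_comm]
        _ ≤ ∑ w ∈ Df \ G₀, (NC.filter fun n => n * w = w * n).card := Finset.sum_le_sum h1
        _ = ∑ n ∈ NC, ((Df \ G₀).filter fun w => n * w = w * n).card :=
            Finset.sum_card_bipartiteAbove_eq_sum_card_bipartiteBelow (fun w n => n * w = w * n)
    calc p * (Nat.card C * (Df \ G₀).card)
        ≤ p * ∑ n ∈ NC, ((Df \ G₀).filter fun w => n * w = w * n).card :=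
          Nat.mul_le_mul_left _ h3
      _ = ∑ n ∈ NC, p * ((Df \ G₀).filter fun w => n * w = w * n).card := Finset.mul_sum _ _ _
      _ ≤ ∑ n ∈ NC, Nat.card D := Finset.sum_le_sum h2
      _ = _ := by rw [Finset.sum_const, smul_eq_mul, hNCc]
  have hsplit : (Df \ G₀).card + G₀.card = Nat.card D := by
    rw [hDfc]
    exact Finset.card_sdiff_add_card_eq_card hG₀D
  have hCNc : Nat.card C ≤ Nat.card N :=
    Nat.card_le_card_of_injective (Subgroup.inclusion hCN) (Subgroup.inclusion_injective hCN)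
  refine ⟨G₀.image r, ?_, ?_, ?_⟩
  · intro w hw
    obtain ⟨x, hx, rfl⟩ := Finset.mem_image.1 hw
    have h1 := (hG₀ _).1 (hrG x hx)
    refine ⟨h1.1, fun h2 => hne (le_antisymm hCN fun n hn => ?_), h1.2⟩
    refine h1.2 n hn ?_
    rw [h2]
    simp
  · intro w hw w' hw' n hn h
    obtain ⟨x, hx, rfl⟩ := Finset.mem_image.1 hw
    obtain ⟨x', hx', rfl⟩ := Finset.mem_image.1 hw'
    have h1 := hrr _ _ ⟨n, hn, h⟩
    rwa [hrid, hrid] at h1
  · obtain ⟨c, hc⟩ : ∃ c, c = Nat.card C := ⟨_, rfl⟩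
    obtain ⟨m, hm⟩ : ∃ m, Nat.card N = c + m := ⟨Nat.card N - c, by omega⟩
    obtain ⟨D₀, hD₀⟩ : ∃ D₀, D₀ = Nat.card D := ⟨_, rfl⟩
    obtain ⟨s, hs⟩ : ∃ s, s = (G₀.image r).card := ⟨_, rfl⟩
    rw [← hc, hm, ← hs] at hone
    rw [← hc, hm, ← hD₀, Nat.add_sub_cancel_left] at htwo
    rw [← hD₀] at hsplit
    rw [hm, ← hc] at he
    rw [← hc] at hCpos
    rw [← hD₀, ← hs]
    have h1 : c * (D₀ * (p + 1)) ≤ c * (e * p * s + D₀ * e) := by
      have h2 : c * (D₀ * (p + 1)) ≤ (c + m) * (p * s + D₀) := by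
        rw [← hsplit] at htwo ⊢
        nlinarith
      have h3 : (c + m) * (p * s + D₀) ≤ e * c * (p * s + D₀) := Nat.mul_le_mul_right _ he
      calc c * (D₀ * (p + 1)) ≤ e * c * (p * s + D₀) := h2.trans h3
        _ = c * (e * p * s + D₀ * e) := by ring
    exact Nat.le_of_mul_le_mul_left h1 hCpos

end Pool.Agent.KBQ
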