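import Pool.Agent.KBQ.Rig4G
import Pool.Agent.KBQ.Rig4R

/-! The number of parallel characters is less than `p`. -/

namespace Pool.Agent.KBQ

/-- Proof. `n = 0` is trivial. `t` from `Rig4T_main`; let `a₀` be an index with `|t a₀|` minimal and
replace `t` by `t a / |t a₀|` (the relations remain), so `|t a₀| = 1` and `|t a| ≥ 1` for all `a`. For
`k : ℕ` let `S k` be the set of the `a` with `2 ^ k ≤ |t a| < 2 ^ (k + 1)`; every `a` is in exactly one
`S k` (e.g. `k = Nat.log 2 ⌊|t a|⌋₊`). If `S k` is nonempty let `b` be an element with `|t b|` minimal: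
`Rig4G_main` gives `31 * |S k| * 4 ^ k ≤ 31 * |S k| * (t b) ^ 2 ≤ 22 * p`. So
`n = ∑ k < K, |S k| ≤ 22 * p / 31 * ∑ k < K, (1 / 4) ^ k ≤ 22 * p / 31 * (4 / 3) < p`. -/
theorem Rig4_vec {I : Type} [Fintype I] {n F p : ℕ} {κ : I → ℤ} {v : I → Fin n → ℤ}
    (h : RigHyp I n F p κ v) (hF0 : 0 < F) (hF : 11 * F ≤ p * Fintype.card I) : n < p := by
  classical
  have hp0 : 0 < p := h.hp.pos
  rcases Nat.eq_zero_or_pos n with hn | hn
  · omega
  obtain ⟨t, ht0, ht⟩ := Rig4T_main h hF0 (by omega)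
  obtain ⟨a₀, _, ha₀⟩ := Finset.exists_min_image (Finset.univ : Finset (Fin n)) (fun a => |t a|)
    ⟨⟨0, hn⟩, Finset.mem_univ _⟩
  have hs0 : 0 < |t a₀| := abs_pos.mpr (ht0 a₀)
  set t' : Fin n → ℚ := fun a => t a / |t a₀| with ht'
  have habs : ∀ a, |t' a| = |t a| / |t a₀| := by
    intro a
    rw [ht']
    simp only [abs_div, abs_abs]
  have ht0' : ∀ a, t' a ≠ 0 := fun a => div_ne_zero (ht0 a) hs0.ne'
  have hrel : ∀ a b, ∃ α β : ℤ, 1 ≤ α ∧ β ≠ 0 ∧ IsCoprime α β ∧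
      (α ^ 2 + β ^ 2) * Fintype.card I ≤ 2 * F ∧ (∀ i, (p : ℤ) ∣ α * v i b - β * v i a) ∧
      (α : ℚ) * t' b = β * t' a := by
    intro a b
    obtain ⟨α, β, h1, h2, h3, h4, h5, h6⟩ := ht a b
    refine ⟨α, β, h1, h2, h3, h4, h5, ?_⟩
    show (α : ℚ) * (t b / |t a₀|) = β * (t a / |t a₀|)
    rw [← mul_div_assoc, ← mul_div_assoc, h6]
  have h1 : |t' a₀| = 1 := by rw [habs, div_self hs0.ne']
  have h1' : ∀ a, 1 ≤ |t' a| := by
    intro a
    rw [habs, le_div_iff₀ hs0, one_mul]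
    exact ha₀ a (Finset.mem_univ _)
  set f : Fin n → ℕ := fun a => Nat.log 2 ⌊|t' a|⌋₊ with hf
  have hfl : ∀ a, (2 : ℚ) ^ f a ≤ |t' a| := by
    intro a
    have h2 : ⌊|t' a|⌋₊ ≠ 0 := by
      have := Nat.floor_pos.mpr (h1' a)
      omega
    have h3 : 2 ^ f a ≤ ⌊|t' a|⌋₊ := Nat.pow_log_le_self 2 h2
    have h4 : ((2 ^ f a : ℕ) : ℚ) ≤ (⌊|t' a|⌋₊ : ℚ) := by exact_mod_cast h3
    push_cast at h4
    exact h4.trans (Nat.floor_le (abs_nonneg _))
  have hfu : ∀ a, |t' a| ≤ 2 * 2 ^ f a := by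
    intro a
    have h3 : ⌊|t' a|⌋₊ < 2 ^ (f a + 1) := Nat.lt_pow_succ_log_self (by norm_num) _
    have h4 : ((⌊|t' a|⌋₊ + 1 : ℕ) : ℚ) ≤ ((2 ^ (f a + 1) : ℕ) : ℚ) := by exact_mod_cast h3
    push_cast at h4
    have h5 := Nat.lt_floor_add_one |t' a|
    calc |t' a| ≤ (⌊|t' a|⌋₊ : ℚ) + 1 := h5.le
      _ ≤ 2 ^ (f a + 1) := h4
      _ = 2 * 2 ^ f a := by rw [pow_succ, mul_comm]
  have hS : ∀ k, ((Finset.univ.filter fun a => f a = k).card : ℚ) ≤ 22 * p / 31 * (1 / 4) ^ k := by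
    intro k
    rcases (Finset.univ.filter fun a => f a = k).eq_empty_or_nonempty with he | hne
    · rw [he]
      simp only [Finset.card_empty, Nat.cast_zero]
      positivity
    · obtain ⟨b, hb, hmin⟩ := Finset.exists_min_image _ (fun a => |t' a|) hne
      have hbk : f b = k := (Finset.mem_filter.mp hb).2
      have h2 : ∀ a ∈ Finset.univ.filter (fun a => f a = k), |t' a| ≤ 2 * |t' b| := by
        intro a ha
        have hak : f a = k := (Finset.mem_filter.mp ha).2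
        have h3 := hfu a
        have h4 := hfl b
        rw [hak] at h3
        rw [hbk] at h4
        linarith
      have h3 := Rig4G_main h hF0 hF t' ht0' hrel a₀ b h1 _ hb hmin h2
      have h4 : (4 : ℚ) ^ k ≤ (t' b) ^ 2 := by
        have h5 := hfl b
        rw [hbk] at h5
        have h6 : (4 : ℚ) ^ k = (2 ^ k) ^ 2 := by
          rw [← pow_mul, mul_comm, pow_mul]
          norm_num
        rw [h6, ← sq_abs (t' b)]
        exact pow_le_pow_left₀ (by positivity) h5 2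
      have h5 : 31 * ((Finset.univ.filter fun a => f a = k).card : ℚ) * 4 ^ k ≤ 22 * p :=
        (mul_le_mul_of_nonneg_left h4 (by positivity)).trans h3
      have h6 : (1 / 4 : ℚ) ^ k = 1 / 4 ^ k := by rw [div_pow, one_pow]
      rw [h6, ← mul_div_assoc, mul_one, le_div_iff₀ (by positivity), le_div_iff₀ (by norm_num)]
      linarith
  have hcard : (n : ℚ) = ∑ k ∈ Finset.range (Finset.univ.sup f + 1),
      ((Finset.univ.filter fun a => f a = k).card : ℚ) := by
    have h2 := Finset.card_eq_sum_card_fiberwise (s := (Finset.univ : Finset (Fin n))) (f := f)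
      (t := Finset.range (Finset.univ.sup f + 1)) (fun a _ => by
        simp only [Finset.coe_range, Set.mem_Iio]
        exact Nat.lt_succ_of_le (Finset.le_sup (Finset.mem_univ a)))
    rw [Finset.card_univ, Fintype.card_fin] at h2
    exact_mod_cast h2
  have hgeo : ∀ K : ℕ, ∑ k ∈ Finset.range K, (1 / 4 : ℚ) ^ k = 4 / 3 - 4 / 3 * (1 / 4) ^ K := by
    intro K
    induction K with
    | zero => simp
    | succ K ih =>
      rw [Finset.sum_range_succ, ih, pow_succ]
      ring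
  have hp0' : (0 : ℚ) < p := by exact_mod_cast hp0
  have h2 : (n : ℚ) ≤ 22 * p / 31 * (4 / 3) := by
    rw [hcard]
    refine (Finset.sum_le_sum fun k _ => hS k).trans ?_
    rw [← Finset.mul_sum, hgeo]
    refine mul_le_mul_of_nonneg_left ?_ (by positivity)
    have : (0 : ℚ) ≤ 4 / 3 * (1 / 4) ^ (Finset.univ.sup f + 1) := by positivity
    linarith
  have h3 : (n : ℚ) < p := by
    refine h2.trans_lt ?_
    linarith
  exact_mod_cast h3

end Pool.Agent.KBQ
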