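import Pool.Agent.KBQ.Rig4T

/-! The number of parallel characters is at most `e`. -/

namespace Pool.Agent.KBQ

/-- Proof. Let `N = |I|`, `X = p * N / F` (a rational number), so `e * X ≥ p - e + 1 =: q` and
`e * X ≥ q ≥ 2 * e ^ 2 + 1 ≥ 3 * e`, i.e. `3 * F ≤ p * N`. `t` from `Rig4T_main`; `b` an index with
`|t b|` minimal, `r_a = t a / t b`, `|r_a| ≥ 1`, `ρ = ∑ a, r_a ^ 2 ≥ e + 1`. Call `i` good if
`v i a = r_a * v i b` for all `a`. For `a ≠ b`, with `α`, `β` for the pair `(b, a)` (`r_a = β / α`), the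
number of the `i` with `α * v i a ≠ β * v i b` times `p ^ 2 * N` is at most `2 * F ^ 2` (`Rig4T_bad` and
`(α ^ 2 + β ^ 2) * N ≤ 2 * F`), so the number of the bad `i` times `p ^ 2 * N` is at most `2 * e * F ^ 2`. For good `i`
`∑ a, r_a * v i a = ρ * v i b` has square at least `ρ ^ 2`; `Rig4T_bes` with `c = r`:
`#good * ρ ^ 2 ≤ F * ρ`, so `#good * (e + 1) ≤ F`. Hence `(e + 1) * (p ^ 2 * N ^ 2 - 2 * e * F ^ 2) ≤ F * N * p ^ 2`,
i.e. `(e + 1) * (X ^ 2 - 2 * e) ≤ X * p`. But `X ≥ q / e`, and `X * ((e + 1) * X - p)` is increasing for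
`X ≥ q / e` (as `(e + 1) * q / e ≥ p`); multiplying by `e ^ 2`: `e ^ 2 * X * ((e + 1) * X - p) ≥
q * ((e + 1) * q - e * p) = q * (p - e ^ 2 + 1)`, and `q * (p - e ^ 2 + 1) > 2 * e ^ 3 * (e + 1)` since
`q ≥ 2 * e ^ 2 + 1` and `p - e ^ 2 + 1 ≥ e ^ 2 + e + 1`. -/
theorem Rig5_main {I : Type} [Fintype I] {e F p : ℕ} {κ : I → ℤ} {v : I → Fin (e + 1) → ℤ}
    (h : RigHyp I (e + 1) F p κ v) (he : 1 ≤ e) (hF0 : 0 < F) (hp2 : 2 * e ^ 2 + e ≤ p)
    (hN : F * (p + 1) ≤ e * p * Fintype.card I + F * e) : False := by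
  classical
  set N := Fintype.card I with hNdef
  have heQ : (1 : ℚ) ≤ e := by exact_mod_cast he
  have hFQ : (0 : ℚ) < F := by exact_mod_cast hF0
  have hpQ : 2 * (e : ℚ) ^ 2 + e ≤ p := by exact_mod_cast hp2
  have hNQ : (F : ℚ) * (p + 1) ≤ e * p * N + F * e := by exact_mod_cast hN
  have hp0 : (0 : ℚ) < p := by linarith [sq_nonneg (e : ℚ)]
  have hNnn : (0 : ℚ) ≤ N := Nat.cast_nonneg _
  -- `3 F ≤ p N`
  have h3 : (3 : ℚ) * F ≤ p * N := by
    have h1 : (3 : ℚ) * e ≤ p + 1 - e := by nlinarith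
    have h2 : (3 * (F : ℚ)) * e ≤ (p * N) * e := by
      calc (3 * (F : ℚ)) * e = F * (3 * e) := by ring
        _ ≤ F * (p + 1 - e) := mul_le_mul_of_nonneg_left h1 hFQ.le
        _ ≤ (p * N) * e := by linarith
    exact le_of_mul_le_mul_right h2 (by linarith)
  have h3N : 3 * F ≤ p * Fintype.card I := by exact_mod_cast h3
  obtain ⟨t, ht0, ht⟩ := Rig4T_main h hF0 h3N
  obtain ⟨b, hb⟩ := Finite.exists_min fun a => |t a|
  set r : Fin (e + 1) → ℚ := fun a => t a / t b with hr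
  have hr1 : ∀ a, 1 ≤ r a ^ 2 := by
    intro a
    have h1 : 1 ≤ |r a| := by
      rw [hr]
      simp only [abs_div]
      rw [one_le_div (abs_pos.2 (ht0 b))]
      exact hb a
    rw [← sq_abs]
    exact one_le_pow₀ h1
  set ρ : ℚ := ∑ a, r a ^ 2 with hρ
  have hρ1 : (e : ℚ) + 1 ≤ ρ := by
    have h1 := Finset.card_nsmul_le_sum Finset.univ (fun a => r a ^ 2) 1 (fun a _ => hr1 a)
    rw [Finset.card_univ, Fintype.card_fin, nsmul_eq_mul, mul_one] at h1
    push_cast at h1
    exact h1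
  -- the bad indices for `a`
  have hbad : ∀ a, ((Finset.univ.filter fun i => (v i a : ℚ) ≠ r a * v i b).card : ℚ) *
      p ^ 2 * N ≤ if a = b then (0 : ℚ) else 2 * (F : ℚ) ^ 2 := by
    intro a
    by_cases hab : a = b
    · subst hab
      rw [if_pos rfl]
      have h1 : (Finset.univ.filter fun i => (v i a : ℚ) ≠ r a * v i a) = ∅ := by
        rw [Finset.filter_eq_empty_iff]
        intro i _
        rw [not_not, hr]
        simp only [div_self (ht0 a), one_mul]
      rw [h1]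
      simp
    · rw [if_neg hab]
      obtain ⟨α, β, hα, -, -, hαβ, hdiv, hrat⟩ := ht b a
      have h1 := Rig4T_bad h b a (Ne.symm hab) α β hdiv
      have hα0 : (α : ℚ) ≠ 0 := by
        have : (0 : ℚ) < α := by exact_mod_cast (by omega : (0 : ℤ) < α)
        exact this.ne'
      have h2 : (Finset.univ.filter fun i => (v i a : ℚ) ≠ r a * v i b) =
          Finset.univ.filter fun i => α * v i a ≠ β * v i b := by
        refine Finset.filter_congr fun i _ => ?_
        rw [not_iff_not]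
        have h3 : r a = β / α := by
          rw [hr]
          simp only
          rw [div_eq_div_iff (ht0 b) hα0]
          linarith
        rw [h3]
        constructor
        · intro h4
          have h5 : (α : ℚ) * v i a = β * v i b := by
            rw [h4]
            field_simp
          exact_mod_cast h5
        · intro h4
          have h5 : (α : ℚ) * v i a = β * v i b := by exact_mod_cast h4
          field_simp
          linarith
      rw [h2]
      have h3 : (((Finset.univ.filter fun i => α * v i a ≠ β * v i b).card : ℤ) : ℚ) * p ^ 2 ≤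
          F * (α ^ 2 + β ^ 2) := by exact_mod_cast h1
      have h4 : ((α : ℚ) ^ 2 + β ^ 2) * N ≤ 2 * F := by exact_mod_cast hαβ
      rw [Int.cast_natCast] at h3
      calc ((Finset.univ.filter fun i => α * v i a ≠ β * v i b).card : ℚ) * p ^ 2 * N
          ≤ F * (α ^ 2 + β ^ 2) * N := mul_le_mul_of_nonneg_right h3 hNnn
        _ = F * ((α ^ 2 + β ^ 2) * N) := by ring
        _ ≤ F * (2 * F) := mul_le_mul_of_nonneg_left h4 hFQ.le
        _ = 2 * F ^ 2 := by ring
  set G : Finset I := Finset.univ.filter fun i => ∀ a, (v i a : ℚ) = r a * v i b with hG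
  set Bd : Finset I := Finset.univ.filter fun i => ¬ ∀ a, (v i a : ℚ) = r a * v i b with hBd
  have hGB : (G.card : ℚ) + Bd.card = N := by
    have h1 : G.card + Bd.card = N := by
      rw [hG, hBd, Finset.card_filter_add_card_filter_not, hNdef, Finset.card_univ]
    exact_mod_cast h1
  have hBdc : (Bd.card : ℚ) * p ^ 2 * N ≤ 2 * e * F ^ 2 := by
    have h1 : Bd.card ≤ ∑ a, (Finset.univ.filter fun i => (v i a : ℚ) ≠ r a * v i b).card := by
      refine le_trans (Finset.card_le_card ?_) Finset.card_biUnion_le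
      intro i hi
      rw [hBd, Finset.mem_filter] at hi
      have h2 := hi.2
      push Not at h2
      obtain ⟨a, ha⟩ := h2
      rw [Finset.mem_biUnion]
      exact ⟨a, Finset.mem_univ _, by rw [Finset.mem_filter]; exact ⟨Finset.mem_univ _, ha⟩⟩
    have h2 : (Bd.card : ℚ) ≤
        ∑ a, ((Finset.univ.filter fun i => (v i a : ℚ) ≠ r a * v i b).card : ℚ) := by
      exact_mod_cast h1
    calc (Bd.card : ℚ) * p ^ 2 * N ≤
        (∑ a, ((Finset.univ.filter fun i => (v i a : ℚ) ≠ r a * v i b).card : ℚ)) * p ^ 2 * N := by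
          refine mul_le_mul_of_nonneg_right (mul_le_mul_of_nonneg_right h2 (by positivity)) hNnn
      _ = ∑ a, ((Finset.univ.filter fun i => (v i a : ℚ) ≠ r a * v i b).card : ℚ) * p ^ 2 * N := by
          rw [Finset.sum_mul, Finset.sum_mul]
      _ ≤ ∑ a, if a = b then 0 else 2 * (F : ℚ) ^ 2 := Finset.sum_le_sum fun a _ => hbad a
      _ = 2 * e * F ^ 2 := by
          have h3 : (∑ a : Fin (e + 1), if a = b then (0 : ℚ) else 2 * (F : ℚ) ^ 2) =
              ∑ a : Fin (e + 1), (2 * (F : ℚ) ^ 2 - if a = b then 2 * (F : ℚ) ^ 2 else 0) := by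
            refine Finset.sum_congr rfl fun a _ => ?_
            split_ifs <;> ring
          rw [h3, Finset.sum_sub_distrib, Finset.sum_const, Finset.sum_ite_eq', Finset.card_univ,
            Fintype.card_fin, nsmul_eq_mul, if_pos (Finset.mem_univ _)]
          push_cast
          ring
  have hGc : (G.card : ℚ) * (e + 1) ≤ F := by
    have hbes := Rig4T_bes h r
    have h1 : (G.card : ℚ) * ρ ^ 2 ≤ F * ρ := by
      refine le_trans ?_ hbes
      calc (G.card : ℚ) * ρ ^ 2 = ∑ _i ∈ G, ρ ^ 2 := by rw [Finset.sum_const, nsmul_eq_mul]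
        _ ≤ ∑ i ∈ G, (∑ a, r a * (v i a : ℚ)) ^ 2 := by
            refine Finset.sum_le_sum fun i hi => ?_
            rw [hG, Finset.mem_filter] at hi
            have h2 : (∑ a, r a * (v i a : ℚ)) = ρ * v i b := by
              rw [hρ, Finset.sum_mul]
              refine Finset.sum_congr rfl fun a _ => ?_
              rw [hi.2 a]
              ring
            rw [h2, mul_pow]
            have h4 : (1 : ℚ) ≤ (v i b : ℚ) ^ 2 := by
              have h5 : 1 ≤ (v i b) ^ 2 := by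
                have := h.hv i b
                have h6 : 0 < (v i b) ^ 2 := by positivity
                omega
              exact_mod_cast h5
            exact le_mul_of_one_le_right (sq_nonneg ρ) h4
        _ ≤ ∑ i, (∑ a, r a * (v i a : ℚ)) ^ 2 :=
            Finset.sum_le_sum_of_subset_of_nonneg (Finset.subset_univ _)
              fun i _ _ => sq_nonneg _
    have hρ0 : 0 < ρ := by linarith
    have h2 : (G.card : ℚ) * ρ ≤ F := by
      have h5 : ((G.card : ℚ) * ρ) * ρ ≤ F * ρ := by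
        rw [mul_assoc, ← pow_two]
        exact h1
      exact le_of_mul_le_mul_right h5 hρ0
    refine le_trans (mul_le_mul_of_nonneg_left hρ1 (Nat.cast_nonneg _)) h2
  -- final computation
  have hE : ((e : ℚ) + 1) * (p ^ 2 * N ^ 2 - 2 * e * F ^ 2) ≤ F * N * p ^ 2 := by
    have h1 : (N : ℚ) - Bd.card = G.card := by linarith
    have h2 : (G.card : ℚ) * (e + 1) * (p ^ 2 * N) ≤ F * (p ^ 2 * N) :=
      mul_le_mul_of_nonneg_right hGc (by positivity)
    have h3 : ((e : ℚ) + 1) * (p ^ 2 * N ^ 2 - Bd.card * p ^ 2 * N) ≤ F * N * p ^ 2 := by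
      calc ((e : ℚ) + 1) * (p ^ 2 * N ^ 2 - Bd.card * p ^ 2 * N) =
          (N - Bd.card) * (e + 1) * (p ^ 2 * N) := by ring
        _ = (G.card : ℚ) * (e + 1) * (p ^ 2 * N) := by rw [h1]
        _ ≤ F * (p ^ 2 * N) := h2
        _ = F * N * p ^ 2 := by ring
    have h4 : (0 : ℚ) ≤ (e : ℚ) + 1 := by linarith
    have h5 := mul_le_mul_of_nonneg_left hBdc h4
    have h6 : ((e : ℚ) + 1) * (p ^ 2 * N ^ 2 - 2 * e * F ^ 2) =
        (e + 1) * (p ^ 2 * N ^ 2 - Bd.card * p ^ 2 * N) + (e + 1) * (Bd.card * p ^ 2 * N) -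
          (e + 1) * (2 * e * F ^ 2) := by ring
    rw [h6]
    linarith
  set q : ℚ := p + 1 - e with hq
  set Z : ℚ := e * p * N with hZ
  have hZq : q * F ≤ Z := by rw [hq, hZ]; linarith
  have hq1 : 2 * (e : ℚ) ^ 2 + 1 ≤ q := by rw [hq]; linarith
  have hq0 : 0 < q := by linarith [sq_nonneg (e : ℚ)]
  have hw : ((e : ℚ) ^ 2 + e + 1) ≤ p + 1 - e ^ 2 := by linarith
  have hE2 : Z * ((e + 1) * Z - e * p * F) ≤ 2 * e ^ 3 * (e + 1) * F ^ 2 := by
    have h1 := mul_le_mul_of_nonneg_left hE (by positivity : (0 : ℚ) ≤ (e : ℚ) ^ 2)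
    have h2 : (e : ℚ) ^ 2 * (((e : ℚ) + 1) * (p ^ 2 * N ^ 2 - 2 * e * F ^ 2)) =
        (e + 1) * Z ^ 2 - 2 * e ^ 3 * (e + 1) * F ^ 2 := by rw [hZ]; ring
    have h3 : (e : ℚ) ^ 2 * (F * N * p ^ 2) = e * p * F * Z := by rw [hZ]; ring
    rw [h2, h3] at h1
    have h4 : Z * ((e + 1) * Z - e * p * F) = (e + 1) * Z ^ 2 - e * p * F * Z := by ring
    rw [h4]
    linarith
  have hL : q * (p + 1 - e ^ 2) * F ^ 2 ≤ Z * ((e + 1) * Z - e * p * F) := by
    have h1 : (p + 1 - (e : ℚ) ^ 2) * F ≤ (e + 1) * Z - e * p * F := by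
      have h2 : ((e : ℚ) + 1) * (q * F) ≤ (e + 1) * Z :=
        mul_le_mul_of_nonneg_left hZq (by linarith)
      have h3 : ((e : ℚ) + 1) * (q * F) - e * p * F = (p + 1 - (e : ℚ) ^ 2) * F := by
        rw [hq]; ring
      linarith
    have h4 : 0 ≤ (p + 1 - (e : ℚ) ^ 2) * F :=
      mul_nonneg (by linarith [sq_nonneg (e : ℚ)]) hFQ.le
    calc q * (p + 1 - e ^ 2) * F ^ 2 = (q * F) * ((p + 1 - (e : ℚ) ^ 2) * F) := by ring
      _ ≤ Z * ((p + 1 - (e : ℚ) ^ 2) * F) := mul_le_mul_of_nonneg_right hZq h4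
      _ ≤ Z * ((e + 1) * Z - e * p * F) :=
          mul_le_mul_of_nonneg_left h1 (le_trans (by positivity) hZq)
  have hM : 2 * (e : ℚ) ^ 3 * (e + 1) < q * (p + 1 - e ^ 2) := by
    calc 2 * (e : ℚ) ^ 3 * (e + 1) < 2 * (e : ℚ) ^ 3 * (e + 1) + (3 * (e : ℚ) ^ 2 + e + 1) := by
          linarith [sq_nonneg (e : ℚ)]
      _ = (2 * (e : ℚ) ^ 2 + 1) * ((e : ℚ) ^ 2 + e + 1) := by ring
      _ ≤ q * (p + 1 - e ^ 2) := mul_le_mul hq1 hw (by positivity) hq0.le
  have hF2 : (0 : ℚ) < (F : ℚ) ^ 2 := by positivity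
  have := mul_lt_mul_of_pos_right hM hF2
  linarith

end Pool.Agent.KBQ
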