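import Pool.Agent.KBQ.LX
import Pool.Agent.KBQ.LocR
import Pool.Agent.KBQ.Rig4
import Pool.Agent.KBQ.Rig5
import Pool.Agent.KBQ.Reps4

/-! Sharper bounds for `l(B)` from the sections with `l(b) = 1`. -/

namespace Pool.Agent.KBQ

open Pool.Agent.KB Pool.Agent.KB.ContrAux Pool.Agent.KBL Pool.Agent.KBZ Pool.Agent.KBU

private theorem LY_left {k m : ℕ} (M : Fin k → Fin k → ℤ) (Y : Fin m → Fin k → ℤ)
    (c : Fin m → ℤ) (x : Fin k → ℤ) :
    bil M (∑ a, c a • Y a) x = ∑ a, c a * bil M (Y a) x := by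
  classical
  have key : ∀ s : Finset (Fin m), bil M (∑ a ∈ s, c a • Y a) x = ∑ a ∈ s, c a * bil M (Y a) x := by
    intro s
    induction s using Finset.induction_on with
    | empty => simp [bil]
    | insert a s ha ih =>
      rw [Finset.sum_insert ha, Finset.sum_insert ha, TopA_bil_add_left, TopA_bil_smul_left, ih]
  exact key _

private theorem LY_right {k m : ℕ} (M : Fin k → Fin k → ℤ) (Y : Fin m → Fin k → ℤ)
    (c : Fin m → ℤ) (x : Fin k → ℤ) :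
    bil M x (∑ a, c a • Y a) = ∑ a, c a * bil M x (Y a) := by
  classical
  have key : ∀ s : Finset (Fin m), bil M x (∑ a ∈ s, c a • Y a) = ∑ a ∈ s, c a * bil M x (Y a) := by
    intro s
    induction s using Finset.induction_on with
    | empty => simp [bil]
    | insert a s ha ih =>
      rw [Finset.sum_insert ha, Finset.sum_insert ha, TopA_bil_add_right, TopA_bil_smul_right, ih]
  exact key _

private theorem LY_both {k m : ℕ} (M : Fin k → Fin k → ℤ) (Y : Fin m → Fin k → ℤ)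
    (c : Fin m → ℤ) :
    bil M (∑ a, c a • Y a) (∑ b, c b • Y b) = ∑ a, ∑ b, c a * c b * bil M (Y a) (Y b) := by
  rw [LY_left]
  refine Finset.sum_congr rfl fun a _ => ?_
  rw [LY_right, Finset.mul_sum]
  exact Finset.sum_congr rfl fun b _ => by ring

private theorem LY_nonneg {G : Type} [Group G] [Fintype G] {p : ℕ} {𝔪 : Ideal AInt} {u : G}
    {C : Subgroup G} [Fintype C] {ζ₀ : C → ℂ} (L : Loc p 𝔪 u C ζ₀) (x : Fin L.K → ℤ) :
    0 ≤ bil L.M x x := by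
  classical
  have h1 := CovZ_norm L x
  have h2 : (0 : ℝ) ≤ ((bil L.M x x : ℤ) : ℝ) := by
    rw [← h1]
    positivity
  exact_mod_cast h2

/-- The stabilizer in the centralizer of `u`. -/
theorem LY_stb {G H : Type} [Group G] [Fintype G] [Group H] [Fintype H] {p : ℕ} {𝔪 : Ideal AInt}
    {χ : G → ℂ} {D : Subgroup G} {ι : H →* G} {ζ : H → ℂ} (hA : AbD p 𝔪 χ D ι ζ) (u : G)
    (hu : u ∈ D) {κ : H →* (Subgroup.centralizer {u} : Subgroup G)}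
    (hκ : ∀ x, (Subgroup.centralizer {u} : Subgroup G).subtype (κ x) = ι x)
    (hc : CenOf κ (D.comap (Subgroup.centralizer {u} : Subgroup G).subtype))
    (s : (Subgroup.centralizer {u} : Subgroup G)) (hs : s ∈ Stb 𝔪 hc ζ) :
    (s : G) ∈ Stb 𝔪 hA.cen ζ ∧ (s : G) * u = u * (s : G) := by
  obtain ⟨s, hsC⟩ := s
  have hsu : s * u = u * s := Subgroup.mem_centralizer_singleton_iff.1 hsC
  refine ⟨?_, hsu⟩
  obtain ⟨hs1, hs2⟩ := (Stb_mem 𝔪 hc ζ _).1 hs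
  have hC : ∀ x ∈ D, x ∈ (Subgroup.centralizer {u} : Subgroup G) := fun x hx =>
    Subgroup.mem_centralizer_singleton_iff.2 (hA.com x hx u hu)
  rw [Stb_mem]
  constructor
  · intro x
    constructor
    · intro hx
      exact (hs1 ⟨x, hC x hx⟩).1 hx
    · intro hx
      have h1 : x ∈ (Subgroup.centralizer {u} : Subgroup G) := by
        have h2 := hC _ hx
        have h3 := mul_mem (mul_mem (inv_mem hsC) h2) hsC
        have e1 : s⁻¹ * (s * x * s⁻¹) * s = x := by group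
        have h4 : s⁻¹ * (s * x * s⁻¹) * s ∈ (Subgroup.centralizer {u} : Subgroup G) := h3
        rwa [e1] at h4
      exact (hs1 ⟨x, h1⟩).2 hx
  · intro x₁ x₂ hx
    apply hs2 x₁ x₂
    apply (Subgroup.centralizer {u} : Subgroup G).subtype_injective
    rw [map_mul, map_mul, map_inv, hκ, hκ]
    exact hx

theorem LY_core {K H : Type} [Group K] [Fintype K] [Group H] [Fintype H] (p : ℕ)
    (hp : p.Prime) (hp2 : p ≠ 2) (𝔪 : Ideal AInt) (h𝔪 : 𝔪.IsMaximal) (hp𝔪 : (p : AInt) ∈ 𝔪)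
    (χ : K → ℂ) (hχ : χ ∈ Irr K) (D : Subgroup K) (ι : H →* K) (ζ : H → ℂ)
    (hA : AbD p 𝔪 χ D ι ζ) (e : ℕ) (he : Nat.card (Stb 𝔪 hA.cen ζ) ≤ e * Nat.card H)
    (hne : ι.range ≠ Stb 𝔪 hA.cen ζ)
    (hep : e < p - 1) (hp4 : 4 < p) (m : ℕ) (hm : m ≤ ell p (block 𝔪 χ)) :
    ∃ (I : Type) (_ : Fintype I) (κ : I → ℤ) (v : I → Fin m → ℤ),
      RigHyp I m (p ^ defect p (block 𝔪 χ)) p κ v ∧
      p ^ defect p (block 𝔪 χ) * (p + 1) ≤
        e * p * Fintype.card I + p ^ defect p (block 𝔪 χ) * e := by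
  classical
  obtain ⟨d, hd⟩ : ∃ d, d = defect p (block 𝔪 χ) := ⟨_, rfl⟩
  have hcardD : Nat.card D = p ^ d := by rw [hd]; exact hA.card
  obtain ⟨J, hJc, hJ1, hJp, hJ2, hJo⟩ := J_ex p hp hp2 (Nat.card K) Nat.card_pos
  obtain ⟨R, hR, hRc⟩ := FixT_main p hp 𝔪 h𝔪 hp𝔪 χ hχ J hJc hJp hJ1
    (fun w n hw hw1 C _ _ κ hκ hr ψ hψ hind h hh =>
      NoJ_main p hp 𝔪 h𝔪 hp𝔪 χ hχ D ι ζ hA e he hep J hJp hJo w n hw hw1 κ hκ hr ψ hψ hind h hh)
  have hle : m ≤ R.card := by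
    rw [hRc]
    exact hm
  obtain ⟨R', hR'1, hR'2⟩ := Finset.exists_subset_card_eq hle
  obtain ⟨χs, hχi, hχR⟩ : ∃ χs : Fin m → K → ℂ, Function.Injective χs ∧
      ∀ a, χs a ∈ R := by
    refine ⟨fun a => ((R'.equivFinOfCardEq hR'2).symm a).1, ?_, ?_⟩
    · intro a b hab
      exact (R'.equivFinOfCardEq hR'2).symm.injective (Subtype.ext hab)
    · intro a
      exact hR'1 ((R'.equivFinOfCardEq hR'2).symm a).2
  have hχb : ∀ a, χs a ∈ block 𝔪 χ := fun a => (hR _ (hχR a)).1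
  have hχI : ∀ a, χs a ∈ Irr K := fun a => (hχb a).1
  -- representatives
  have hcardR : Nat.card ι.range = Nat.card H :=
    (Nat.card_congr (Equiv.ofInjective ι hA.cen.inj)).symm
  obtain ⟨S, hS1', hS2, hS3⟩ := Reps4_main p hp D (Stb 𝔪 hA.cen ζ) ι.range ⟨d, hcardD⟩
    (fun n hn x hx => (hn.1 x).1 hx) (Abl_range 𝔪 D ι hA.cen ζ hA.irr)
    (fun c hc x hx => by
      obtain ⟨y, rfl⟩ := hc
      exact (hA.cen.com y hx).symm)
    (fun n _ h => by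
      obtain ⟨y, hy⟩ := (hA.cen.ran n).2 fun g hg => (h g hg).symm
      exact ⟨y, hy⟩) hne e (by rw [hcardR]; exact he)
  have hS1 : ∀ w ∈ S, w ∈ D ∧ w ≠ 1 := fun w hw => ⟨(hS1' w hw).1, (hS1' w hw).2.1⟩
  -- the local data
  let C : S → Subgroup K := fun w => Subgroup.centralizer {w.1}
  haveI : ∀ w : S, Fintype (C w) := fun w => Fintype.ofFinite _
  have hmemC : ∀ (w : S) (x : K), x ∈ C w ↔ x * w.1 = w.1 * x := by
    intro w x
    rw [Subgroup.mem_centralizer_singleton_iff]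
  have hr : ∀ (w : S) (x : K), (∃ y, (C w).subtype y = x) ↔ w.1 * x = x * w.1 := by
    intro w x
    rw [eq_comm (a := w.1 * x), ← hmemC]
    exact ⟨fun ⟨y, hy⟩ => hy ▸ y.2, fun hx => ⟨⟨x, hx⟩, rfl⟩⟩
  have hex : ∀ w : S, ∃ (κ : H →* C w) (ψ : C w → ℂ),
      (∀ x, (C w).subtype (κ x) = ι x) ∧ ψ ∈ Irr (C w) ∧ Ind 𝔪 κ ζ ψ := fun w =>
    Bw_ex p hp 𝔪 h𝔪 hp𝔪 χ D ι ζ hA w.1 (hS1 _ w.2).1 (C w).subtype (C w).subtype_injective (hr w)
  choose κ ψ hκ hψ hindκ using hex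
  have hBw : ∀ w : S, Ind 𝔪 (C w).subtype (ψ w) χ ∧
      defect p (block 𝔪 (ψ w)) = defect p (block 𝔪 χ) ∧
      AbD p 𝔪 (ψ w) (D.comap (C w).subtype) (κ w) ζ := fun w =>
    Bw_main p hp 𝔪 h𝔪 hp𝔪 χ hχ D ι ζ hA w.1 (hS1 _ w.2).1 (C w).subtype (C w).subtype_injective
      (hr w) (κ w) (hκ w) (ψ w) (hψ w) (hindκ w)
  have hpow : ∀ w : S, ∃ n, w.1 ^ (p ^ n) = 1 := by
    intro w
    obtain ⟨n, hn⟩ := hA.pg ⟨w.1, (hS1 _ w.2).1⟩
    exact ⟨n, by simpa using congrArg Subtype.val hn⟩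
  have hordw : ∀ w : S, ∃ t, orderOf w.1 = p ^ (t + 1) := by
    intro w
    obtain ⟨n, hn⟩ := hpow w
    obtain ⟨t, -, ht⟩ := (Nat.dvd_prime_pow hp).mp (orderOf_dvd_of_pow_eq_one hn)
    rcases Nat.eq_zero_or_pos t with h0 | h0
    · exfalso
      rw [h0, pow_zero, orderOf_eq_one_iff] at ht
      exact (hS1 _ w.2).2 ht
    · exact ⟨t - 1, by rw [ht]; congr 1; omega⟩
  have hL : ∀ w : S, Nonempty (Loc p 𝔪 w.1 (C w) (ψ w)) := by
    intro w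
    obtain ⟨t, ht⟩ := hordw w
    exact MkLoc_main p hp 𝔪 h𝔪 hp𝔪 w.1 t ht (C w) (hmemC w) (ψ w) (hψ w)
  let L : ∀ w : S, Loc p 𝔪 w.1 (C w) (ψ w) := fun w => (hL w).some
  have hrat : ∀ (w : S) (a : Fin m), ∀ j : ℕ, ¬ p ∣ j → ∀ y : C w, ¬ p ∣ orderOf y →
      χs a (w.1 ^ j * (y : K)) = χs a (w.1 * (y : K)) := by
    intro w a j hj y hy
    obtain ⟨n, hn⟩ := hpow w
    refine J_rat p hp J hJ1 hJ2 (χs a) (hR _ (hχR a)).2 w.1 (y : K) n hn ?_ ?_ j hj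
    · rw [Subgroup.orderOf_coe]
      exact hy
    · exact ((hmemC w _).1 y.2).symm
  have hMat := fun w : S => MatP_main (L w) χ hχ (hBw w).1 (hBw w).2.1 χs hχb (hrat w)
  choose Y hY1 hY2 hY3 nC v hnC hv using hMat
  have hone : ∀ w : S, ell p (block 𝔪 (ψ w)) ≤ 1 := by
    intro w
    refine LX_main p hp 𝔪 h𝔪 hp𝔪 (ψ w) (hψ w) _ (κ w) ζ (hBw w).2.2 1 ?_ (by omega)
    rw [one_mul, ← hcardR]
    refine Nat.card_le_card_of_injective
      (fun s : Stb 𝔪 (hBw w).2.2.cen ζ => (⟨((s : C w) : K), ?_⟩ : ι.range)) ?_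
    · obtain ⟨h1, h2⟩ := LY_stb hA w.1 (hS1 _ w.2).1 (hκ w) (hBw w).2.2.cen s.1 s.2
      exact (hS1' _ w.2).2.2 _ h1 h2
    · intro a b hab
      have h1 := congrArg Subtype.val hab
      exact Subtype.ext (Subtype.ext h1)
  have hrank := fun w : S => LocR_main (L w) (hone w)
  choose kk cc hkk1 hkk2 hkk3 using hrank
  have hM : ∀ (w : S) (a b : Fin m), bil (L w).M (Y w a) (Y w b) =
      kk w * (∑ i, cc w i * Y w a i) * (∑ i, cc w i * Y w b i) := by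
    intro w a b
    unfold bil
    rw [mul_assoc, Finset.sum_mul_sum, Finset.mul_sum]
    refine Finset.sum_congr rfl fun i _ => ?_
    rw [Finset.mul_sum]
    refine Finset.sum_congr rfl fun j _ => ?_
    rw [hkk3]
    ring
  refine ⟨S, inferInstance, kk, fun w a => ∑ i, cc w i * Y w a i, ⟨hp, hkk1, hkk2, ?_, ?_, ?_⟩, ?_⟩
  · intro w a h0
    have h1 := hY3 w a
    rw [hM w a a, h0] at h1
    simp at h1
  · intro w w' a b c d
    have h1 := MatP_cross p hp 𝔪 h𝔪 hp𝔪 (fun a => A p (χs a) χ)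
      (fun a => A_integral (hχI a) hχ)
      (fun a b => bil (L w).M (Y w a) (Y w b)) (fun a b => bil (L w').M (Y w' a) (Y w' b))
      (hY2 w) (hY2 w') (nC w) (nC w') (hnC w) (hnC w') (v w) (v w') (hv w) (hv w') a b c d
    simp only [hM] at h1
    exact h1
  · intro c
    have hB := MatB_main p hp 𝔪 h𝔪 hp𝔪 d (fun w : S => w.1) C ψ L
      (fun w => by rw [(hBw w).2.1, hd]) ?_ χs hχi hχI (fun w => ∑ a, c a • Y w a) c ?_
    · have e1 : ∀ w : S, kk w * (∑ a, c a * ∑ i, cc w i * Y w a i) ^ 2 =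
          bil (L w).M (∑ a, c a • Y w a) (∑ a, c a • Y w a) := by
        intro w
        rw [LY_both]
        simp only [hM]
        rw [sq, Finset.sum_mul_sum, Finset.mul_sum]
        refine Finset.sum_congr rfl fun a _ => ?_
        rw [Finset.mul_sum]
        refine Finset.sum_congr rfl fun b _ => ?_
        ring
      rw [Finset.sum_congr rfl fun w _ => e1 w, ← hd]
      push_cast
      exact hB
    · intro i j hij k hk hcj
      obtain ⟨n, hn, hn2⟩ := Fus_main p hp 𝔪 h𝔪 hp𝔪 χ hχ D ι ζ hA i.1 j.1 (hS1 _ i.2).1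
        (hS1 _ j.2).1 (C i).subtype (C i).subtype_injective (hr i) (C j).subtype
        (C j).subtype_injective (hr j) (κ i) (hκ i) (κ j) (hκ j) (ψ i) (hψ i) (ψ j) (hψ j)
        (hindκ i) (hindκ j) k hk hcj
      exact hij (Subtype.ext (hS2 _ i.2 _ j.2 n hn hn2))
    · intro w
      have e2 : ∀ a, (L w).H 1 (χs a) (∑ a, c a • Y w a) =
          ((bil (L w).M (Y w a) (∑ a, c a • Y w a) : ℤ) : ℂ) := fun a => hY1 w a _
      simp only [e2]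
      rw [LY_left]
      push_cast
      rfl
  · rw [Fintype.card_coe, ← hd, ← hcardD]
    exact hS3

private theorem LY_pos {K H : Type} [Group K] [Fintype K] [Group H] [Fintype H] (p : ℕ)
    (𝔪 : Ideal AInt)
    (χ : K → ℂ) (D : Subgroup K) (ι : H →* K) (ζ : H → ℂ) (hA : AbD p 𝔪 χ D ι ζ)
    (e : ℕ) (he : Nat.card (Stb 𝔪 hA.cen ζ) ≤ e * Nat.card H) : 1 ≤ e := by
  rcases Nat.eq_zero_or_pos e with h0 | h0
  · exfalso
    rw [h0, zero_mul] at he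
    have h1 : 0 < Nat.card (Stb 𝔪 hA.cen ζ) := Nat.card_pos
    omega
  · exact h0

private theorem LY_triv {K H : Type} [Group K] [Fintype K] [Group H] [Fintype H] (p : ℕ)
    (hp : p.Prime) (𝔪 : Ideal AInt) (h𝔪 : 𝔪.IsMaximal) (hp𝔪 : (p : AInt) ∈ 𝔪) (χ : K → ℂ)
    (hχ : χ ∈ Irr K) (D : Subgroup K) (ι : H →* K) (ζ : H → ℂ) (hA : AbD p 𝔪 χ D ι ζ)
    (hne : ι.range = Stb 𝔪 hA.cen ζ) (hp4 : 4 < p) : ell p (block 𝔪 χ) ≤ 1 := by
  refine LX_main p hp 𝔪 h𝔪 hp𝔪 χ hχ D ι ζ hA 1 ?_ (by omega)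
  rw [← hne, one_mul]
  exact (Nat.card_congr (Equiv.ofInjective ι hA.cen.inj)).symm.le

/-- `l(B) < p` if `12 * e ≤ p + 1`. -/
theorem LY_lt {K H : Type} [Group K] [Fintype K] [Group H] [Fintype H] (p : ℕ)
    (hp : p.Prime) (𝔪 : Ideal AInt) (h𝔪 : 𝔪.IsMaximal) (hp𝔪 : (p : AInt) ∈ 𝔪) (χ : K → ℂ)
    (hχ : χ ∈ Irr K) (D : Subgroup K) (ι : H →* K) (ζ : H → ℂ) (hA : AbD p 𝔪 χ D ι ζ) (e : ℕ)
    (he : Nat.card (Stb 𝔪 hA.cen ζ) ≤ e * Nat.card H) (hpe : 12 * e ≤ p + 1) :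
    ell p (block 𝔪 χ) < p := by
  have he1 : 1 ≤ e := LY_pos p 𝔪 χ D ι ζ hA e he
  by_cases hne : ι.range = Stb 𝔪 hA.cen ζ
  · have := LY_triv p hp 𝔪 h𝔪 hp𝔪 χ hχ D ι ζ hA hne (by omega)
    omega
  obtain ⟨I, _, κ, v, h, hI⟩ := LY_core p hp (by omega) 𝔪 h𝔪 hp𝔪 χ hχ D ι ζ hA e
    he hne (by omega) (by omega) (ell p (block 𝔪 χ)) le_rfl
  obtain ⟨F, hF⟩ : ∃ F, F = p ^ defect p (block 𝔪 χ) := ⟨_, rfl⟩
  rw [← hF] at h hI
  have hF0 : 0 < F := by rw [hF]; exact pow_pos hp.pos _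
  refine Rig4_vec h hF0 ?_
  have h1 : F * (12 * e) ≤ F * (p + 1) := Nat.mul_le_mul_left _ hpe
  have h2 : e * (11 * F) ≤ e * (p * Fintype.card I) := by
    nlinarith
  exact Nat.le_of_mul_le_mul_left h2 (by omega)

/-- `l(B) ≤ e` if `2 * e ^ 2 + e ≤ p`. -/
theorem LY_main {K H : Type} [Group K] [Fintype K] [Group H] [Fintype H] (p : ℕ)
    (hp : p.Prime) (𝔪 : Ideal AInt) (h𝔪 : 𝔪.IsMaximal) (hp𝔪 : (p : AInt) ∈ 𝔪) (χ : K → ℂ)
    (hχ : χ ∈ Irr K) (D : Subgroup K) (ι : H →* K) (ζ : H → ℂ) (hA : AbD p 𝔪 χ D ι ζ) (e : ℕ)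
    (he : Nat.card (Stb 𝔪 hA.cen ζ) ≤ e * Nat.card H) (hp4 : 4 < p) (hpe : 2 * e ^ 2 + e ≤ p) :
    ell p (block 𝔪 χ) ≤ e := by
  have he1 : 1 ≤ e := LY_pos p 𝔪 χ D ι ζ hA e he
  by_cases hne : ι.range = Stb 𝔪 hA.cen ζ
  · exact (LY_triv p hp 𝔪 h𝔪 hp𝔪 χ hχ D ι ζ hA hne hp4).trans he1
  by_contra hcon
  have hep : e < p - 1 := by
    have h1 : e ≤ e ^ 2 := Nat.le_self_pow (by norm_num) e
    omega
  obtain ⟨I, _, κ, v, h, hI⟩ := LY_core p hp (by omega) 𝔪 h𝔪 hp𝔪 χ hχ D ι ζ hA e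
    he hne hep hp4 (e + 1) (by omega)
  exact Rig5_main h he1 (pow_pos hp.pos _) hpe hI

end Pool.Agent.KBQ
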