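import Pool.Agent.KBQ.LnO

/-! Bessel's inequality for one character and the sections of the elements `w ^ j`. -/

namespace Pool.Agent.KBQ

open Pool.Agent.KB Pool.Agent.KB.ContrAux Pool.Agent.KBL Pool.Agent.KBZ Pool.Agent.KBU

/-- The component of the character `χ` in the block `b`, at `u ^ j`. -/
noncomputable def LnB_s {G : Type} [Group G] [Fintype G] {p : ℕ} {𝔪 : Ideal AInt} {u : G}
    {C : Subgroup G} [Fintype C] {ζ₀ : C → ℂ} (L : Loc p 𝔪 u C ζ₀) (χ : G → ℂ) (j : ℕ) (y : C) : ℂ :=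
  ∑ k, ((L.mu χ k : ℂ) * L.η ^ (j * ((L.er k : ℕ) + p ^ L.m * (L.et k : ℕ)))) * L.X k y

open Classical in
/-- HINT: `conj (LnB_s ..) = ∑ l conj(coefficient l) X l y⁻¹` (`irr_inv`); `HX_key` for each `l`; both sides are
`∑ l conj(coefficient l) ∑ i coefficient i * T p (X i) (X l)`. -/
theorem LnB_inner {G : Type} [Group G] [Fintype G] {p : ℕ} {𝔪 : Ideal AInt} {u : G}
    {C : Subgroup G} [Fintype C] {ζ₀ : C → ℂ} (L : Loc p 𝔪 u C ζ₀) (χ : G → ℂ) (hχ : χ ∈ Irr G)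
    (j : ℕ) :
    ∑ y : C with ¬ p ∣ orderOf y, χ (u ^ j * (y : G)) * (starRingEnd ℂ) (LnB_s L χ j y) =
      ((∑ y : C with ¬ p ∣ orderOf y, ‖LnB_s L χ j y‖ ^ 2 : ℝ) : ℂ) := by
  obtain ⟨c, hc⟩ : ∃ c : Fin L.K → ℂ, c = fun k =>
      (L.mu χ k : ℂ) * L.η ^ (j * ((L.er k : ℕ) + p ^ L.m * (L.et k : ℕ))) := ⟨_, rfl⟩
  have hs : ∀ y, LnB_s L χ j y = ∑ k, c k * L.X k y := by
    intro y
    rw [hc]
    rfl
  have hconj : ∀ y : C, (starRingEnd ℂ) (LnB_s L χ j y) =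
      ∑ l, (starRingEnd ℂ) (c l) * L.X l y⁻¹ := by
    intro y
    rw [hs, map_sum]
    refine Finset.sum_congr rfl fun l _ => ?_
    rw [map_mul, irr_inv (L.mem l).1]
  have hkey : ∀ l, ∑ y : C with ¬ p ∣ orderOf y, χ (u ^ j * (y : G)) * L.X l y⁻¹ =
      ∑ i, c i * T p (L.X i) (L.X l) := by
    intro l
    rw [← HX_key L χ hχ j l, hc]
  calc ∑ y : C with ¬ p ∣ orderOf y, χ (u ^ j * (y : G)) * (starRingEnd ℂ) (LnB_s L χ j y)
      = ∑ y : C with ¬ p ∣ orderOf y, ∑ l, (starRingEnd ℂ) (c l) *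
          (χ (u ^ j * (y : G)) * L.X l y⁻¹) := by
        refine Finset.sum_congr rfl fun y _ => ?_
        rw [hconj, Finset.mul_sum]
        refine Finset.sum_congr rfl fun l _ => ?_
        ring
    _ = ∑ l, (starRingEnd ℂ) (c l) * ∑ i, c i * T p (L.X i) (L.X l) := by
        rw [Finset.sum_comm]
        refine Finset.sum_congr rfl fun l _ => ?_
        rw [← Finset.mul_sum, hkey]
    _ = ∑ l, ∑ y : C with ¬ p ∣ orderOf y, (starRingEnd ℂ) (c l) *
          (LnB_s L χ j y * L.X l y⁻¹) := by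
        refine Finset.sum_congr rfl fun l _ => ?_
        rw [← Finset.mul_sum]
        congr 1
        unfold T
        simp only [Finset.mul_sum]
        rw [Finset.sum_comm]
        refine Finset.sum_congr rfl fun y _ => ?_
        rw [hs, Finset.sum_mul]
        refine Finset.sum_congr rfl fun i _ => ?_
        ring
    _ = ∑ y : C with ¬ p ∣ orderOf y, LnB_s L χ j y * (starRingEnd ℂ) (LnB_s L χ j y) := by
        rw [Finset.sum_comm]
        refine Finset.sum_congr rfl fun y _ => ?_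
        rw [hconj, Finset.mul_sum]
        refine Finset.sum_congr rfl fun l _ => ?_
        ring
    _ = _ := by
        rw [Complex.ofReal_sum]
        refine Finset.sum_congr rfl fun y _ => ?_
        rw [Complex.mul_conj, Complex.normSq_eq_norm_sq]

open Classical in
/-- HINT: `MatB_bessel` with the index type `Option I`, `N = |G|`, `P = 1`, `φ = χ`; for `some i`:
`θ = Bess_th p (w i) (C i) j (LnB_s (L i) χ j)`, `c = |C i|`, `Q = ∑ ‖LnB_s‖ ^ 2` (`Bess_pair`, `Bess_val`,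
`LnB_inner`, see the proof of `MatB_main`); for `none`: `θ g = if p ∣ orderOf g then 0 else χ g`, `c = 1`,
`Q = (∑ ‖χ g‖ ^ 2) / |G|`. Orthogonality: `LnO_main` and `LnO_reg`. The norm of `χ` is `|G|` (`Col_row`). -/
theorem LnB_main {G : Type} [Group G] [Fintype G] (p : ℕ) (hp : p.Prime) (𝔪 : Ideal AInt)
    {I : Type} [Fintype I] (w : I → G)
    (C : I → Subgroup G) [∀ i, Fintype (C i)] (ζ : ∀ i, C i → ℂ)
    (L : ∀ i, Loc p 𝔪 (w i) (C i) (ζ i))
    (hnc : ∀ i j, i ≠ j → ∀ k : G, k * w i * k⁻¹ = w j →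
      ¬ Cj 𝔪 k (C i).subtype (ζ i) (C j).subtype (ζ j))
    (χ : G → ℂ) (hχ : χ ∈ Irr G) (j : ℕ) (hj : ¬ p ∣ j) :
    ∑ i, (∑ y : C i with ¬ p ∣ orderOf y, ‖LnB_s (L i) χ j y‖ ^ 2) / (Nat.card (C i) : ℝ) +
      (∑ g : G with ¬ p ∣ orderOf g, ‖χ g‖ ^ 2) / (Nat.card G : ℝ) ≤ 1 := by
  have hNG : (0 : ℝ) < (Nat.card G : ℝ) := by exact_mod_cast Nat.card_pos
  have hNG' : (Nat.card G : ℝ) ≠ 0 := hNG.ne'
  have hNC : ∀ i, (0 : ℝ) < (Nat.card (C i) : ℝ) := fun i => by exact_mod_cast Nat.card_pos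
  have hw : ∀ i, w i ^ (p ^ ((L i).m + 1)) = 1 := fun i => by
    rw [← (L i).hord]
    exact pow_orderOf_eq_one (w i)
  have hsc : ∀ i, ∀ y z : C i, IsConj y z → LnB_s (L i) χ j y = LnB_s (L i) χ j z := by
    intro i y z hyz
    unfold LnB_s
    exact Finset.sum_congr rfl fun k _ => by rw [irr_conj ((L i).mem k).1 hyz]
  have hχconj : ∀ g h : G, χ (h * g * h⁻¹) = χ g := fun g h =>
    (irr_conj hχ (isConj_iff.2 ⟨h, rfl⟩ : IsConj g (h * g * h⁻¹))).symm
  obtain ⟨R, hR⟩ : ∃ R : ℝ, R = ∑ g : G with ¬ p ∣ orderOf g, ‖χ g‖ ^ 2 := ⟨_, rfl⟩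
  obtain ⟨θ₀, hθ₀⟩ : ∃ θ₀ : G → ℂ, θ₀ = fun g => if p ∣ orderOf g then 0 else χ g := ⟨_, rfl⟩
  have hθR : ∀ f : G → ℂ, (∀ g, ¬ p ∣ orderOf g → f g = χ g) →
      ∑ g, f g * (starRingEnd ℂ) (θ₀ g) = ((R : ℝ) : ℂ) := by
    intro f hf
    rw [hR, Complex.ofReal_sum, Finset.sum_filter]
    refine Finset.sum_congr rfl fun g _ => ?_
    have h0 : θ₀ g = if p ∣ orderOf g then 0 else χ g := by rw [hθ₀]
    rw [h0]
    by_cases hg : p ∣ orderOf g
    · rw [if_pos hg, map_zero, mul_zero, if_neg (not_not.2 hg)]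
    · rw [if_neg hg, if_pos hg, hf g hg, Complex.mul_conj, Complex.normSq_eq_norm_sq]
  have key := MatB_bessel χ (fun o : Option I => o.elim θ₀
      (fun i => Bess_th p (w i) (C i) j (LnB_s (L i) χ j))) (Nat.card G : ℝ) hNG
    (fun o => o.elim 1 fun i => (Nat.card (C i) : ℝ)) ?_
    (fun o => o.elim (R / (Nat.card G : ℝ)) fun i =>
      ∑ y : C i with ¬ p ∣ orderOf y, ‖LnB_s (L i) χ j y‖ ^ 2) 1 ?_ ?_ ?_ ?_
  · rw [Fintype.sum_option] at key
    simp only [Option.elim_none, Option.elim_some, div_one] at key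
    rw [← hR]
    linarith
  · rintro (_ | i)
    · exact one_pos
    · exact hNC i
  · have h1 : ∀ g, χ g * (starRingEnd ℂ) (χ g) = χ g * χ g⁻¹ := fun g => by rw [irr_inv hχ]
    rw [Finset.sum_congr rfl fun g _ => h1 g, (Col_row χ χ hχ hχ).1 rfl, mul_one]
    push_cast
    rfl
  · rintro (_ | i)
    · show ∑ g, χ g * (starRingEnd ℂ) (θ₀ g) = (((Nat.card G : ℝ) * (R / (Nat.card G : ℝ)) : ℝ) : ℂ)
      rw [hθR χ fun g _ => rfl, mul_div_cancel₀ _ hNG']
    · show ∑ g, χ g * (starRingEnd ℂ) (Bess_th p (w i) (C i) j (LnB_s (L i) χ j) g) =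
        (((Nat.card G : ℝ) * ∑ y : C i with ¬ p ∣ orderOf y, ‖LnB_s (L i) χ j y‖ ^ 2 : ℝ) : ℂ)
      rw [Bess_pair]
      have h1 : ∀ h : G, (∑ y : C i with ¬ p ∣ orderOf y, χ (h * (w i ^ j * (y : G)) * h⁻¹) *
          (starRingEnd ℂ) (LnB_s (L i) χ j y)) =
          ((∑ y : C i with ¬ p ∣ orderOf y, ‖LnB_s (L i) χ j y‖ ^ 2 : ℝ) : ℂ) := by
        intro h
        rw [← LnB_inner (L i) χ hχ j]
        exact Finset.sum_congr rfl fun y _ => by rw [hχconj]
      rw [Finset.sum_congr rfl fun h _ => h1 h, Finset.sum_const, nsmul_eq_mul, Finset.card_univ,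
        ← Nat.card_eq_fintype_card]
      push_cast
      rfl
  · rintro (_ | i)
    · show ∑ g, θ₀ g * (starRingEnd ℂ) (θ₀ g) =
        (((Nat.card G : ℝ) * (1 * (R / (Nat.card G : ℝ))) : ℝ) : ℂ)
      rw [hθR θ₀ fun g hg => by rw [hθ₀]; exact if_neg hg, one_mul, mul_div_cancel₀ _ hNG']
    · show ∑ g, Bess_th p (w i) (C i) j (LnB_s (L i) χ j) g *
          (starRingEnd ℂ) (Bess_th p (w i) (C i) j (LnB_s (L i) χ j) g) =
        (((Nat.card G : ℝ) * ((Nat.card (C i) : ℝ) *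
          ∑ y : C i with ¬ p ∣ orderOf y, ‖LnB_s (L i) χ j y‖ ^ 2) : ℝ) : ℂ)
      rw [Bess_pair]
      have h1 : ∀ h : G, (∑ y : C i with ¬ p ∣ orderOf y,
          Bess_th p (w i) (C i) j (LnB_s (L i) χ j) (h * (w i ^ j * (y : G)) * h⁻¹) *
          (starRingEnd ℂ) (LnB_s (L i) χ j y)) = (((Nat.card (C i) : ℝ) *
            ∑ y : C i with ¬ p ∣ orderOf y, ‖LnB_s (L i) χ j y‖ ^ 2 : ℝ) : ℂ) := by
        intro h
        rw [Finset.mul_sum, Complex.ofReal_sum]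
        refine Finset.sum_congr rfl fun y hy => ?_
        rw [Finset.mem_filter] at hy
        rw [Bess_val p ((L i).m + 1) hp (w i) (hw i) (C i) (L i).hC j hj _ (hsc i) h y hy.2,
          mul_assoc, Complex.mul_conj, Complex.normSq_eq_norm_sq]
        push_cast
        rfl
      rw [Finset.sum_congr rfl fun h _ => h1 h, Finset.sum_const, nsmul_eq_mul, Finset.card_univ,
        ← Nat.card_eq_fintype_card]
      push_cast
      rfl
  · rintro (_ | i) (_ | i') hne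
    · exact absurd rfl hne
    · refine Finset.sum_eq_zero fun g _ => ?_
      show θ₀ g * (starRingEnd ℂ) (Bess_th p (w i') (C i') j (LnB_s (L i') χ j) g) = 0
      by_cases hg : p ∣ orderOf g
      · rw [hθ₀]
        simp only [if_pos hg, zero_mul]
      · rw [LnO_reg p (L i').m hp (w i') (L i').hord (C i') (L i').hC j hj _ g hg, map_zero,
          mul_zero]
    · refine Finset.sum_eq_zero fun g _ => ?_
      show Bess_th p (w i) (C i) j (LnB_s (L i) χ j) g * (starRingEnd ℂ) (θ₀ g) = 0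
      by_cases hg : p ∣ orderOf g
      · rw [hθ₀]
        simp only [if_pos hg, map_zero, mul_zero]
      · rw [LnO_reg p (L i).m hp (w i) (L i).hord (C i) (L i).hC j hj _ g hg, zero_mul]
    · exact LnO_main (L i) (L i') (hnc i i' fun h => hne (congrArg some h)) j hj _ _

end Pool.Agent.KBQ
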