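import Pool.Agent.KBQ.LnB
import Pool.Agent.KBZ.Four

/-! The average over the Galois conjugates. -/

namespace Pool.Agent.KBQ

open Pool.Agent.KB Pool.Agent.KB.ContrAux Pool.Agent.KBL Pool.Agent.KBZ Pool.Agent.KBU

private theorem LnF_parseval (N : ℕ) (hN : 0 < N) (η : ℂ) (hη : IsPrimitiveRoot η N)
    (f : Fin N → ℂ) :
    ∑ j ∈ Finset.range N, ‖∑ i : Fin N, η ^ (j * (i : ℕ)) * f i‖ ^ 2 =
      N * ∑ i, ‖f i‖ ^ 2 := by
  have hη1 : ‖η‖ = 1 := hη.norm'_eq_one hN.ne'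
  have hη0 : η ≠ 0 := hη.ne_zero hN.ne'
  have hconj : (starRingEnd ℂ) η = η⁻¹ := (Complex.inv_eq_conj hη1).symm
  have key : ∀ i i' : Fin N, ∑ j ∈ Finset.range N, η ^ (j * (i : ℕ)) * (η⁻¹) ^ (j * (i' : ℕ)) =
      if i = i' then (N : ℂ) else 0 := by
    intro i i'
    split_ifs with h
    · subst h
      have h1 : ∀ j ∈ Finset.range N, η ^ (j * (i : ℕ)) * (η⁻¹) ^ (j * (i : ℕ)) = (1 : ℂ) := by
        intro j _
        rw [← mul_pow, mul_inv_cancel₀ hη0, one_pow]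
      rw [Finset.sum_congr rfl h1]
      simp
    · have hζ : ∀ j ∈ Finset.range N, η ^ (j * (i : ℕ)) * (η⁻¹) ^ (j * (i' : ℕ)) =
          (η ^ (i : ℕ) * (η⁻¹) ^ (i' : ℕ)) ^ j := by
        intro j _
        rw [mul_pow, ← pow_mul, ← pow_mul, mul_comm j, mul_comm j]
      rw [Finset.sum_congr rfl hζ]
      have hne : η ^ (i : ℕ) * (η⁻¹) ^ (i' : ℕ) ≠ 1 := by
        intro h1
        apply h
        apply Fin.ext
        apply hη.pow_inj i.2 i'.2
        rw [inv_pow] at h1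
        have h2 : η ^ (i' : ℕ) ≠ 0 := pow_ne_zero _ hη0
        field_simp at h1
        exact h1
      rw [geom_sum_eq hne N]
      have h3 : (η ^ (i : ℕ) * (η⁻¹) ^ (i' : ℕ)) ^ N = 1 := by
        rw [mul_pow, ← pow_mul, ← pow_mul, mul_comm _ N, mul_comm _ N, pow_mul, pow_mul, inv_pow,
          hη.pow_eq_one]
        simp
      rw [h3]
      simp
  have hC : ((∑ j ∈ Finset.range N, ‖∑ i : Fin N, η ^ (j * (i : ℕ)) * f i‖ ^ 2 : ℝ) : ℂ) =
      ((N * ∑ i, ‖f i‖ ^ 2 : ℝ) : ℂ) := by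
    push_cast
    calc ∑ j ∈ Finset.range N, ((‖∑ i : Fin N, η ^ (j * (i : ℕ)) * f i‖ : ℝ) : ℂ) ^ 2
        = ∑ j ∈ Finset.range N, ∑ i : Fin N, ∑ i' : Fin N,
            (η ^ (j * (i : ℕ)) * (η⁻¹) ^ (j * (i' : ℕ))) * (f i * (starRingEnd ℂ) (f i')) := by
          refine Finset.sum_congr rfl fun j _ => ?_
          rw [← Complex.mul_conj', map_sum, Finset.sum_mul_sum]
          refine Finset.sum_congr rfl fun i _ => Finset.sum_congr rfl fun i' _ => ?_
          rw [map_mul, map_pow, hconj]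
          ring
      _ = ∑ i : Fin N, ∑ i' : Fin N, (∑ j ∈ Finset.range N,
            η ^ (j * (i : ℕ)) * (η⁻¹) ^ (j * (i' : ℕ))) * (f i * (starRingEnd ℂ) (f i')) := by
          rw [Finset.sum_comm]
          refine Finset.sum_congr rfl fun i _ => ?_
          rw [Finset.sum_comm]
          refine Finset.sum_congr rfl fun i' _ => ?_
          rw [Finset.sum_mul]
      _ = (N : ℂ) * ∑ i, ((‖f i‖ : ℝ) : ℂ) ^ 2 := by
          rw [Finset.mul_sum]
          refine Finset.sum_congr rfl fun i _ => ?_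
          rw [Finset.sum_eq_single i]
          · rw [key, if_pos rfl, Complex.mul_conj']
          · intro i' _ hne
            rw [key, if_neg (Ne.symm hne), zero_mul]
          · intro h
            exact absurd (Finset.mem_univ i) h
  exact_mod_cast hC

/-- `Four_main` for complex values. HINT: real and imaginary parts; with `z = f + i g` the transform of
`z` at `j` and at `p * q - j` (also prime to `p`): `‖F_j + i G_j‖^2 + ‖F_{-j} + i G_{-j}‖^2 =
2 (‖F_j‖^2 + ‖G_j‖^2)` since `F_{-j} = conj F_j` for real `f`; so the sum over all `j` is the sum for `f` plus the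
sum for `g`. Or repeat the proof of `Four_main`. -/
theorem LnF_four (p q : ℕ) (hp : p.Prime) (hq : 0 < q) (η : ℂ) (hη : IsPrimitiveRoot η (p * q))
    (f : Fin q → Fin p → ℂ) :
    2 * ∑ j ∈ (Finset.range (p * q)).filter (fun j => ¬ p ∣ j),
        ‖∑ r : Fin q, ∑ t : Fin p, η ^ (j * ((r : ℕ) + q * (t : ℕ))) * f r t‖ ^ 2 =
      q * ∑ r, ∑ t, ∑ t', ‖f r t - f r t'‖ ^ 2 := by
  have hpq : 0 < p * q := Nat.mul_pos hp.pos hq
  set G : ℕ → ℝ := fun j =>
    ‖∑ r : Fin q, ∑ t : Fin p, η ^ (j * ((r : ℕ) + q * (t : ℕ))) * f r t‖ ^ 2 with hG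
  -- the full sum
  have hA : ∑ j ∈ Finset.range (p * q), G j = (p * q : ℕ) * ∑ r, ∑ t, ‖f r t‖ ^ 2 := by
    have h1 := LnF_parseval (p * q) hpq η hη
      (fun i => f (finProdFinEquiv.symm i).2 (finProdFinEquiv.symm i).1)
    have h2 : ∑ i : Fin (p * q), ‖f (finProdFinEquiv.symm i).2 (finProdFinEquiv.symm i).1‖ ^ 2 =
        ∑ r, ∑ t, ‖f r t‖ ^ 2 := by
      rw [← Equiv.sum_comp finProdFinEquiv, Fintype.sum_prod_type_right]
      simp
    rw [h2] at h1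
    rw [← h1]
    refine Finset.sum_congr rfl fun j _ => ?_
    simp only [hG]
    congr 2
    rw [← Equiv.sum_comp finProdFinEquiv, Fintype.sum_prod_type_right]
    simp
  -- the sum over the multiples of `p`
  have hB : ∑ j ∈ (Finset.range (p * q)).filter (fun j => p ∣ j), G j =
      q * ∑ r, ‖∑ t, f r t‖ ^ 2 := by
    have hηp : IsPrimitiveRoot (η ^ p) q := hη.pow hpq rfl
    have h1 := LnF_parseval q hq (η ^ p) hηp (fun r => ∑ t, f r t)
    rw [← h1]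
    symm
    refine Finset.sum_nbij' (fun l => p * l) (fun j => j / p) ?_ ?_ ?_ ?_ ?_
    · intro l hl
      rw [Finset.mem_range] at hl
      rw [Finset.mem_filter, Finset.mem_range]
      exact ⟨Nat.mul_lt_mul_of_pos_left hl hp.pos, dvd_mul_right _ _⟩
    · intro j hj
      rw [Finset.mem_filter, Finset.mem_range] at hj
      rw [Finset.mem_range]
      exact Nat.div_lt_of_lt_mul hj.1
    · intro l _
      exact Nat.mul_div_cancel_left l hp.pos
    · intro j hj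
      rw [Finset.mem_filter, Finset.mem_range] at hj
      exact Nat.mul_div_cancel' hj.2
    · intro l _
      simp only [hG]
      congr 2
      refine Finset.sum_congr rfl fun r _ => ?_
      rw [Finset.mul_sum]
      refine Finset.sum_congr rfl fun t _ => ?_
      congr 1
      have h2 : p * l * ((r : ℕ) + q * (t : ℕ)) = p * (l * r) + p * q * (l * t) := by ring
      rw [h2, pow_add, pow_mul η (p * q), hη.pow_eq_one, one_pow, mul_one, ← pow_mul]
  have hsplit := Finset.sum_filter_add_sum_filter_not (Finset.range (p * q)) (fun j => p ∣ j) G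
  have hvar : ∀ r, ∑ t, ∑ t', ‖f r t - f r t'‖ ^ 2 =
      2 * (p * ∑ t, ‖f r t‖ ^ 2 - ‖∑ t, f r t‖ ^ 2) := by
    intro r
    have hC : ((∑ t, ∑ t', ‖f r t - f r t'‖ ^ 2 : ℝ) : ℂ) =
        ((2 * (p * ∑ t, ‖f r t‖ ^ 2 - ‖∑ t, f r t‖ ^ 2) : ℝ) : ℂ) := by
      push_cast
      have h1 : ∀ t t', ((‖f r t - f r t'‖ : ℝ) : ℂ) ^ 2 = ((‖f r t‖ : ℝ) : ℂ) ^ 2 -
          f r t * (starRingEnd ℂ) (f r t') - f r t' * (starRingEnd ℂ) (f r t) +
          ((‖f r t'‖ : ℝ) : ℂ) ^ 2 := by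
        intro t t'
        rw [← Complex.mul_conj', ← Complex.mul_conj', ← Complex.mul_conj', map_sub]
        ring
      have h2 : ((‖∑ t, f r t‖ : ℝ) : ℂ) ^ 2 =
          ∑ t, ∑ t', f r t * (starRingEnd ℂ) (f r t') := by
        rw [← Complex.mul_conj', map_sum, Finset.sum_mul_sum]
      have h3 : ∑ t : Fin p, ∑ t' : Fin p, f r t' * (starRingEnd ℂ) (f r t) =
          ∑ t, ∑ t', f r t * (starRingEnd ℂ) (f r t') := Finset.sum_comm
      simp_rw [h1, Finset.sum_add_distrib, Finset.sum_sub_distrib]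
      rw [h3, h2]
      simp
      rw [← Finset.mul_sum]
      ring
    exact_mod_cast hC
  have h4 : ∑ r, ∑ t, ∑ t', ‖f r t - f r t'‖ ^ 2 =
      2 * (p * ∑ r, ∑ t, ‖f r t‖ ^ 2 - ∑ r, ‖∑ t, f r t‖ ^ 2) := by
    simp_rw [hvar]
    rw [← Finset.mul_sum, Finset.sum_sub_distrib, ← Finset.mul_sum]
  rw [h4]
  push_cast at hA
  linear_combination 2 * hA - 2 * hB + 2 * hsplit

/-- HINT: the sum over `k` split by the value of `(er k, et k)`: `HX_pick` or `Finset.sum_comm` and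
`Finset.sum_ite_eq`. -/
theorem LnF_split {G : Type} [Group G] [Fintype G] {p : ℕ} {𝔪 : Ideal AInt} {u : G}
    {C : Subgroup G} [Fintype C] {ζ₀ : C → ℂ} (L : Loc p 𝔪 u C ζ₀) (χ : G → ℂ) (j : ℕ) (y : C) :
    LnB_s L χ j y = ∑ r : Fin (p ^ L.m), ∑ t : Fin p,
      L.η ^ (j * ((r : ℕ) + p ^ L.m * (t : ℕ))) * ∑ k, (L.a χ r t k : ℂ) * L.X k y := by
  classical
  have h1 : ∀ (r : Fin (p ^ L.m)) (t : Fin p),
      L.η ^ (j * ((r : ℕ) + p ^ L.m * (t : ℕ))) * ∑ k, (L.a χ r t k : ℂ) * L.X k y =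
      ∑ k, (L.η ^ (j * ((r : ℕ) + p ^ L.m * (t : ℕ))) *
        ((if L.er k = r ∧ L.et k = t then (L.mu χ k : ℤ) else 0 : ℤ) : ℂ)) * L.X k y := by
    intro r t
    rw [Finset.mul_sum]
    refine Finset.sum_congr rfl fun k _ => ?_
    unfold Loc.a
    ring
  simp only [h1]
  have h2 : ∑ r : Fin (p ^ L.m), ∑ t : Fin p, ∑ k,
      (L.η ^ (j * ((r : ℕ) + p ^ L.m * (t : ℕ))) *
        ((if L.er k = r ∧ L.et k = t then (L.mu χ k : ℤ) else 0 : ℤ) : ℂ)) * L.X k y =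
      ∑ k, ∑ r : Fin (p ^ L.m), ∑ t : Fin p,
      (L.η ^ (j * ((r : ℕ) + p ^ L.m * (t : ℕ))) *
        ((if L.er k = r ∧ L.et k = t then (L.mu χ k : ℤ) else 0 : ℤ) : ℂ)) * L.X k y := by
    calc _ = ∑ r : Fin (p ^ L.m), ∑ k, ∑ t : Fin p,
          (L.η ^ (j * ((r : ℕ) + p ^ L.m * (t : ℕ))) *
          ((if L.er k = r ∧ L.et k = t then (L.mu χ k : ℤ) else 0 : ℤ) : ℂ)) * L.X k y :=
          Finset.sum_congr rfl fun r _ => Finset.sum_comm
      _ = _ := Finset.sum_comm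
  rw [h2]
  unfold LnB_s
  refine Finset.sum_congr rfl fun k _ => ?_
  simp only [← Finset.sum_mul]
  rw [HX_pick (fun (r : Fin (p ^ L.m)) (t : Fin p) =>
    L.η ^ (j * ((r : ℕ) + p ^ L.m * (t : ℕ))))]
  push_cast
  ring

open Classical in
/-- HINT: `LnF_split`, `LnF_four` for each `y` with `f r t = ∑ k, a χ r t k * X k y`, exchange the sums,
`CovZ_norm` for `x = a χ r t - a χ r t'`. -/
theorem LnF_main {G : Type} [Group G] [Fintype G] {p : ℕ} {𝔪 : Ideal AInt} {u : G}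
    {C : Subgroup G} [Fintype C] {ζ₀ : C → ℂ} (L : Loc p 𝔪 u C ζ₀) (χ : G → ℂ) :
    2 * ((p : ℝ) ^ defect p (block 𝔪 ζ₀) / (Nat.card C : ℝ) *
      ∑ j ∈ (Finset.range (p * p ^ L.m)).filter (fun j => ¬ p ∣ j),
        ∑ y : C with ¬ p ∣ orderOf y, ‖LnB_s L χ j y‖ ^ 2) =
      (p : ℝ) ^ L.m * ∑ r, ∑ t, ∑ t',
        ((bil L.M (L.a χ r t - L.a χ r t') (L.a χ r t - L.a χ r t') : ℤ) : ℝ) := by
  have h1 : ∀ y : C, 2 * ∑ j ∈ (Finset.range (p * p ^ L.m)).filter (fun j => ¬ p ∣ j),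
      ‖LnB_s L χ j y‖ ^ 2 = (p : ℝ) ^ L.m * ∑ r, ∑ t, ∑ t',
        ‖∑ k, ((L.a χ r t - L.a χ r t') k : ℂ) * L.X k y‖ ^ 2 := by
    intro y
    have h2 := LnF_four p (p ^ L.m) L.hp (pow_pos L.hp.pos _) L.η L.hη
      (fun r t => ∑ k, (L.a χ r t k : ℂ) * L.X k y)
    simp only [LnF_split L χ _ y]
    rw [h2]
    push_cast
    congr 1
    refine Finset.sum_congr rfl fun r _ => Finset.sum_congr rfl fun t _ =>
      Finset.sum_congr rfl fun t' _ => ?_
    congr 2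
    rw [← Finset.sum_sub_distrib]
    refine Finset.sum_congr rfl fun k _ => ?_
    rw [Pi.sub_apply]
    push_cast
    ring
  have h3 : ∀ r t t', ((bil L.M (L.a χ r t - L.a χ r t') (L.a χ r t - L.a χ r t') : ℤ) : ℝ) =
      (p : ℝ) ^ defect p (block 𝔪 ζ₀) / (Nat.card C : ℝ) *
      ∑ y : C with ¬ p ∣ orderOf y,
        ‖∑ k, ((L.a χ r t - L.a χ r t') k : ℂ) * L.X k y‖ ^ 2 := by
    intro r t t'
    exact (CovZ_norm L _).symm
  simp only [h3]
  rw [Finset.sum_comm]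
  have h4 : 2 * ((p : ℝ) ^ defect p (block 𝔪 ζ₀) / (Nat.card C : ℝ) *
      ∑ y : C with ¬ p ∣ orderOf y,
        ∑ j ∈ (Finset.range (p * p ^ L.m)).filter (fun j => ¬ p ∣ j), ‖LnB_s L χ j y‖ ^ 2) =
      (p : ℝ) ^ defect p (block 𝔪 ζ₀) / (Nat.card C : ℝ) *
      ∑ y : C with ¬ p ∣ orderOf y,
        (2 * ∑ j ∈ (Finset.range (p * p ^ L.m)).filter (fun j => ¬ p ∣ j),
          ‖LnB_s L χ j y‖ ^ 2) := by
    rw [← Finset.mul_sum]
    ring
  rw [h4]
  simp only [h1]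
  simp only [← Finset.mul_sum]
  have h5 : ∑ y : C with ¬ p ∣ orderOf y, ∑ r, ∑ t, ∑ t',
        ‖∑ k, ((L.a χ r t - L.a χ r t') k : ℂ) * L.X k y‖ ^ 2 =
      ∑ r, ∑ t, ∑ t', ∑ y : C with ¬ p ∣ orderOf y,
        ‖∑ k, ((L.a χ r t - L.a χ r t') k : ℂ) * L.X k y‖ ^ 2 := by
    rw [Finset.sum_comm]
    refine Finset.sum_congr rfl fun r _ => ?_
    rw [Finset.sum_comm]
    refine Finset.sum_congr rfl fun t _ => ?_
    rw [Finset.sum_comm]
  rw [h5]
  ring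

end Pool.Agent.KBQ
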