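import Pool.Agent.KBQ.MatB

/-! Orthogonality of the test functions of different subsections, all Galois conjugates. -/

namespace Pool.Agent.KBQ

open Pool.Agent.KB Pool.Agent.KB.ContrAux Pool.Agent.KBL Pool.Agent.KBZ Pool.Agent.KBU

private theorem LnO_inv (p : ℕ) (hp : p.Prime) (n : ℕ) (hn : 0 < n) (j : ℕ) (hj : ¬ p ∣ j) :
    ∃ j', j * j' ≡ 1 [MOD p ^ n] := by
  have h1 : Nat.Coprime j (p ^ n) :=
    (Nat.Coprime.pow_left n ((Nat.Prime.coprime_iff_not_dvd hp).2 hj)).symm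
  have h2 : 1 < p ^ n := Nat.one_lt_pow hn.ne' hp.one_lt
  obtain ⟨m, -, hm⟩ := Nat.exists_mul_mod_eq_one_of_coprime h1 h2
  refine ⟨m, ?_⟩
  unfold Nat.ModEq
  rw [hm, Nat.mod_eq_of_lt h2]

private theorem LnO_pow {G : Type} [Group G] {w : G} {p n n' j j' : ℕ} (hw : w ^ (p ^ n) = 1)
    (hn : n ≤ n') (h : j * j' ≡ 1 [MOD p ^ n']) : (w ^ j) ^ j' = w := by
  rw [← pow_mul]
  conv_rhs => rw [← pow_one w]
  rw [pow_eq_pow_iff_modEq]
  exact h.of_dvd ((orderOf_dvd_of_pow_eq_one hw).trans (pow_dvd_pow p hn))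

open Classical in
/-- The same as `MatB_orth`, for `w ^ j` and complex coefficients. HINT: copy the proof of `MatB_orth`
with `j` for `1` (`Bess_val` needs `hj`); at the end `w₁ ^ j` and `w₂ ^ j` are conjugate by `k`; take
`j * j' ≡ 1` modulo `p ^ N`, `N = L₁.m + L₂.m + 2`, then `(w ^ j) ^ j' = w` for both, so `w₁` and `w₂` are
conjugate by `k`. -/
theorem LnO_main {G : Type} [Group G] [Fintype G] {p : ℕ} {𝔪 : Ideal AInt} {w₁ w₂ : G}
    {C₁ C₂ : Subgroup G} [Fintype C₁] [Fintype C₂] {ζ₁ : C₁ → ℂ} {ζ₂ : C₂ → ℂ}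
    (L₁ : Loc p 𝔪 w₁ C₁ ζ₁) (L₂ : Loc p 𝔪 w₂ C₂ ζ₂)
    (hnc : ∀ k : G, k * w₁ * k⁻¹ = w₂ → ¬ Cj 𝔪 k C₁.subtype ζ₁ C₂.subtype ζ₂)
    (j : ℕ) (hj : ¬ p ∣ j) (x₁ : Fin L₁.K → ℂ) (x₂ : Fin L₂.K → ℂ) :
    ∑ g, Bess_th p w₁ C₁ j (fun y => ∑ k, x₁ k * L₁.X k y) g *
      (starRingEnd ℂ) (Bess_th p w₂ C₂ j (fun y => ∑ k, x₂ k * L₂.X k y) g) = 0 := by
  have hp := L₁.hp
  have hw₁ : w₁ ^ (p ^ (L₁.m + 1)) = 1 := by rw [← L₁.hord]; exact pow_orderOf_eq_one w₁
  have hw₂ : w₂ ^ (p ^ (L₂.m + 1)) = 1 := by rw [← L₂.hord]; exact pow_orderOf_eq_one w₂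
  set s₁ : C₁ → ℂ := fun y => ∑ k, x₁ k * L₁.X k y with hs₁
  set s₂ : C₂ → ℂ := fun y => ∑ k, x₂ k * L₂.X k y with hs₂
  have hsc : ∀ y z : C₁, IsConj y z → s₁ y = s₁ z := by
    intro y z hyz
    rw [hs₁]
    exact Finset.sum_congr rfl fun k _ => by rw [irr_conj (L₁.mem k).1 hyz]
  rw [Bess_pair]
  refine Finset.sum_eq_zero fun h _ => ?_
  by_cases hk : ∃ k : G, k * w₁ * k⁻¹ = w₂
  · obtain ⟨k, hk⟩ := hk
    have hc1 : ∀ y : C₂, k⁻¹ * (y : G) * k ∈ C₁ := by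
      intro y
      rw [L₁.hC]
      have h1 := (L₂.hC (y : G)).1 y.2
      rw [← hk] at h1
      calc k⁻¹ * (y : G) * k * w₁ = k⁻¹ * ((y : G) * (k * w₁ * k⁻¹)) * k := by group
        _ = k⁻¹ * (k * w₁ * k⁻¹ * (y : G)) * k := by rw [h1]
        _ = w₁ * (k⁻¹ * (y : G) * k) := by group
    have hc2 : ∀ y : C₁, k * (y : G) * k⁻¹ ∈ C₂ := by
      intro y
      rw [L₂.hC, ← hk]
      have h1 := (L₁.hC (y : G)).1 y.2
      calc k * (y : G) * k⁻¹ * (k * w₁ * k⁻¹) = k * ((y : G) * w₁) * k⁻¹ := by group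
        _ = k * (w₁ * (y : G)) * k⁻¹ := by rw [h1]
        _ = k * w₁ * k⁻¹ * (k * (y : G) * k⁻¹) := by group
    let c : C₂ ≃* C₁ :=
      { toFun := fun y => ⟨k⁻¹ * (y : G) * k, hc1 y⟩
        invFun := fun y => ⟨k * (y : G) * k⁻¹, hc2 y⟩
        left_inv := fun y => Subtype.ext (by
          show k * (k⁻¹ * (y : G) * k) * k⁻¹ = (y : G)
          group)
        right_inv := fun y => Subtype.ext (by
          show k⁻¹ * (k * (y : G) * k⁻¹) * k = (y : G)
          group)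
        map_mul' := fun y z => Subtype.ext (by
          show k⁻¹ * ((y : G) * (z : G)) * k = (k⁻¹ * (y : G) * k) * (k⁻¹ * (z : G) * k)
          group) }
    have hcv : ∀ y : C₂, ((c y : C₁) : G) = k⁻¹ * (y : G) * k := fun y => rfl
    have hord : ∀ y : C₂, orderOf (c y) = orderOf y := fun y =>
      orderOf_injective c.toMonoidHom c.injective y
    have hval : ∀ y : C₂, ¬ p ∣ orderOf y →
        Bess_th p w₁ C₁ j s₁ (h * (w₂ ^ j * (y : G)) * h⁻¹) = (Nat.card C₁ : ℂ) * s₁ (c y) := by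
      intro y hy
      have h1 : h * (w₂ ^ j * (y : G)) * h⁻¹ =
          (h * k) * (w₁ ^ j * ((c y : C₁) : G)) * (h * k)⁻¹ := by
        rw [hcv, ← hk, conj_pow]
        group
      rw [h1]
      exact Bess_val p (L₁.m + 1) hp w₁ hw₁ C₁ L₁.hC j hj s₁ hsc (h * k) (c y)
        (by rw [hord]; exact hy)
    have hT : ∀ (i : Fin L₁.K) (l : Fin L₂.K), T p (fun y : C₂ => L₁.X i (c y)) (L₂.X l) = 0 := by
      intro i l
      refine Orth_main p hp 𝔪 L₁.hmax L₁.hpm _ _ (UOne_irr c (L₁.mem i).1) (L₂.mem l).1 ?_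
      intro hmem
      refine hnc k hk fun a b hab => ?_
      have hab' : k * (a : G) * k⁻¹ = (b : G) := hab
      have ha : c b = a := by
        apply Subtype.ext
        rw [hcv, ← hab']
        group
      have e1 : InM 𝔪 (omega ζ₁ a - omega (L₁.X i) a) := (L₁.mem i).2 a
      have e2 : InM 𝔪 (omega ζ₂ b - omega (L₂.X l) b) := (L₂.mem l).2 b
      have e3 : InM 𝔪 (omega (fun y : C₂ => L₁.X i (c y)) b - omega (L₂.X l) b) := hmem.2 b
      rw [UOne_omega c (L₁.X i) b, ha] at e3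
      have e4 := InM_sub (InM_add e1 e3) e2
      have e5 : omega ζ₁ a - omega ζ₂ b = omega ζ₁ a - omega (L₁.X i) a +
          (omega (L₁.X i) a - omega (L₂.X l) b) - (omega ζ₂ b - omega (L₂.X l) b) := by ring
      rw [e5]
      exact e4
    have hconj : ∀ y : C₂, (starRingEnd ℂ) (s₂ y) =
        ∑ l, (starRingEnd ℂ) (x₂ l) * L₂.X l y⁻¹ := by
      intro y
      rw [hs₂]
      simp only
      rw [map_sum]
      refine Finset.sum_congr rfl fun l _ => ?_
      rw [map_mul, irr_inv (L₂.mem l).1]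
    calc ∑ y : C₂ with ¬ p ∣ orderOf y, Bess_th p w₁ C₁ j s₁ (h * (w₂ ^ j * (y : G)) * h⁻¹) *
          (starRingEnd ℂ) (s₂ y)
        = ∑ y : C₂ with ¬ p ∣ orderOf y, (Nat.card C₁ : ℂ) * ∑ i, ∑ l,
            (x₁ i * (starRingEnd ℂ) (x₂ l)) * (L₁.X i (c y) * L₂.X l y⁻¹) := by
          refine Finset.sum_congr rfl fun y hy => ?_
          rw [Finset.mem_filter] at hy
          rw [hval y hy.2, hconj, mul_assoc, hs₁, Finset.sum_mul_sum]
          congr 1
          refine Finset.sum_congr rfl fun i _ => Finset.sum_congr rfl fun l _ => ?_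
          ring
      _ = (Nat.card C₁ : ℂ) * ∑ i, ∑ l, (x₁ i * (starRingEnd ℂ) (x₂ l)) *
            T p (fun y : C₂ => L₁.X i (c y)) (L₂.X l) := by
          rw [← Finset.mul_sum, Finset.sum_comm]
          congr 1
          refine Finset.sum_congr rfl fun i _ => ?_
          rw [Finset.sum_comm]
          refine Finset.sum_congr rfl fun l _ => ?_
          unfold T
          rw [← Finset.mul_sum]
      _ = 0 := by simp only [hT, mul_zero, Finset.sum_const_zero]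
  · refine Finset.sum_eq_zero fun y hy => ?_
    rw [Finset.mem_filter] at hy
    rw [MatB_off, zero_mul]
    intro y' hy' hcon
    apply hk
    have h1 : IsConj (w₁ ^ j * (y' : G)) (w₂ ^ j * (y : G)) :=
      hcon.trans (isConj_iff.2 ⟨h⁻¹, by group⟩)
    obtain ⟨k, hk⟩ := isConj_iff.1 h1
    have hC1' : Commute w₁ (y' : G) := ((L₁.hC (y' : G)).1 y'.2).symm
    have hC2' : Commute w₂ (y : G) := ((L₂.hC (y : G)).1 y.2).symm
    have hC1 : Commute (w₁ ^ j) (y' : G) := hC1'.pow_left j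
    have hC2 : Commute (w₂ ^ j) (y : G) := hC2'.pow_left j
    have hj₁ : (w₁ ^ j) ^ (p ^ (L₁.m + 1)) = 1 := by rw [← pow_mul, mul_comm, pow_mul, hw₁, one_pow]
    have hj₂ : (w₂ ^ j) ^ (p ^ (L₂.m + 1)) = 1 := by rw [← pow_mul, mul_comm, pow_mul, hw₂, one_pow]
    obtain ⟨N, e1, e2⟩ := MatB_pow p hp (w₁ ^ j) (w₂ ^ j) _ _ hj₁ hj₂ (y' : G) (y : G)
      (by rw [Subgroup.orderOf_coe]; exact hy') (by rw [Subgroup.orderOf_coe]; exact hy.2) hC1 hC2
    refine ⟨k, ?_⟩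
    have h2 := congrArg (fun z => z ^ N) hk
    simp only [conj_pow] at h2
    rw [e1, e2] at h2
    obtain ⟨j', hj'⟩ := LnO_inv p hp (L₁.m + 1 + (L₂.m + 1)) (by omega) j hj
    have h3 := congrArg (fun z => z ^ j') h2
    simp only [conj_pow] at h3
    rwa [LnO_pow hw₁ (Nat.le_add_right _ _) hj', LnO_pow hw₂ (Nat.le_add_left _ _) hj'] at h3

open Classical in
/-- A test function vanishes on the `p`-regular elements. HINT: `MatB_off`; if `u ^ j * y` is conjugate to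
`g` then its order is divisible by `p` (`u ^ j ≠ 1`, `MatB_pow` or orders of commuting elements). -/
theorem LnO_reg {G : Type} [Group G] [Fintype G] (p m : ℕ) (hp : p.Prime) (u : G)
    (hu : orderOf u = p ^ (m + 1)) (C : Subgroup G) [Fintype C]
    (hC : ∀ g : G, g ∈ C ↔ g * u = u * g) (j : ℕ) (hj : ¬ p ∣ j) (s : C → ℂ) (g : G)
    (hg : ¬ p ∣ orderOf g) : Bess_th p u C j s g = 0 := by
  refine MatB_off p u C j s g fun y hy hcon => ?_
  obtain ⟨k, hk⟩ := isConj_iff.1 hcon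
  have ho : orderOf (u ^ j * (y : G)) = orderOf g := by
    rw [← hk]
    exact (orderOf_injective (MulAut.conj k).toMonoidHom (MulAut.conj k).injective _).symm
  have hy' : ¬ p ∣ orderOf (y : G) := by rw [Subgroup.orderOf_coe]; exact hy
  have hcm' : Commute u (y : G) := ((hC (y : G)).1 y.2).symm
  have hcm : Commute (u ^ j) (y : G) := hcm'.pow_left j
  have h1 : (u ^ j * (y : G)) ^ (orderOf g * orderOf (y : G)) = 1 := by
    rw [pow_mul, ← ho, pow_orderOf_eq_one, one_pow]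
  rw [hcm.mul_pow, mul_comm (orderOf g), pow_mul (y : G), pow_orderOf_eq_one, one_pow, mul_one,
    ← pow_mul] at h1
  have h2 := orderOf_dvd_of_pow_eq_one h1
  rw [hu] at h2
  have h3 : p ∣ j * (orderOf (y : G) * orderOf g) := (dvd_pow_self p (Nat.succ_ne_zero m)).trans h2
  rcases hp.dvd_mul.1 h3 with h4 | h4
  · exact hj h4
  · rcases hp.dvd_mul.1 h4 with h5 | h5
    · exact hy' h5
    · exact hg h5

end Pool.Agent.KBQ
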