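import Pool.Agent.KBQ.LnF

/-! The sum over all sections. -/

namespace Pool.Agent.KBQ

open Pool.Agent.KB Pool.Agent.KB.ContrAux Pool.Agent.KBL Pool.Agent.KBZ Pool.Agent.KBU

/-- A function with period `n`, summed over the `j < n * l` prime to `p`. HINT: `p ∣ n`; induction on `l` or
`Finset.sum_nbij`, `j = a + n * b`. -/
theorem LnS_period (p n l : ℕ) (hn : p ∣ n) (hn0 : 0 < n) (f : ℕ → ℝ) (hf : ∀ j, f (j + n) = f j) :
    ∑ j ∈ (Finset.range (n * l)).filter (fun j => ¬ p ∣ j), f j =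
      l * ∑ j ∈ (Finset.range n).filter (fun j => ¬ p ∣ j), f j := by
  simp only [Finset.sum_filter]
  set F : ℕ → ℝ := fun j => if ¬ p ∣ j then f j else 0 with hF
  have hF1 : ∀ j, F (j + n) = F j := by
    intro j
    simp only [hF]
    have h1 : p ∣ j + n ↔ p ∣ j := (Nat.dvd_add_left hn)
    rw [hf j]
    by_cases h2 : p ∣ j
    · rw [if_neg (not_not.mpr h2), if_neg (not_not.mpr (h1.mpr h2))]
    · rw [if_pos h2, if_pos (fun h3 => h2 (h1.mp h3))]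
  have hF2 : ∀ l j, F (n * l + j) = F j := by
    intro l
    induction l with
    | zero => intro j; simp
    | succ l ih =>
      intro j
      have : n * (l + 1) + j = (n * l + j) + n := by ring
      rw [this, hF1, ih]
  change ∑ j ∈ Finset.range (n * l), F j = l * ∑ j ∈ Finset.range n, F j
  induction l with
  | zero => simp
  | succ l ih =>
    rw [Nat.mul_succ, Finset.sum_range_add, ih]
    simp only [hF2]
    push_cast
    ring

open Classical in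
/-- HINT: let `χ` be in a block of defect `d`. `p^d / |G| * ∑ ‖χ g‖ ^ 2` is a positive integer: `Cdeg_main`
(last part: `p ^ d / |G| * T p χ χ` is an integer; see its use in `KBL`/`KBU`) and the term `g = 1`, `irr_inv`. -/
theorem LnS_one {G : Type} [Group G] [Fintype G] (p : ℕ) (hp : p.Prime) (𝔪 : Ideal AInt)
    (h𝔪 : 𝔪.IsMaximal) (hp𝔪 : (p : AInt) ∈ 𝔪) (χ : G → ℂ) (hχ : χ ∈ Irr G) :
    1 ≤ (p : ℝ) ^ defect p (block 𝔪 χ) *
      ((∑ g : G with ¬ p ∣ orderOf g, ‖χ g‖ ^ 2) / (Nat.card G : ℝ)) := by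
  obtain ⟨M, hM1, -, -, hM4⟩ := Contr_main p hp 𝔪 h𝔪 hp𝔪 χ hχ
  have hself : χ ∈ block 𝔪 χ := KBL.CDAux.mem_self hχ
  have h1 := hM1 χ hself χ hself
  have h2 := hM4 χ hself
  have h3 : ((M χ χ : ℤ) : ℝ) = (p : ℝ) ^ defect p (block 𝔪 χ) *
      ((∑ g : G with ¬ p ∣ orderOf g, ‖χ g‖ ^ 2) / (Nat.card G : ℝ)) := by
    have h4 : ((((M χ χ : ℤ) : ℝ)) : ℂ) = (((p : ℝ) ^ defect p (block 𝔪 χ) *
      ((∑ g : G with ¬ p ∣ orderOf g, ‖χ g‖ ^ 2) / (Nat.card G : ℝ)) : ℝ) : ℂ) := by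
      push_cast
      rw [h1]
      have h5 : ∀ g : G, χ g * χ g⁻¹ = ((‖χ g‖ : ℝ) : ℂ) ^ 2 := by
        intro g
        rw [irr_inv hχ, Complex.mul_conj']
      simp only [h5]
      ring
    exact_mod_cast h4
  rw [← h3]
  exact_mod_cast h2

open Classical in
/-- HINT: let `N` be such that `(L i).m + 1 ≤ N` for all `i` (`Finset.sup`). Sum `LnB_main` over the `j < p ^ N`
prime to `p`; there are `(p - 1) * p ^ (N - 1)` of them (`Four_card`). `LnB_s (L i) χ j y` has period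
`p ^ ((L i).m + 1)` in `j` (`(L i).hη`), so `LnS_period` and `LnF_main` give
`p^d ∑ j ∑ y ‖LnB_s‖ ^ 2 / |C i| = p ^ (N - 1) / 2 * ∑ r t t' bil ..`. `LnS_one` for the last term
(`defect χ = d`). Divide by `p ^ (N - 1)`. -/
theorem LnS_main {G : Type} [Group G] [Fintype G] (p : ℕ) (hp : p.Prime) (𝔪 : Ideal AInt)
    (h𝔪 : 𝔪.IsMaximal) (hp𝔪 : (p : AInt) ∈ 𝔪) (d : ℕ) {I : Type} [Fintype I] (w : I → G)
    (C : I → Subgroup G) [∀ i, Fintype (C i)] (ζ : ∀ i, C i → ℂ)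
    (L : ∀ i, Loc p 𝔪 (w i) (C i) (ζ i)) (hd : ∀ i, defect p (block 𝔪 (ζ i)) = d)
    (hnc : ∀ i j, i ≠ j → ∀ k : G, k * w i * k⁻¹ = w j →
      ¬ Cj 𝔪 k (C i).subtype (ζ i) (C j).subtype (ζ j))
    (χ : G → ℂ) (hχ : χ ∈ Irr G) (hdχ : defect p (block 𝔪 χ) = d) :
    ∑ i, ∑ r, ∑ t, ∑ t', bil (L i).M ((L i).a χ r t - (L i).a χ r t')
        ((L i).a χ r t - (L i).a χ r t') ≤
      2 * ((p : ℤ) - 1) * ((p : ℤ) ^ d - 1) := by
  set N : ℕ := Finset.univ.sup (fun i => (L i).m) with hN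
  have hmN : ∀ i, (L i).m ≤ N := fun i => Finset.le_sup (f := fun i => (L i).m) (Finset.mem_univ i)
  set J : Finset ℕ := (Finset.range (p * p ^ N)).filter (fun j => ¬ p ∣ j) with hJ
  have hppos : (0 : ℝ) < (p : ℝ) := by exact_mod_cast hp.pos
  have hpN : (0 : ℝ) < (p : ℝ) ^ N := pow_pos hppos N
  set S : I → ℕ → ℝ := fun i j => ∑ y : C i with ¬ p ∣ orderOf y, ‖LnB_s (L i) χ j y‖ ^ 2 with hS
  set B : I → ℝ := fun i => ∑ r, ∑ t, ∑ t',
    ((bil (L i).M ((L i).a χ r t - (L i).a χ r t') ((L i).a χ r t - (L i).a χ r t') : ℤ) : ℝ)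
    with hB
  have hper : ∀ i j, S i (j + p * p ^ (L i).m) = S i j := by
    intro i j
    simp only [hS]
    refine Finset.sum_congr rfl fun y _ => ?_
    have : LnB_s (L i) χ (j + p * p ^ (L i).m) y = LnB_s (L i) χ j y := by
      unfold LnB_s
      refine Finset.sum_congr rfl fun k _ => ?_
      rw [add_mul, pow_add, pow_mul (L i).η (p * p ^ (L i).m), (L i).hη.pow_eq_one, one_pow,
        mul_one]
    rw [this]
  have hone := LnS_one p hp 𝔪 h𝔪 hp𝔪 χ hχ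
  rw [hdχ] at hone
  -- the inequality for one `j`
  have hj1 : ∀ j ∈ J, ∑ i, (p : ℝ) ^ d / (Nat.card (C i) : ℝ) * S i j ≤ (p : ℝ) ^ d - 1 := by
    intro j hj
    rw [hJ, Finset.mem_filter] at hj
    have h1 := LnB_main p hp 𝔪 w C ζ L hnc χ hχ j hj.2
    have h2 : (p : ℝ) ^ d * (∑ i, S i j / (Nat.card (C i) : ℝ)) +
        (p : ℝ) ^ d * ((∑ g : G with ¬ p ∣ orderOf g, ‖χ g‖ ^ 2) / (Nat.card G : ℝ)) ≤
        (p : ℝ) ^ d := by
      rw [← mul_add]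
      calc _ ≤ (p : ℝ) ^ d * 1 := mul_le_mul_of_nonneg_left h1 (pow_pos hppos d).le
        _ = _ := mul_one _
    have h3 : ∑ i, (p : ℝ) ^ d / (Nat.card (C i) : ℝ) * S i j =
        (p : ℝ) ^ d * (∑ i, S i j / (Nat.card (C i) : ℝ)) := by
      rw [Finset.mul_sum]
      refine Finset.sum_congr rfl fun i _ => ?_
      ring
    rw [h3]
    linarith
  -- the sum over `j`
  have hsum : ∑ j ∈ J, ∑ i, (p : ℝ) ^ d / (Nat.card (C i) : ℝ) * S i j ≤
      (((p : ℝ) - 1) * (p : ℝ) ^ N) * ((p : ℝ) ^ d - 1) := by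
    refine (Finset.sum_le_sum hj1).trans (le_of_eq ?_)
    rw [Finset.sum_const, nsmul_eq_mul, hJ, Four_card p N hp]
    push_cast [Nat.cast_sub hp.one_lt.le]
    ring
  -- one section
  have hi : ∀ i, 2 * ∑ j ∈ J, (p : ℝ) ^ d / (Nat.card (C i) : ℝ) * S i j = (p : ℝ) ^ N * B i := by
    intro i
    have h1 := LnS_period p (p * p ^ (L i).m) (p ^ (N - (L i).m)) (dvd_mul_right _ _)
      (Nat.mul_pos hp.pos (pow_pos hp.pos _)) (S i) (hper i)
    have h2 : p * p ^ (L i).m * p ^ (N - (L i).m) = p * p ^ N := by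
      rw [mul_assoc, ← pow_add, Nat.add_sub_cancel' (hmN i)]
    rw [h2] at h1
    have h3 := LnF_main (L i) χ
    rw [hd i] at h3
    rw [← Finset.mul_sum, h1]
    have h4 : (p : ℝ) ^ N = (p : ℝ) ^ (N - (L i).m) * (p : ℝ) ^ (L i).m := by
      rw [← pow_add, Nat.sub_add_cancel (hmN i)]
    rw [h4, mul_assoc, ← h3]
    push_cast
    ring
  have hfin : (p : ℝ) ^ N * ∑ i, B i ≤ (p : ℝ) ^ N * (2 * ((p : ℝ) - 1) * ((p : ℝ) ^ d - 1)) := by
    rw [Finset.mul_sum]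
    simp only [← hi]
    rw [← Finset.mul_sum, Finset.sum_comm]
    linarith
  have hfin2 := le_of_mul_le_mul_left hfin hpN
  have hcast : ((∑ i, ∑ r, ∑ t, ∑ t', bil (L i).M ((L i).a χ r t - (L i).a χ r t')
        ((L i).a χ r t - (L i).a χ r t') : ℤ) : ℝ) ≤
      ((2 * ((p : ℤ) - 1) * ((p : ℤ) ^ d - 1) : ℤ) : ℝ) := by
    push_cast
    exact hfin2
  exact_mod_cast hcast

end Pool.Agent.KBQ
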