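import Pool.Agent.KBQ.Rig4T

/-! The number of the vectors with ratios of the same size. -/

namespace Pool.Agent.KBQ

/-- a multiple of `p` -/
private lemma Rig4G_mul {p w : ℤ} (hp : 0 < p) (h : p ∣ w) : p * |w| ≤ w ^ 2 := by
  obtain ⟨x, rfl⟩ := h
  rw [abs_mul, abs_of_pos hp, mul_pow]
  have h1 : |x| ≤ x ^ 2 := by
    rcases eq_or_ne x 0 with rfl | hx
    · simp
    · rw [← sq_abs]
      have : 1 ≤ |x| := Int.one_le_abs hx
      nlinarith
  nlinarith [mul_pos hp hp]

/-- few bad indices -/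
private lemma Rig4G_bad {I : Type} [Fintype I] [DecidableEq I] {n F p : ℕ} {κ : I → ℤ}
    {v : I → Fin n → ℤ}
    (h : RigHyp I n F p κ v) (hF0 : 0 < F) (hF : 11 * F ≤ p * Fintype.card I) (t : Fin n → ℚ)
    (ht0 : ∀ a, t a ≠ 0) (a b : Fin n) (α β : ℤ)
    (h2 : (α ^ 2 + β ^ 2) * Fintype.card I ≤ 2 * F) (hd : ∀ i, (p : ℤ) ∣ α * v i b - β * v i a)
    (ht : (α : ℚ) * t b = β * t a) :
    121 * ((Finset.univ.filter fun i => α * v i b ≠ β * v i a).card : ℚ) ≤
      2 * (Fintype.card I : ℚ) := by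
  classical
  rcases eq_or_ne a b with rfl | hab
  · have hαβ : (α : ℚ) = β := mul_right_cancel₀ (ht0 a) ht
    have hαβ' : α = β := by exact_mod_cast hαβ
    subst hαβ'
    simp
  · have h3 := Rig4T_bad h a b hab α β hd
    obtain ⟨N, hN⟩ : ∃ N : ℤ, N = (Fintype.card I : ℤ) := ⟨_, rfl⟩
    have hFZ : 11 * (F : ℤ) ≤ p * N := by rw [hN]; exact_mod_cast hF
    have hF0Z : 0 < (F : ℤ) := by exact_mod_cast hF0
    have hp0 : 0 < (p : ℤ) := by exact_mod_cast h.hp.pos
    have hN0 : 0 < N := by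
      by_contra hcon
      push Not at hcon
      nlinarith
    rw [← hN] at h2
    set c : ℤ := ((Finset.univ.filter fun i => α * v i b ≠ β * v i a).card : ℤ) with hc
    have h4 : c * p ^ 2 * N ≤ 2 * F ^ 2 := by
      calc c * p ^ 2 * N ≤ F * (α ^ 2 + β ^ 2) * N := mul_le_mul_of_nonneg_right h3 hN0.le
        _ = F * ((α ^ 2 + β ^ 2) * N) := by ring
        _ ≤ F * (2 * F) := mul_le_mul_of_nonneg_left h2 hF0Z.le
        _ = 2 * F ^ 2 := by ring
    have h5 : 121 * (F : ℤ) ^ 2 ≤ p ^ 2 * N ^ 2 := by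
      have := mul_self_le_mul_self (by positivity) hFZ
      nlinarith
    have h6 : (121 * c) * (p ^ 2 * N) ≤ (2 * N) * (p ^ 2 * N) := by nlinarith
    have h7 : 121 * c ≤ 2 * N := le_of_mul_le_mul_right h6 (by positivity)
    have h8 : ((121 * c : ℤ) : ℚ) ≤ ((2 * N : ℤ) : ℚ) := by exact_mod_cast h7
    rw [hc, hN] at h8
    push_cast at h8
    exact h8

/-- Proof. `N = |I|`, `m = |S|`, `τ = |t b|`. For `a ∈ S` take `α_a`, `β_a` for the pair `(b, a)` from
`ht` (so `α_a * t a = β_a * t b`), `r_a = t a / t b = β_a / α_a`, `1 ≤ |r_a| ≤ 2`, and let `A` be the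
maximum of the `α_a`, `a ∈ S`, attained at `a'`. Call `i` good if `α * v i b = β * v i a₀` for the pair
`(a₀, b)` and `α_{a'} * v i a' = β_{a'} * v i b`. For `a ≠ b` the number of the `i` with
`α * v i b ≠ β * v i a` times `p ^ 2 * N` is at most `2 * F ^ 2` (`Rig4T_bad`), so `121` times this number is
`≤ 2 * N` (`hF`); for `a = b` there is no such `i` (then `α * t a = β * t a`, `α = β`). So there are at
least `117 * N / 121` good `i`. For good `i`: `|v i b| ≥ τ` (`α * |v i b| = |β| * |v i a₀| ≥ |β| = α * τ`)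
and `|v i b| ≥ A` (`α_{a'}` divides `β_{a'} * v i b`, so it divides `v i b`).
Let `u i a = v i a - r_a * v i b` (rational): `α_a * u i a = α_a * v i a - β_a * v i b` is an integer
divisible by `p`, so `α_a * (u i a) ^ 2 ≥ p * |u i a|`, so `A * (u i a) ^ 2 ≥ p * |u i a|`. Let
`P i = ∑ a ∈ S, |u i a| / |r_a|`, `Q i = ∑ a ∈ S, (u i a) ^ 2 / |r_a|`, `y i = ∑ a ∈ S, v i a / r_a`. Then
`A * Q i ≥ p * P i` and `y i = m * v i b + ∑ a ∈ S, u i a / r_a`, so `|y i| ≥ m * |v i b| - P i`. For good `i`: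
if `P i ≤ m * |v i b| / 2` then `(y i) ^ 2 ≥ m ^ 2 * τ ^ 2 / 4`; otherwise `P i ≥ m * A / 2` and
`Q i ≥ p * m / 2`. So `1 ≤ 4 * (y i) ^ 2 / (m ^ 2 * τ ^ 2) + 2 * Q i / (p * m)` for good `i`. By
`Rig4T_bes` with `c = 1 / r_a` on `S`: `∑ i, (y i) ^ 2 ≤ F * m`; with `c = e_a - r_a * e_b` (for
`a = b`, `u i b = 0`): `∑ i, (u i a) ^ 2 ≤ F * (1 + r_a ^ 2)`, so `∑ i, Q i ≤ F * ∑ a ∈ S, (1 / |r_a| + |r_a|)
≤ 5 / 2 * F * m`. Hence `117 * N / 121 ≤ 4 * F / (m * τ ^ 2) + 5 * F / p`, and with `11 * F ≤ p * N`: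
`62 / 121 ≤ 4 * p / (11 * m * τ ^ 2)`, i.e. `31 * m * τ ^ 2 ≤ 22 * p`. -/
theorem Rig4G_main {I : Type} [Fintype I] {n F p : ℕ} {κ : I → ℤ} {v : I → Fin n → ℤ}
    (h : RigHyp I n F p κ v) (hF0 : 0 < F) (hF : 11 * F ≤ p * Fintype.card I) (t : Fin n → ℚ)
    (ht0 : ∀ a, t a ≠ 0)
    (ht : ∀ a b, ∃ α β : ℤ, 1 ≤ α ∧ β ≠ 0 ∧ IsCoprime α β ∧
      (α ^ 2 + β ^ 2) * Fintype.card I ≤ 2 * F ∧ (∀ i, (p : ℤ) ∣ α * v i b - β * v i a) ∧
      (α : ℚ) * t b = β * t a)
    (a₀ b : Fin n) (ha₀ : |t a₀| = 1) (S : Finset (Fin n)) (hb : b ∈ S)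
    (h1 : ∀ a ∈ S, |t b| ≤ |t a|) (h2 : ∀ a ∈ S, |t a| ≤ 2 * |t b|) :
    31 * (S.card : ℚ) * (t b) ^ 2 ≤ 22 * p := by
  classical
  obtain ⟨α0, β0, hα0, hβ0, hco0, hs0, hd0, ht0'⟩ := ht a₀ b
  choose α β hα hβ hco hs hd hαt using fun a => ht b a
  obtain ⟨a', ha'S, ha'max⟩ := S.exists_max_image α ⟨b, hb⟩
  -- notation
  obtain ⟨N, hN⟩ : ∃ N : ℚ, N = (Fintype.card I : ℚ) := ⟨_, rfl⟩
  have hpQ : (0 : ℚ) < p := by exact_mod_cast h.hp.pos
  have hpZ : (0 : ℤ) < p := by exact_mod_cast h.hp.pos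
  have hF0Q : (0 : ℚ) < F := by exact_mod_cast hF0
  have hFQ : 11 * (F : ℚ) ≤ p * N := by rw [hN]; exact_mod_cast hF
  have hN0 : 0 < N := by
    by_contra hcon
    push Not at hcon
    nlinarith
  obtain ⟨m, hm⟩ : ∃ m : ℚ, m = (S.card : ℚ) := ⟨_, rfl⟩
  have hm0 : 0 < m := by
    rw [hm]
    exact_mod_cast Finset.card_pos.mpr ⟨b, hb⟩
  have htb : 0 < |t b| := abs_pos.mpr (ht0 b)
  have htb2 : 0 < (t b) ^ 2 := by
    have := ht0 b
    positivity
  -- the ratios
  set r : Fin n → ℚ := fun a => (β a : ℚ) / α a with hr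
  have hαQ : ∀ a, (1 : ℚ) ≤ α a := fun a => by exact_mod_cast hα a
  have hαQ0 : ∀ a, (0 : ℚ) < α a := fun a => lt_of_lt_of_le one_pos (hαQ a)
  have hrt : ∀ a, t a = r a * t b := by
    intro a
    have := hαt a
    rw [hr]
    field_simp [(hαQ0 a).ne']
    linarith
  have hr0 : ∀ a, r a ≠ 0 := by
    intro a h0
    apply ht0 a
    rw [hrt a, h0, zero_mul]
  have hra : ∀ a, |t a| = |r a| * |t b| := fun a => by rw [← abs_mul, ← hrt a]
  have hr1 : ∀ a ∈ S, 1 ≤ |r a| := by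
    intro a ha
    have := h1 a ha
    rw [hra a] at this
    by_contra hcon
    push Not at hcon
    nlinarith
  have hr2 : ∀ a ∈ S, |r a| ≤ 2 := by
    intro a ha
    have := h2 a ha
    rw [hra a] at this
    exact le_of_mul_le_mul_right this htb
  have hrb : r b = 1 := by
    have h3 : r b * t b = 1 * t b := by rw [← hrt b, one_mul]
    exact mul_right_cancel₀ (ht0 b) h3
  -- the deviations
  set u : I → Fin n → ℚ := fun i a => (v i a : ℚ) - r a * v i b with hu
  have huα : ∀ i a, (α a : ℚ) * u i a = ((α a * v i a - β a * v i b : ℤ) : ℚ) := by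
    intro i a
    have h3 : (α a : ℚ) * r a = β a := by
      rw [hr]
      field_simp [(hαQ0 a).ne']
    have h4 : (α a : ℚ) * u i a = α a * v i a - (α a * r a) * v i b := by rw [hu]; ring
    rw [h4, h3]
    push_cast
    ring
  have hup : ∀ i, ∀ a ∈ S, (p : ℚ) * |u i a| ≤ (α a' : ℚ) * (u i a) ^ 2 := by
    intro i a ha
    have h3 := Rig4G_mul hpZ (hd a i)
    have h4 : (p : ℚ) * |(α a : ℚ) * u i a| ≤ ((α a : ℚ) * u i a) ^ 2 := by
      rw [huα]
      exact_mod_cast h3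
    rw [abs_mul, abs_of_pos (hαQ0 a), mul_pow] at h4
    have h5 : (α a : ℚ) * (p * |u i a|) ≤ (α a : ℚ) * (α a * (u i a) ^ 2) := by nlinarith
    have h6 := le_of_mul_le_mul_left h5 (hαQ0 a)
    have h7 : (α a : ℚ) ≤ α a' := by exact_mod_cast ha'max a ha
    exact h6.trans (mul_le_mul_of_nonneg_right h7 (sq_nonneg _))
  -- the sums
  set P : I → ℚ := fun i => ∑ a ∈ S, |u i a| / |r a| with hP
  set Q : I → ℚ := fun i => ∑ a ∈ S, (u i a) ^ 2 / |r a| with hQ
  set y : I → ℚ := fun i => ∑ a ∈ S, (v i a : ℚ) / r a with hy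
  have hQ0 : ∀ i, 0 ≤ Q i := fun i => Finset.sum_nonneg fun a _ => by positivity
  have hPQ : ∀ i, p * P i ≤ α a' * Q i := by
    intro i
    rw [hP, hQ]
    simp only
    rw [Finset.mul_sum, Finset.mul_sum]
    refine Finset.sum_le_sum fun a ha => ?_
    have h3 := hup i a ha
    have h4 : 0 < |r a| := abs_pos.mpr (hr0 a)
    rw [← mul_div_assoc, ← mul_div_assoc]
    exact div_le_div_of_nonneg_right h3 h4.le
  have hyP : ∀ i, m * |(v i b : ℚ)| - P i ≤ |y i| := by
    intro i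
    have h3 : y i = m * v i b + ∑ a ∈ S, u i a / r a := by
      rw [hy, hm]
      simp only
      rw [← nsmul_eq_mul, ← Finset.sum_const, ← Finset.sum_add_distrib]
      refine Finset.sum_congr rfl fun a _ => ?_
      rw [hu]
      field_simp [hr0 a]
      ring
    have h4 : |∑ a ∈ S, u i a / r a| ≤ P i := by
      refine (Finset.abs_sum_le_sum_abs _ _).trans ?_
      rw [hP]
      refine Finset.sum_le_sum fun a _ => ?_
      rw [abs_div]
    have h5 : m * |(v i b : ℚ)| = |m * (v i b : ℚ)| := by rw [abs_mul, abs_of_pos hm0]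
    rw [h3, h5]
    have h6 := abs_sub_abs_le_abs_sub (m * (v i b : ℚ)) (-(∑ a ∈ S, u i a / r a))
    rw [abs_neg, sub_neg_eq_add] at h6
    linarith
  -- the good indices
  set G : Finset I := Finset.univ.filter fun i =>
    α0 * v i b = β0 * v i a₀ ∧ α a' * v i a' = β a' * v i b with hG
  have hGcard : 117 * N ≤ 121 * (G.card : ℚ) := by
    have h3 := Rig4G_bad h hF0 hF t ht0 a₀ b α0 β0 hs0 hd0 ht0'
    have h4 := Rig4G_bad h hF0 hF t ht0 b a' (α a') (β a') (hs a') (hd a') (hαt a')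
    have h5 : (Finset.univ : Finset I) ⊆ G ∪ ((Finset.univ.filter fun i => α0 * v i b ≠ β0 * v i a₀) ∪
        (Finset.univ.filter fun i => α a' * v i a' ≠ β a' * v i b)) := by
      intro i _
      rw [hG]
      simp only [Finset.mem_union, Finset.mem_filter, Finset.mem_univ, true_and]
      by_cases e1 : α0 * v i b = β0 * v i a₀
      · by_cases e2 : α a' * v i a' = β a' * v i b
        · exact Or.inl ⟨e1, e2⟩
        · exact Or.inr (Or.inr e2)
      · exact Or.inr (Or.inl e1)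
    have h6 := (Finset.card_le_card h5).trans ((Finset.card_union_le _ _).trans
      (Nat.add_le_add_left (Finset.card_union_le _ _) _))
    rw [Finset.card_univ] at h6
    have h7 : N ≤ G.card + (((Finset.univ.filter fun i => α0 * v i b ≠ β0 * v i a₀).card : ℚ) +
        ((Finset.univ.filter fun i => α a' * v i a' ≠ β a' * v i b).card : ℚ)) := by
      rw [hN]
      exact_mod_cast h6
    rw [← hN] at h3 h4
    linarith
  have hgood : ∀ i ∈ G, 1 ≤ 4 * (y i) ^ 2 / (m ^ 2 * (t b) ^ 2) + 2 * Q i / (p * m) := by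
    intro i hi
    rw [hG, Finset.mem_filter] at hi
    obtain ⟨-, e1, e2⟩ := hi
    have hvb : |t b| ≤ |(v i b : ℚ)| := by
      have h3 : (α0 : ℚ) * |(v i b : ℚ)| = |(β0 : ℚ)| * |(v i a₀ : ℚ)| := by
        have h4 : (α0 : ℚ) * (v i b : ℚ) = β0 * v i a₀ := by exact_mod_cast e1
        have h5 : (0 : ℚ) < α0 := by exact_mod_cast (lt_of_lt_of_le one_pos hα0)
        rw [← abs_mul, ← h4, abs_mul, abs_of_pos h5]
      have h4 : (α0 : ℚ) * |t b| = |(β0 : ℚ)| := by
        have h5 : (0 : ℚ) < α0 := by exact_mod_cast (lt_of_lt_of_le one_pos hα0)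
        have h6 : |(α0 : ℚ) * t b| = |(β0 : ℚ) * t a₀| := by rw [ht0']
        rwa [abs_mul, abs_mul, abs_of_pos h5, ha₀, mul_one] at h6
      have h5 : (1 : ℚ) ≤ |(v i a₀ : ℚ)| := by
        have := Int.one_le_abs (h.hv i a₀)
        exact_mod_cast this
      have h6 : (0 : ℚ) < α0 := by exact_mod_cast (lt_of_lt_of_le one_pos hα0)
      have h7 : (α0 : ℚ) * |t b| ≤ α0 * |(v i b : ℚ)| := by
        rw [h3, h4]
        exact le_mul_of_one_le_right (abs_nonneg _) h5
      exact le_of_mul_le_mul_left h7 h6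
    have hvA : (α a' : ℚ) ≤ |(v i b : ℚ)| := by
      have h3 : α a' ∣ β a' * v i b := ⟨v i a', e2.symm⟩
      have h4 : α a' ∣ v i b := (hco a').dvd_of_dvd_mul_left h3
      have h5 := Int.le_of_dvd (abs_pos.mpr (h.hv i b)) ((dvd_abs _ _).mpr h4)
      exact_mod_cast h5
    have hmt : 0 < m ^ 2 * (t b) ^ 2 := by positivity
    have hpm : 0 < (p : ℚ) * m := by positivity
    by_cases hcase : P i ≤ m * |(v i b : ℚ)| / 2
    · have h3 : m * |t b| / 2 ≤ |y i| := by
        have := hyP i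
        have h4 : m * |t b| ≤ m * |(v i b : ℚ)| := mul_le_mul_of_nonneg_left hvb hm0.le
        linarith
      have h4 : m ^ 2 * (t b) ^ 2 ≤ 4 * (y i) ^ 2 := by
        have h5 := mul_self_le_mul_self (by positivity) h3
        rw [← sq_abs (y i), ← sq_abs (t b)]
        nlinarith
      have h5 : 1 ≤ 4 * (y i) ^ 2 / (m ^ 2 * (t b) ^ 2) := by
        rw [le_div_iff₀ hmt, one_mul]
        exact h4
      have h6 : 0 ≤ 2 * Q i / (p * m) := by
        have := hQ0 i
        positivity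
      linarith
    · push Not at hcase
      have h3 : (p : ℚ) * m * α a' ≤ 2 * (α a' * Q i) := by
        have h4 := hPQ i
        have h5 : m * α a' ≤ m * |(v i b : ℚ)| := mul_le_mul_of_nonneg_left hvA hm0.le
        nlinarith
      have h4 : (p : ℚ) * m ≤ 2 * Q i := by
        have h5 : (p : ℚ) * m * α a' ≤ 2 * Q i * α a' := by linarith
        exact le_of_mul_le_mul_right h5 (hαQ0 a')
      have h5 : 1 ≤ 2 * Q i / (p * m) := by
        rw [le_div_iff₀ hpm, one_mul]
        exact h4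
      have h6 : 0 ≤ 4 * (y i) ^ 2 / (m ^ 2 * (t b) ^ 2) := by positivity
      linarith
  -- the two second moments
  have hsy : ∑ i, (y i) ^ 2 ≤ F * m := by
    have h3 := Rig4T_bes h (fun a => if a ∈ S then 1 / r a else 0)
    have h4 : ∀ i, (∑ a, (if a ∈ S then 1 / r a else 0) * (v i a : ℚ)) = y i := by
      intro i
      rw [hy]
      simp only [ite_mul, zero_mul]
      rw [Finset.sum_ite_mem, Finset.univ_inter]
      refine Finset.sum_congr rfl fun a _ => ?_
      ring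
    simp only [h4] at h3
    refine h3.trans (mul_le_mul_of_nonneg_left ?_ hF0Q.le)
    have h5 : ∀ a, (if a ∈ S then 1 / r a else 0) ^ 2 = if a ∈ S then (1 / r a) ^ 2 else 0 := by
      intro a
      split_ifs <;> simp
    simp only [h5]
    rw [Finset.sum_ite_mem, Finset.univ_inter, hm]
    have h6 : ∑ a ∈ S, (1 / r a) ^ 2 ≤ ∑ a ∈ S, (1 : ℚ) := by
      refine Finset.sum_le_sum fun a ha => ?_
      have h7 := hr1 a ha
      rw [div_pow, one_pow, ← sq_abs, div_le_one (by positivity)]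
      nlinarith
    simpa using h6
  have hsu : ∀ a, ∑ i, (u i a) ^ 2 ≤ F * (1 + (r a) ^ 2) := by
    intro a
    rcases eq_or_ne a b with rfl | hab
    · have h3 : ∀ i, u i a = 0 := by
        intro i
        rw [hu]
        simp only
        rw [hrb]
        ring
      simp only [h3]
      have : (0 : ℚ) ≤ F * (1 + (r a) ^ 2) := by positivity
      simpa using this
    · have h3 := Rig4T_bes h (fun x => (if x = a then 1 else 0) + (if x = b then -(r a) else 0))
      have h4 : ∀ i, (∑ x, ((if x = a then 1 else 0) + (if x = b then -(r a) else 0)) *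
          (v i x : ℚ)) = u i a := by
        intro i
        rw [hu]
        simp only [add_mul, Finset.sum_add_distrib, ite_mul, zero_mul, one_mul, Finset.sum_ite_eq',
          Finset.mem_univ, if_true]
        ring
      have h5 : ∑ x, ((if x = a then (1 : ℚ) else 0) + (if x = b then -(r a) else 0)) ^ 2 =
          1 + (r a) ^ 2 := by
        have h6 : ∀ x, ((if x = a then (1 : ℚ) else 0) + (if x = b then -(r a) else 0)) ^ 2 =
            (if x = a then 1 else 0) + (if x = b then (r a) ^ 2 else 0) := by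
          intro x
          by_cases h7 : x = a
          · have h8 : x ≠ b := fun h9 => hab (h7.symm.trans h9)
            simp [h7, hab]
          · simp [h7]
        simp only [h6, Finset.sum_add_distrib, Finset.sum_ite_eq', Finset.mem_univ, if_true]
      simp only [h4] at h3
      rw [h5] at h3
      exact h3
  have hsQ : ∑ i, Q i ≤ 5 / 2 * F * m := by
    have h3 : ∑ i, Q i = ∑ a ∈ S, (∑ i, (u i a) ^ 2) / |r a| := by
      rw [hQ, Finset.sum_comm]
      refine Finset.sum_congr rfl fun a _ => ?_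
      rw [Finset.sum_div]
    rw [h3]
    have h4 : ∀ a ∈ S, (∑ i, (u i a) ^ 2) / |r a| ≤ 5 / 2 * F := by
      intro a ha
      have h5 := hsu a
      have h6 := hr1 a ha
      have h7 := hr2 a ha
      have h8 : 0 < |r a| := by linarith
      rw [div_le_iff₀ h8]
      refine h5.trans ?_
      rw [← sq_abs (r a)]
      have h9 : 1 + |r a| ^ 2 ≤ 5 / 2 * |r a| := by nlinarith
      nlinarith
    refine (Finset.sum_le_sum h4).trans ?_
    rw [Finset.sum_const, nsmul_eq_mul, ← hm]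
    exact le_of_eq (by ring)
  -- conclusion
  have hfin : (G.card : ℚ) ≤ 4 * F / (m * (t b) ^ 2) + 5 * F / p := by
    have h3 : (G.card : ℚ) ≤ ∑ i ∈ G, (4 * (y i) ^ 2 / (m ^ 2 * (t b) ^ 2) + 2 * Q i / (p * m)) := by
      rw [Finset.card_eq_sum_ones]
      push_cast
      exact Finset.sum_le_sum hgood
    have h4 : ∑ i ∈ G, (4 * (y i) ^ 2 / (m ^ 2 * (t b) ^ 2) + 2 * Q i / (p * m)) ≤
        ∑ i, (4 * (y i) ^ 2 / (m ^ 2 * (t b) ^ 2) + 2 * Q i / (p * m)) := by
      refine Finset.sum_le_sum_of_subset_of_nonneg (Finset.subset_univ _) fun i _ _ => ?_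
      have := hQ0 i
      positivity
    have h5 : ∑ i, (4 * (y i) ^ 2 / (m ^ 2 * (t b) ^ 2) + 2 * Q i / (p * m)) =
        4 / (m ^ 2 * (t b) ^ 2) * (∑ i, (y i) ^ 2) + 2 / (p * m) * ∑ i, Q i := by
      rw [Finset.sum_add_distrib, Finset.mul_sum, Finset.mul_sum]
      congr 1
      · refine Finset.sum_congr rfl fun i _ => ?_
        ring
      · refine Finset.sum_congr rfl fun i _ => ?_
        ring
    have h6 : 4 / (m ^ 2 * (t b) ^ 2) * (∑ i, (y i) ^ 2) ≤ 4 / (m ^ 2 * (t b) ^ 2) * (F * m) :=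
      mul_le_mul_of_nonneg_left hsy (by positivity)
    have h7 : 2 / (p * m) * ∑ i, Q i ≤ 2 / (p * m) * (5 / 2 * F * m) :=
      mul_le_mul_of_nonneg_left hsQ (by positivity)
    have h8 : 4 / (m ^ 2 * (t b) ^ 2) * (F * m) = 4 * F / (m * (t b) ^ 2) := by
      field_simp
    have h9 : 2 / (p * m) * (5 / 2 * F * m) = 5 * F / p := by
      field_simp
    rw [h8] at h6
    rw [h9] at h7
    linarith [h3, h4, h5.le]
  have h3 : 5 * (F : ℚ) / p ≤ 5 * N / 11 := by
    rw [div_le_div_iff₀ hpQ (by norm_num)]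
    nlinarith
  have h4 : 4 * (F : ℚ) / (m * (t b) ^ 2) ≤ 4 * (p * N / 11) / (m * (t b) ^ 2) := by
    refine div_le_div_of_nonneg_right ?_ (by positivity)
    linarith
  have h5 : 62 / 121 * N ≤ 4 * (p * N / 11) / (m * (t b) ^ 2) := by linarith
  rw [le_div_iff₀ (by positivity)] at h5
  rw [← hm]
  have h6 : N * (31 * m * (t b) ^ 2) ≤ N * (22 * p) := by nlinarith
  exact le_of_mul_le_mul_left h6 hN0

end Pool.Agent.KBQ
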