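import Mathlib

/-! Vectors which are parallel modulo `p` and satisfy a Bessel inequality: the ratios. -/

namespace Pool.Agent.KBQ

/-- The hypotheses: `κ i ≥ 1` prime to `p`, nonzero integers `v i a`, the congruences between the
matrices `κ i * v i a * v i b`, and the Bessel inequality. -/
structure RigHyp (I : Type) [Fintype I] (n F p : ℕ) (κ : I → ℤ) (v : I → Fin n → ℤ) : Prop where
  hp : p.Prime
  hκ : ∀ i, 1 ≤ κ i
  hκp : ∀ i, ¬ (p : ℤ) ∣ κ i
  hv : ∀ i a, v i a ≠ 0
  cross : ∀ i j a b c d, (p : ℤ) ∣ (κ i * v i a * v i b) * (κ j * v j c * v j d) -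
    (κ i * v i a * v i d) * (κ j * v j c * v j b)
  bes : ∀ c : Fin n → ℤ, ∑ i, κ i * (∑ a, c a * v i a) ^ 2 ≤ F * ∑ a, c a ^ 2

/-- The Bessel inequality for integers without `κ`. -/
theorem Rig4T_besZ {I : Type} [Fintype I] {n F p : ℕ} {κ : I → ℤ} {v : I → Fin n → ℤ}
    (h : RigHyp I n F p κ v) (c : Fin n → ℤ) :
    ∑ i, (∑ a, c a * v i a) ^ 2 ≤ F * ∑ a, c a ^ 2 :=
  (Finset.sum_le_sum fun i _ => le_mul_of_one_le_left (sq_nonneg _) (h.hκ i)).trans (h.bes c)

/-- The Bessel inequality for rational coefficients. Proof: multiply by a common denominator;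
`κ i ≥ 1`. -/
theorem Rig4T_bes {I : Type} [Fintype I] {n F p : ℕ} {κ : I → ℤ} {v : I → Fin n → ℤ}
    (h : RigHyp I n F p κ v) (c : Fin n → ℚ) :
    ∑ i, (∑ a, c a * (v i a : ℚ)) ^ 2 ≤ F * ∑ a, c a ^ 2 := by
  classical
  obtain ⟨N, z, hN, hz⟩ : ∃ (N : ℕ) (z : Fin n → ℤ), 0 < N ∧ ∀ a, (N : ℚ) * c a = z a := by
    refine ⟨∏ a, (c a).den, fun a => (c a).num * ((∏ b ∈ Finset.univ.erase a, (c b).den : ℕ) : ℤ),
      Finset.prod_pos fun a _ => (c a).pos, fun a => ?_⟩
    rw [← Finset.mul_prod_erase Finset.univ _ (Finset.mem_univ a)]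
    push_cast
    have h1 : ((c a).den : ℚ) * c a = (c a).num := by
      rw [mul_comm]
      exact Rat.mul_den_eq_num (c a)
    rw [mul_right_comm, h1]
  have h1 := Rig4T_besZ h z
  have h2 : (∑ i, (∑ a, (z a : ℚ) * (v i a : ℚ)) ^ 2) ≤ F * ∑ a, (z a : ℚ) ^ 2 := by
    exact_mod_cast h1
  have hN' : (0 : ℚ) < N := by exact_mod_cast hN
  have h3 : (N : ℚ) ^ 2 * (∑ i, (∑ a, c a * (v i a : ℚ)) ^ 2) ≤
      (N : ℚ) ^ 2 * (F * ∑ a, c a ^ 2) := by
    calc (N : ℚ) ^ 2 * (∑ i, (∑ a, c a * (v i a : ℚ)) ^ 2)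
        = ∑ i, (∑ a, (z a : ℚ) * (v i a : ℚ)) ^ 2 := by
          rw [Finset.mul_sum]
          refine Finset.sum_congr rfl fun i _ => ?_
          rw [← mul_pow, Finset.mul_sum]
          congr 1
          refine Finset.sum_congr rfl fun a _ => ?_
          rw [← hz a]
          ring
      _ ≤ F * ∑ a, (z a : ℚ) ^ 2 := h2
      _ = (N : ℚ) ^ 2 * (F * ∑ a, c a ^ 2) := by
          rw [Finset.mul_sum, Finset.mul_sum, Finset.mul_sum]
          refine Finset.sum_congr rfl fun a _ => ?_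
          rw [← hz a]
          ring
  exact le_of_mul_le_mul_left h3 (by positivity)

/-- Bessel with one coefficient. -/
theorem Rig4T_one {I : Type} [Fintype I] {n F p : ℕ} {κ : I → ℤ} {v : I → Fin n → ℤ}
    (h : RigHyp I n F p κ v) (a : Fin n) : ∑ i, (v i a) ^ 2 ≤ F := by
  classical
  have h1 := Rig4T_besZ h (fun x => if x = a then 1 else 0)
  simpa using h1

/-- Proof: Bessel with `c = e_a` and `c = e_b` gives `∑ i, (v i a ^ 2 + v i b ^ 2) ≤ 2 * F`, so
some `j` has `(v j a ^ 2 + v j b ^ 2) * |I| ≤ 2 * F` (so `|v j a|, |v j b| < p` as `2 * F < p * |I|`,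
and both are prime to `p`). Let `g = gcd (v j a) (v j b)`, `α = ± v j a / g ≥ 1`, `β = ± v j b / g`. For
all `i` let `X = v i b * v j a - v i a * v j b`; `cross i j x b a a` (with `c = a`, `d = a`) says
`p ∣ κ i * κ j * v i x * v j a * X` for `x = a` and `x = b`, so `p ∣ v i a * X` and `p ∣ v i b * X`, so
`p ∣ X` (if `p` divides both `v i a` and `v i b` then `p ∣ X` trivially), and `X = ± g * (α * v i b - β * v i a)`
with `p ∤ g`. -/
theorem Rig4T_pair {I : Type} [Fintype I] {n F p : ℕ} {κ : I → ℤ} {v : I → Fin n → ℤ}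
    (h : RigHyp I n F p κ v) (hF0 : 0 < F) (hF : 3 * F ≤ p * Fintype.card I) (a b : Fin n) :
    ∃ α β : ℤ, 1 ≤ α ∧ β ≠ 0 ∧ IsCoprime α β ∧ (α ^ 2 + β ^ 2) * Fintype.card I ≤ 2 * F ∧
      ∀ i, (p : ℤ) ∣ α * v i b - β * v i a := by
  classical
  have hpP : Prime (p : ℤ) := Nat.prime_iff_prime_int.mp h.hp
  have hN0 : 0 < Fintype.card I := by
    rcases Nat.eq_zero_or_pos (Fintype.card I) with h0 | h0
    · rw [h0, mul_zero] at hF
      omega
    · exact h0
  obtain ⟨N, hN⟩ : ∃ N : ℤ, N = (Fintype.card I : ℤ) := ⟨_, rfl⟩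
  have hN1 : 0 < N := by rw [hN]; exact_mod_cast hN0
  have hFZ : 3 * (F : ℤ) ≤ p * N := by rw [hN]; exact_mod_cast hF
  have hF0Z : 0 < (F : ℤ) := by exact_mod_cast hF0
  obtain ⟨j, hj⟩ : ∃ j, (v j a ^ 2 + v j b ^ 2) * N ≤ 2 * F := by
    by_contra hcon
    push Not at hcon
    have h1 : ∑ i : I, (2 * (F : ℤ)) < ∑ i : I, (v i a ^ 2 + v i b ^ 2) * N := by
      refine Finset.sum_lt_sum_of_nonempty ?_ fun i _ => hcon i
      exact Finset.univ_nonempty_iff.2 (Fintype.card_pos_iff.1 hN0)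
    rw [Finset.sum_const, Finset.card_univ, nsmul_eq_mul, ← hN, ← Finset.sum_mul,
      Finset.sum_add_distrib] at h1
    have h2 := Rig4T_one h a
    have h3 := Rig4T_one h b
    nlinarith
  -- both values are prime to `p`
  have hpj : ∀ x, x ≠ 0 → x ^ 2 * N ≤ 2 * F → ¬ (p : ℤ) ∣ x := by
    intro x hx0 hx hdvd
    have h1 : (p : ℤ) ≤ |x| := by
      have := Int.le_of_dvd (abs_pos.2 hx0) ((dvd_abs _ _).2 hdvd)
      exact this
    have hp1 : (1 : ℤ) ≤ p := by exact_mod_cast h.hp.one_lt.le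
    have h2 : (p : ℤ) ≤ x ^ 2 := by
      rw [← sq_abs]
      nlinarith
    nlinarith
  have hja := hpj (v j a) (h.hv j a) (by nlinarith [sq_nonneg (v j b)])
  have hjb := hpj (v j b) (h.hv j b) (by nlinarith [sq_nonneg (v j a)])
  have hX : ∀ i, (p : ℤ) ∣ v i b * v j a - v i a * v j b := by
    intro i
    have h1 : ∀ x, (p : ℤ) ∣ v i x * (v i b * v j a - v i a * v j b) := by
      intro x
      have h2 := h.cross i j x b a a
      have e : (κ i * v i x * v i b) * (κ j * v j a * v j a) -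
          (κ i * v i x * v i a) * (κ j * v j a * v j b) =
          κ i * (κ j * (v j a * (v i x * (v i b * v j a - v i a * v j b)))) := by ring
      rw [e] at h2
      have h3 := (hpP.dvd_or_dvd h2).resolve_left (h.hκp i)
      have h4 := (hpP.dvd_or_dvd h3).resolve_left (h.hκp j)
      exact (hpP.dvd_or_dvd h4).resolve_left hja
    by_cases hia : (p : ℤ) ∣ v i a
    · rcases hpP.dvd_or_dvd (h1 b) with h2 | h2
      · exact dvd_sub (Dvd.dvd.mul_right h2 _) (Dvd.dvd.mul_right hia _)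
      · exact h2
    · exact (hpP.dvd_or_dvd (h1 a)).resolve_left hia
  -- the coprime pair
  obtain ⟨g, hg⟩ : ∃ g : ℤ, g = Int.gcd (v j a) (v j b) := ⟨_, rfl⟩
  obtain ⟨x, hx⟩ : g ∣ v j a := hg ▸ Int.gcd_dvd_left _ _
  obtain ⟨y, hy⟩ : g ∣ v j b := hg ▸ Int.gcd_dvd_right _ _
  have hg1 : g ≠ 0 := by
    intro h0
    rw [h0, zero_mul] at hx
    exact h.hv j a hx
  have hcop : IsCoprime x y := by
    refine ⟨Int.gcdA (v j a) (v j b), Int.gcdB (v j a) (v j b), ?_⟩
    have h1 := Int.gcd_eq_gcd_ab (v j a) (v j b)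
    rw [← hg] at h1
    have h2 : g * (Int.gcdA (v j a) (v j b) * x + Int.gcdB (v j a) (v j b) * y) = g * 1 := by
      calc g * (Int.gcdA (v j a) (v j b) * x + Int.gcdB (v j a) (v j b) * y)
          = (g * x) * Int.gcdA (v j a) (v j b) + (g * y) * Int.gcdB (v j a) (v j b) := by ring
        _ = v j a * Int.gcdA (v j a) (v j b) + v j b * Int.gcdB (v j a) (v j b) := by
            rw [← hx, ← hy]
        _ = g * 1 := by rw [← h1, mul_one]
    exact mul_left_cancel₀ hg1 h2
  have hx0 : x ≠ 0 := by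
    intro h0
    rw [h0, mul_zero] at hx
    exact h.hv j a hx
  have hy0 : y ≠ 0 := by
    intro h0
    rw [h0, mul_zero] at hy
    exact h.hv j b hy
  have hgp : ¬ (p : ℤ) ∣ g := by
    intro hdvd
    apply hja
    rw [hx]
    exact Dvd.dvd.mul_right hdvd _
  have hxy : (x ^ 2 + y ^ 2) * N ≤ 2 * F := by
    have h1 : (x ^ 2 + y ^ 2) ≤ v j a ^ 2 + v j b ^ 2 := by
      rw [hx, hy]
      have h2 : 1 ≤ g ^ 2 := by
        have : 0 < g ^ 2 := by positivity
        omega
      have h3 : 0 ≤ x ^ 2 + y ^ 2 := by positivity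
      calc x ^ 2 + y ^ 2 = 1 * (x ^ 2 + y ^ 2) := (one_mul _).symm
        _ ≤ g ^ 2 * (x ^ 2 + y ^ 2) := mul_le_mul_of_nonneg_right h2 h3
        _ = _ := by ring
    exact (mul_le_mul_of_nonneg_right h1 hN1.le).trans hj
  have hdv : ∀ i, (p : ℤ) ∣ x * v i b - y * v i a := by
    intro i
    have h1 := hX i
    have e : v i b * v j a - v i a * v j b = g * (x * v i b - y * v i a) := by
      rw [hx, hy]
      ring
    rw [e] at h1
    exact (hpP.dvd_or_dvd h1).resolve_left hgp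
  rcases lt_or_gt_of_ne hx0 with hneg | hpos
  · refine ⟨-x, -y, by omega, by simpa using hy0, ?_, ?_, fun i => ?_⟩
    · exact hcop.neg_neg
    · rw [neg_sq, neg_sq, ← hN]
      exact hxy
    · have e : -x * v i b - -y * v i a = -(x * v i b - y * v i a) := by ring
      rw [e]
      exact (dvd_neg).2 (hdv i)
  · refine ⟨x, y, by omega, hy0, hcop, ?_, hdv⟩
    rw [← hN]
    exact hxy

open Classical in
/-- Proof: Bessel with `c = α * e_b - β * e_a` (for `a = b` with `c = (α - β) * e_a`; note that then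
`(α - β) ^ 2 ≤ ...` is NOT needed: if `a = b` then `p ∣ (α - β) * v i a` for all `i`; treat it by
Bessel with `c = (α - β) e_a` only if `α β ≥ 0`; to avoid this, `a ≠ b` is assumed). For `i` in the set
the integer `α * v i b - β * v i a` is a nonzero multiple of `p`, so its square is at least `p ^ 2`. -/
theorem Rig4T_bad {I : Type} [Fintype I] {n F p : ℕ} {κ : I → ℤ} {v : I → Fin n → ℤ}
    (h : RigHyp I n F p κ v) (a b : Fin n) (hab : a ≠ b) (α β : ℤ)
    (hd : ∀ i, (p : ℤ) ∣ α * v i b - β * v i a) :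
    ((Finset.univ.filter fun i => α * v i b ≠ β * v i a).card : ℤ) * p ^ 2 ≤
      F * (α ^ 2 + β ^ 2) := by
  have h1 := Rig4T_besZ h (fun x => (if x = b then α else 0) + (if x = a then -β else 0))
  have h2 : ∀ i, (∑ x, ((if x = b then α else 0) + (if x = a then -β else 0)) * v i x) =
      α * v i b - β * v i a := by
    intro i
    simp only [add_mul, Finset.sum_add_distrib, ite_mul, zero_mul, Finset.sum_ite_eq',
      Finset.mem_univ, if_true]
    ring
  have h3 : ∑ x, ((if x = b then α else 0) + (if x = a then -β else 0)) ^ 2 = α ^ 2 + β ^ 2 := by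
    have h4 : ∀ x, ((if x = b then α else 0) + (if x = a then -β else 0)) ^ 2 =
        (if x = b then α ^ 2 else 0) + (if x = a then β ^ 2 else 0) := by
      intro x
      by_cases h5 : x = b
      · have h6 : x ≠ a := fun h7 => hab (h7.symm.trans h5)
        simp [h5, Ne.symm hab]
      · simp [h5]
    simp only [h4, Finset.sum_add_distrib, Finset.sum_ite_eq', Finset.mem_univ, if_true]
  rw [h3] at h1
  refine le_trans ?_ h1
  rw [← nsmul_eq_mul, ← Finset.sum_const]
  calc ∑ i ∈ Finset.univ.filter (fun i => α * v i b ≠ β * v i a), (p : ℤ) ^ 2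
      ≤ ∑ i ∈ Finset.univ.filter (fun i => α * v i b ≠ β * v i a),
        (∑ x, ((if x = b then α else 0) + (if x = a then -β else 0)) * v i x) ^ 2 := by
        refine Finset.sum_le_sum fun i hi => ?_
        rw [h2]
        have h4 := (Finset.mem_filter.1 hi).2
        have h5 : α * v i b - β * v i a ≠ 0 := sub_ne_zero.2 h4
        have h6 : (p : ℤ) ≤ |α * v i b - β * v i a| :=
          Int.le_of_dvd (abs_pos.2 h5) ((dvd_abs _ _).2 (hd i))
        rw [← sq_abs (α * v i b - β * v i a)]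
        exact pow_le_pow_left₀ (by positivity) h6 2
    _ ≤ _ := Finset.sum_le_sum_of_subset_of_nonneg (Finset.subset_univ _)
        fun i _ _ => sq_nonneg _

/-- Proof: if `n = 0` trivial; otherwise let `0 : Fin n` be the first index. For every pair take
`α`, `β` from `Rig4T_pair`; for `a = b` choose `α = β = 1` (for `a = b` the pair `(1, 1)` satisfies
everything as `2 * |I| ≤ 2 * F` follows from Bessel with `e_a`, `v i a ≠ 0`). `t a = β / α` for the pair
`(0, a)`. Given `a`, `b`, the sets of the `i` with `α * v i b ≠ β * v i a` for the pairs `(0, a)`,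
`(0, b)`, `(a, b)` have together less than `|I|` elements (`Rig4T_bad`, `(α ^ 2 + β ^ 2) * |I| ≤ 2 * F`,
`9 * F ^ 2 ≤ p ^ 2 * |I| ^ 2`: `3 * 2 * F ^ 2 < p ^ 2 * |I| ^ 2`), so there is a common good `i`, for which
`v i a = t a * v i 0`, `v i b = t b * v i 0`, `α * v i b = β * v i a`. -/
theorem Rig4T_main {I : Type} [Fintype I] {n F p : ℕ} {κ : I → ℤ} {v : I → Fin n → ℤ}
    (h : RigHyp I n F p κ v) (hF0 : 0 < F) (hF : 3 * F ≤ p * Fintype.card I) :
    ∃ t : Fin n → ℚ, (∀ a, t a ≠ 0) ∧ ∀ a b, ∃ α β : ℤ, 1 ≤ α ∧ β ≠ 0 ∧ IsCoprime α β ∧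
      (α ^ 2 + β ^ 2) * Fintype.card I ≤ 2 * F ∧ (∀ i, (p : ℤ) ∣ α * v i b - β * v i a) ∧
      (α : ℚ) * t b = β * t a := by
  classical
  rcases Nat.eq_zero_or_pos n with h0 | hpos
  · subst h0
    exact ⟨fun a => a.elim0, fun a => a.elim0, fun a => a.elim0⟩
  obtain ⟨o, -⟩ : ∃ o : Fin n, o = ⟨0, hpos⟩ := ⟨_, rfl⟩
  have hN0 : 0 < Fintype.card I := by
    rcases Nat.eq_zero_or_pos (Fintype.card I) with h0 | h0
    · rw [h0, mul_zero] at hF
      omega
    · exact h0
  -- the pairs, with no bad elements on the diagonal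
  have hpair : ∀ a b, ∃ α β : ℤ, (1 ≤ α ∧ β ≠ 0 ∧ IsCoprime α β ∧
      (α ^ 2 + β ^ 2) * Fintype.card I ≤ 2 * F ∧ ∀ i, (p : ℤ) ∣ α * v i b - β * v i a) ∧
      ((Finset.univ.filter fun i => α * v i b ≠ β * v i a).card : ℤ) * p ^ 2 ≤
      F * (α ^ 2 + β ^ 2) := by
    intro a b
    by_cases hab : a = b
    · subst hab
      refine ⟨1, 1, ⟨le_rfl, one_ne_zero, isCoprime_one_left, ?_, fun i => by simp⟩, ?_⟩
      · have h1 := Rig4T_one h a
        have h2 : ((Fintype.card I : ℕ) : ℤ) ≤ ∑ i, (v i a) ^ 2 := by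
          have h3 : ∑ i : I, (1 : ℤ) ≤ ∑ i, (v i a) ^ 2 := by
            refine Finset.sum_le_sum fun i _ => ?_
            have h4 := h.hv i a
            have : 0 < v i a ^ 2 := by positivity
            omega
          simpa using h3
        linarith
      · simp
    · obtain ⟨α, β, h1, h2, h3, h4, h5⟩ := Rig4T_pair h hF0 hF a b
      exact ⟨α, β, ⟨h1, h2, h3, h4, h5⟩, Rig4T_bad h a b hab α β h5⟩
  choose α β hαβ hbad using hpair
  have hα0 : ∀ a b, (α a b : ℚ) ≠ 0 := by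
    intro a b
    have := (hαβ a b).1
    have h1 : α a b ≠ 0 := by omega
    exact_mod_cast h1
  have hcount : ∀ a b, ((Finset.univ.filter fun i => α a b * v i b ≠ β a b * v i a).card : ℤ) *
      (p ^ 2 * (Fintype.card I : ℤ)) ≤ 2 * (F : ℤ) ^ 2 := by
    intro a b
    have h1 := hbad a b
    have h2 := (hαβ a b).2.2.2.1
    have h3 : (0 : ℤ) ≤ F := by positivity
    have h4 : (0 : ℤ) ≤ (Fintype.card I : ℤ) := by positivity
    calc ((Finset.univ.filter fun i => α a b * v i b ≠ β a b * v i a).card : ℤ) *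
        (p ^ 2 * (Fintype.card I : ℤ))
        = (((Finset.univ.filter fun i => α a b * v i b ≠ β a b * v i a).card : ℤ) * p ^ 2) *
          (Fintype.card I : ℤ) := by ring
      _ ≤ (F * (α a b ^ 2 + β a b ^ 2)) * (Fintype.card I : ℤ) :=
          mul_le_mul_of_nonneg_right h1 h4
      _ = F * ((α a b ^ 2 + β a b ^ 2) * (Fintype.card I : ℤ)) := by ring
      _ ≤ F * (2 * F) := mul_le_mul_of_nonneg_left h2 h3
      _ = _ := by ring
  refine ⟨fun a => (β o a : ℚ) / (α o a : ℚ), fun a => ?_, fun a b => ?_⟩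
  · refine div_ne_zero ?_ (hα0 _ _)
    exact_mod_cast (hαβ o a).2.1
  refine ⟨α a b, β a b, (hαβ a b).1, (hαβ a b).2.1, (hαβ a b).2.2.1, (hαβ a b).2.2.2.1,
    (hαβ a b).2.2.2.2, ?_⟩
  -- a common good element
  obtain ⟨i, h1, h2, h3⟩ : ∃ i, α o a * v i a = β o a * v i o ∧ α o b * v i b = β o b * v i o ∧
      α a b * v i b = β a b * v i a := by
    by_contra hcon
    push Not at hcon
    obtain ⟨B1, hB1⟩ : ∃ B, B = Finset.univ.filter fun i => α o a * v i a ≠ β o a * v i o :=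
      ⟨_, rfl⟩
    obtain ⟨B2, hB2⟩ : ∃ B, B = Finset.univ.filter fun i => α o b * v i b ≠ β o b * v i o :=
      ⟨_, rfl⟩
    obtain ⟨B3, hB3⟩ : ∃ B, B = Finset.univ.filter fun i => α a b * v i b ≠ β a b * v i a :=
      ⟨_, rfl⟩
    have hc1 := hcount o a
    have hc2 := hcount o b
    have hc3 := hcount a b
    rw [← hB1] at hc1
    rw [← hB2] at hc2
    rw [← hB3] at hc3
    have hcov : (Finset.univ : Finset I) ⊆ B1 ∪ B2 ∪ B3 := by
      intro i _
      rw [Finset.mem_union, Finset.mem_union, hB1, hB2, hB3]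
      simp only [Finset.mem_filter, Finset.mem_univ, true_and]
      by_contra hc
      push Not at hc
      exact hcon i hc.1.1 hc.1.2 hc.2
    have hcard : Fintype.card I ≤ B1.card + B2.card + B3.card := by
      calc Fintype.card I = (Finset.univ : Finset I).card := rfl
        _ ≤ (B1 ∪ B2 ∪ B3).card := Finset.card_le_card hcov
        _ ≤ (B1 ∪ B2).card + B3.card := Finset.card_union_le _ _
        _ ≤ _ := Nat.add_le_add_right (Finset.card_union_le _ _) _
    have hcardZ : (Fintype.card I : ℤ) ≤ B1.card + B2.card + B3.card := by exact_mod_cast hcard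
    have hFZ : 3 * (F : ℤ) ≤ p * (Fintype.card I : ℤ) := by exact_mod_cast hF
    have hF0Z : 0 < (F : ℤ) := by exact_mod_cast hF0
    have hpN : (0 : ℤ) ≤ p ^ 2 * (Fintype.card I : ℤ) := by positivity
    have h1 : (Fintype.card I : ℤ) * (p ^ 2 * (Fintype.card I : ℤ)) ≤ 6 * (F : ℤ) ^ 2 := by
      have := mul_le_mul_of_nonneg_right hcardZ hpN
      linarith
    have h2 : (3 * (F : ℤ)) ^ 2 ≤ (p * (Fintype.card I : ℤ)) ^ 2 :=
      pow_le_pow_left₀ (by positivity) hFZ 2
    nlinarith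
  have h1' : (α o a : ℚ) * v i a = β o a * v i o := by exact_mod_cast h1
  have h2' : (α o b : ℚ) * v i b = β o b * v i o := by exact_mod_cast h2
  have h3' : (α a b : ℚ) * v i b = β a b * v i a := by exact_mod_cast h3
  have hvo : (v i o : ℚ) ≠ 0 := by exact_mod_cast h.hv i o
  have e1 : (v i a : ℚ) = (β o a : ℚ) / (α o a : ℚ) * v i o := by
    have := hα0 o a
    field_simp
    linarith
  have e2 : (v i b : ℚ) = (β o b : ℚ) / (α o b : ℚ) * v i o := by
    have := hα0 o b
    field_simp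
    linarith
  rw [e1, e2] at h3'
  have h4 : ((α a b : ℚ) * ((β o b : ℚ) / (α o b : ℚ))) * v i o =
      ((β a b : ℚ) * ((β o a : ℚ) / (α o a : ℚ))) * v i o := by linarith
  exact mul_right_cancel₀ hvo h4

end Pool.Agent.KBQ
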