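import Pool.Agent.KBQ.NeckW
import Pool.Agent.KBQ.IndA
import Pool.Agent.KBL.Lim
import Pool.Agent.KBZ.Res
import Pool.Agent.KBU.MajA

/-! Brauer's second main theorem, first form. -/

namespace Pool.Agent.KBQ

open Pool.Agent.KB Pool.Agent.KB.ContrAux Pool.Agent.KBL Pool.Agent.KBZ Pool.Agent.KBU

/-- Powers of an element of `𝔪`. HINT: `LimA_nil` gives `s ∉ 𝔪`, `n` with `p ∣ s * γ ^ n`; take `i₀`
with `n ≤ p ^ i₀`. For `i ≥ i₀`: `s ^ (p ^ r) * γ ^ (p ^ (i + r))` is divisible by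
`(s * γ ^ (p ^ i)) ^ (p ^ r)`, so by `p ^ (p ^ r)`, and `r + 1 ≤ p ^ r`. -/
theorem SMTa_nil (p : ℕ) (hp : p.Prime) (𝔪 : Ideal AInt) (h𝔪 : 𝔪.IsMaximal)
    (hp𝔪 : (p : AInt) ∈ 𝔪) (γ : AInt) (hγ : γ ∈ 𝔪) :
    ∃ (s : AInt) (i₀ : ℕ), s ∉ 𝔪 ∧ ∀ i, i₀ ≤ i → ∀ r : ℕ,
      (p : AInt) ^ (r + 1) ∣ s ^ (p ^ r) * γ ^ (p ^ (i + r)) := by
  obtain ⟨s, n, hs, hd⟩ := LimA_nil p hp 𝔪 h𝔪 hp𝔪 γ hγ
  refine ⟨s, n, hs, fun i hi r => ?_⟩
  have h1 : n ≤ p ^ i := hi.trans (Nat.lt_pow_self hp.one_lt).le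
  have h2 : (p : AInt) ∣ s * γ ^ (p ^ i) := by
    obtain ⟨k, hk⟩ := Nat.exists_eq_add_of_le h1
    rw [hk, pow_add, ← mul_assoc]
    exact Dvd.dvd.mul_right hd _
  have h3 : s ^ (p ^ r) * γ ^ (p ^ (i + r)) = (s * γ ^ (p ^ i)) ^ (p ^ r) := by
    rw [mul_pow, ← pow_mul, ← pow_add]
  rw [h3]
  have h4 : r + 1 ≤ p ^ r := Nat.lt_pow_self hp.one_lt
  exact (pow_dvd_pow _ h4).trans (pow_dvd_pow_of_dvd h2 _)

/-- The same for units. HINT: `LimA_unit` and `Lim_step`. -/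
theorem SMTa_unit (p : ℕ) (hp : p.Prime) (𝔪 : Ideal AInt) (h𝔪 : 𝔪.IsMaximal)
    (hp𝔪 : (p : AInt) ∈ 𝔪) (β : AInt) (hβ : β - 1 ∈ 𝔪) :
    ∃ (s : AInt) (i₀ : ℕ), s ∉ 𝔪 ∧ ∀ i, i₀ ≤ i → ∀ r : ℕ,
      (p : AInt) ^ (r + 1) ∣ s ^ (p ^ r) * (β ^ (p ^ (i + r)) - 1) := by
  obtain ⟨s, i₀, hs, hi₀⟩ := LimA_unit p hp 𝔪 h𝔪 hp𝔪 β hβ
  exact ⟨s, i₀, hs, fun i hi r => Lim_step (hi₀ i hi) r⟩

open Classical in
/-- The limit argument in abstract form. `v i` are numbers, `b i` are `≡ 1` or `≡ 0` modulo `𝔪`;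
if `∑ i, b i ^ (p ^ N) * v i` is divisible by `p ^ (N + 1)` for all large multiples `N` of
`t` then the sum of the `v i` with `b i - 1 ∈ 𝔪` is zero. HINT: take one `s` (product) and one `i₀`
(maximum) for all `i` from `SMTa_nil`, `SMTa_unit` (multiply the divisibilities by the remaining
factors); for `N = i₀ + r`, with `κ = ∑ i with b i - 1 ∈ 𝔪, v i`:
`s ^ (p ^ r) * κ = s ^ (p ^ r) * ∑ b i ^ (p ^ N) * v i - ∑ (b i - 1 ∈ 𝔪) s ^ (p ^ r) *
(b i ^ (p ^ N) - 1) * v i - ∑ (b i ∈ 𝔪) s ^ (p ^ r) * b i ^ (p ^ N) * v i` is divisible by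
`p ^ (r + 1)`. `LimA_zero`. Compare the last part of the proof of `Lim_half`. -/
theorem SMTa_lim (p : ℕ) (hp : p.Prime) (𝔪 : Ideal AInt) (h𝔪 : 𝔪.IsMaximal)
    (hp𝔪 : (p : AInt) ∈ 𝔪) {I : Type} [Fintype I] (b v : I → AInt)
    (hb : ∀ i, b i - 1 ∈ 𝔪 ∨ b i ∈ 𝔪) (t : ℕ) (ht : 0 < t)
    (h : ∃ N₁ : ℕ, ∀ k, N₁ ≤ k * t →
      (p : AInt) ^ (k * t + 1) ∣ ∑ i, b i ^ (p ^ (k * t)) * v i) :
    ∑ i with b i - 1 ∈ 𝔪, v i = 0 := by
  set c : I → AInt := fun i => if b i - 1 ∈ 𝔪 then 1 else 0 with hc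
  have hex : ∀ i, ∃ (s : AInt) (n : ℕ), s ∉ 𝔪 ∧ ∀ j, n ≤ j → ∀ r : ℕ,
      (p : AInt) ^ (r + 1) ∣ s ^ (p ^ r) * (b i ^ (p ^ (j + r)) - c i) := by
    intro i
    by_cases h1 : b i - 1 ∈ 𝔪
    · have h2 : c i = 1 := if_pos h1
      rw [h2]
      exact SMTa_unit p hp 𝔪 h𝔪 hp𝔪 (b i) h1
    · have h2 : c i = 0 := if_neg h1
      rw [h2]
      obtain ⟨s, n, hs, hn⟩ := SMTa_nil p hp 𝔪 h𝔪 hp𝔪 (b i) ((hb i).resolve_left h1)
      refine ⟨s, n, hs, fun j hj r => ?_⟩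
      rw [sub_zero]
      exact hn j hj r
  choose s n hs hn using hex
  obtain ⟨N₁, hN₁⟩ := h
  set S : AInt := ∏ i, s i with hS
  set i₀ : ℕ := ∑ i, n i with hi₀
  have hSm : S ∉ 𝔪 := by
    intro hmem
    obtain ⟨i, -, h⟩ := h𝔪.isPrime.prod_mem_iff.1 hmem
    exact hs i h
  have hall : ∀ i r, (p : AInt) ^ (r + 1) ∣ S ^ (p ^ r) * (b i ^ (p ^ (i₀ + r)) - c i) := by
    intro i r
    have h3 : n i ≤ i₀ := Finset.single_le_sum (f := n) (fun _ _ => Nat.zero_le _)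
      (Finset.mem_univ i)
    have h4 := hn i i₀ h3 r
    rw [hS, ← Finset.mul_prod_erase Finset.univ s (Finset.mem_univ i), mul_pow]
    obtain ⟨d, hd⟩ := h4
    refine ⟨(∏ x ∈ Finset.univ.erase i, s x) ^ (p ^ r) * d, ?_⟩
    calc s i ^ (p ^ r) * (∏ x ∈ Finset.univ.erase i, s x) ^ (p ^ r) *
          (b i ^ (p ^ (i₀ + r)) - c i)
        = (∏ x ∈ Finset.univ.erase i, s x) ^ (p ^ r) *
          (s i ^ (p ^ r) * (b i ^ (p ^ (i₀ + r)) - c i)) := by ring
      _ = (∏ x ∈ Finset.univ.erase i, s x) ^ (p ^ r) * ((p : AInt) ^ (r + 1) * d) := by rw [hd]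
      _ = _ := by ring
  have hκ : ∑ i with b i - 1 ∈ 𝔪, v i = ∑ i, c i * v i := by
    rw [Finset.sum_filter]
    refine Finset.sum_congr rfl fun i _ => ?_
    rw [hc]
    dsimp only
    split_ifs <;> simp
  rw [hκ]
  refine LimA_zero p hp 𝔪 h𝔪 hp𝔪 S _ hSm fun r₀ => ?_
  set k := N₁ + i₀ + r₀ with hk
  have hkt : k ≤ k * t := Nat.le_mul_of_pos_right _ ht
  refine ⟨k * t - i₀, by omega, ?_⟩
  set r := k * t - i₀ with hr
  have hNr : k * t = i₀ + r := by omega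
  have h3 := hN₁ k (by omega)
  have h4 : (p : AInt) ^ (r + 1) ∣ ∑ i, b i ^ (p ^ (k * t)) * v i :=
    (pow_dvd_pow _ (by omega)).trans h3
  have h5 : S ^ (p ^ r) * ∑ i, c i * v i = S ^ (p ^ r) * ∑ i, b i ^ (p ^ (k * t)) * v i -
      ∑ i, (S ^ (p ^ r) * (b i ^ (p ^ (k * t)) - c i)) * v i := by
    rw [Finset.mul_sum, Finset.mul_sum, ← Finset.sum_sub_distrib]
    refine Finset.sum_congr rfl fun i _ => ?_
    ring
  rw [h5]
  refine dvd_sub (Dvd.dvd.mul_left h4 _) (Finset.dvd_sum fun i _ => Dvd.dvd.mul_right ?_ _)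
  rw [hNr]
  exact hall i r

/-- `ev` of a power of a central element -/
private theorem SMTa_ev {H : Type} [Group H] [Fintype H] (ζ : H → ℂ) (hζ : ζ ∈ Irr H)
    (b : MonoidAlgebra AInt H) (hb : Ctr b) (y : H) (M : ℕ) :
    ev ζ (MonoidAlgebra.of AInt H y * b ^ M) = omg ζ b ^ M * ζ y := by
  have hcomm : ∀ α, Commute b α := (Alg_ctr b).1 hb
  induction M with
  | zero => rw [pow_zero, mul_one, pow_zero, one_mul, (CenA_basic ζ).2.2]
  | succ M ih =>
    have h1 : MonoidAlgebra.of AInt H y * b ^ (M + 1) =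
        b * (MonoidAlgebra.of AInt H y * b ^ M) := by
      rw [pow_succ', ← mul_assoc, ← (hcomm _).eq, mul_assoc]
    rw [h1, Alg_schur ζ hζ b _ hb, ih, pow_succ]
    ring

private theorem SMTa_coeff {H : Type} [Group H] (g : H) (α : MonoidAlgebra AInt H) (x : H) :
    (MonoidAlgebra.of AInt H g * α).coeff x = α.coeff (g⁻¹ * x) := by
  rw [MonoidAlgebra.of_apply, MonoidAlgebra.coeff_single_mul_apply, one_mul]

private theorem SMTa_same {H : Type} [Group H] (𝔪 : Ideal AInt) {χ ψ : H → ℂ} (hχ : χ ∈ Irr H)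
    (h : ψ ∈ block 𝔪 χ) : χ ∈ block 𝔪 ψ := by
  refine ⟨hχ, fun g => ?_⟩
  obtain ⟨c, hc, hc2⟩ := h.2 g
  exact ⟨-c, 𝔪.neg_mem hc, by push_cast; rw [hc2]; ring⟩

private theorem SMTa_refl {H : Type} [Group H] (𝔪 : Ideal AInt) {χ : H → ℂ} (hχ : χ ∈ Irr H) :
    χ ∈ block 𝔪 χ := by
  refine ⟨hχ, fun g => ⟨0, 𝔪.zero_mem, by push_cast; ring⟩⟩

open Classical in
/-- HINT: `b`, `β` from `Cen_main` for `χ₀`; `α = of (ι y) * b` commutes with `w`;
`α ^ (p ^ N) = of (ι y) * b ^ (p ^ N)` if `y ^ (p ^ N) = y` (all multiples `N` of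
`t = totient (orderOf y)`, `Lim_pow`). `αC = trc ι α = of y * trc ι b`, `trc ι b` is central in `C`
(`Br_ctr`). `θ_j = omg (Y j) (trc ι b)`. If `Ind 𝔪 ι (Y j) χ₀` then `θ_j ≡ omg χ₀ b = β χ₀ ≡ 1`. If
not: let `χ' ∈ Irr G` with `Ind 𝔪 ι (Y j) χ'` (`MajA_lift` for the `p`-group generated by `w`,
centralizer `ι`); `χ'` is not in the block of `χ₀` (`IndA_block`), so
`θ_j ≡ omg χ' b = β χ' = 0` modulo `𝔪`.
Left side of `NeckW_main` (for `j = N`, `z`): the sum over the `g` with `IsConj z (w * g)` of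
`(α ^ (p ^ N)).coeff g` is the sum over the class of `z` of the coefficients of
`of w * α ^ (p ^ N) = of (w * ι y) * b ^ (p ^ N)`; by `Lim_coeff` (for `z` and this element)
`|class of z| * ∑ i, X i z⁻¹ * β (X i) ^ (p ^ N) * X i (w * ι y) = |G| * (this sum)`.
Right side: for a class function `f` on `C` and any `γ`: `|C| * ∑ c, f c * γ.coeff c =
∑ j, (∑ c, f c * Y j c⁻¹) * ev (Y j) γ` (`Res_expand` with `Col_main` for `C`); here `f c = 1` if
`IsConj z (w * ι c)` and `0` otherwise (a class function, since `ι C` centralizes `w`),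
`γ = αC ^ (p ^ N) = of y * (trc ι b) ^ (p ^ N)`, `ev (Y j) γ = θ_j ^ (p ^ N) * Y j y`
(`Alg_schur`, `Alg_mul`). Multiply the congruence of `NeckW_main` by `|G| * |C|` and apply
`SMTa_lim` with `I = Fin K ⊕ Fin L`, `b = β (X i)` resp. `θ_j`,
`v = |C| * |class of z| * X i (w * ι y) * X i z⁻¹` resp.
`- |G| * Y j y * ∑ c with IsConj z (w * ι c), Y j c⁻¹` (all algebraic integers). -/
theorem SMTa_main {G C : Type} [Group G] [Fintype G] [Group C] [Fintype C] (p : ℕ)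
    (hp : p.Prime) (𝔪 : Ideal AInt) (h𝔪 : 𝔪.IsMaximal) (hp𝔪 : (p : AInt) ∈ 𝔪) (χ₀ : G → ℂ)
    (hχ₀ : χ₀ ∈ Irr G) (w : G) (n : ℕ) (hw : w ^ (p ^ n) = 1) (ι : C →* G)
    (hι : Function.Injective ι) (hr : ∀ x : G, (∃ y, ι y = x) ↔ w * x = x * w)
    {K L : ℕ} (X : Fin K → G → ℂ) (hXi : Function.Injective X) (hX : Set.range X = Irr G)
    (Y : Fin L → C → ℂ) (hYi : Function.Injective Y) (hY : Set.range Y = Irr C)
    (y : C) (hy : ¬ p ∣ orderOf y) (z : G) :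
    (Nat.card C : ℂ) * (Nat.card {x : G // IsConj z x} : ℂ) *
        ∑ i with X i ∈ block 𝔪 χ₀, X i (w * ι y) * X i z⁻¹ =
      (Nat.card G : ℂ) * ∑ j with Ind 𝔪 ι (Y j) χ₀,
        Y j y * ∑ c : C with IsConj z (w * ι c), Y j c⁻¹ := by
  have hXI : ∀ i, X i ∈ Irr G := fun i => hX ▸ Set.mem_range_self i
  have hYI : ∀ j, Y j ∈ Irr C := fun j => hY ▸ Set.mem_range_self j
  obtain ⟨b, β, hb1, hb2, hb3, hb4⟩ := Cen_main 𝔪 h𝔪 χ₀ hχ₀ X hX
  have hbc : Ctr b := (Alg_ctr b).2 hb1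
  have hcc : Ctr (trc ι b) := Br_ctr ι b hbc
  have hom : ∀ χ ∈ Irr G, omg χ b = (β χ : ℂ) := by
    intro χ hχ
    have h1 := hb2 χ hχ 1 1
    rw [map_one, one_mul, pow_one, pow_one] at h1
    unfold omg
    rw [h1, mul_div_assoc, div_self (Alg_ne hχ), mul_one]
  set θ : Fin L → AInt := fun j => ⟨omg (Y j) (trc ι b), Alg_int (Y j) (hYI j) _ hcc⟩ with hθ
  have hθc : ∀ j, ((θ j : AInt) : ℂ) = omg (Y j) (trc ι b) := fun _ => rfl
  have hone : (1 : AInt) ∉ 𝔪 := fun h => h𝔪.ne_top ((Ideal.eq_top_iff_one 𝔪).2 h)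
  have hA : ∀ j, Ind 𝔪 ι (Y j) χ₀ → θ j - 1 ∈ 𝔪 := by
    intro j hj
    obtain ⟨c, hc, hc2⟩ := hj b hbc
    rw [hom χ₀ hχ₀, ← hθc] at hc2
    have h1 : c = β χ₀ - θ j := by
      apply Subtype.ext
      push_cast
      exact hc2
    have h2 : θ j - 1 = (β χ₀ - 1) - c := by rw [h1]; ring
    rw [h2]
    exact 𝔪.sub_mem (hb4 χ₀ (SMTa_refl 𝔪 hχ₀)) hc
  have hB : ∀ j, ¬ Ind 𝔪 ι (Y j) χ₀ → θ j ∈ 𝔪 := by
    intro j hj
    have hP : IsPGroup p (Subgroup.zpowers w) := by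
      intro g
      obtain ⟨g, hg⟩ := g
      obtain ⟨k, rfl⟩ := Subgroup.mem_zpowers_iff.1 hg
      refine ⟨n, ?_⟩
      apply Subtype.ext
      push_cast
      rw [← zpow_natCast, ← zpow_mul, mul_comm, zpow_mul, zpow_natCast, hw, one_zpow]
    obtain ⟨ζ, hζ, hind⟩ := MajA_lift p hp 𝔪 h𝔪 hp𝔪 (Subgroup.zpowers w) hP ι hι (by
      intro x
      rw [hr x]
      constructor
      · intro h1 g hg
        obtain ⟨k, rfl⟩ := Subgroup.mem_zpowers_iff.1 hg
        exact (Commute.zpow_left h1 k : Commute (w ^ k) x)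
      · intro h1
        exact h1 w (Subgroup.mem_zpowers w)) (Y j) (hYI j)
    have hζb : ζ ∉ block 𝔪 χ₀ := by
      intro h1
      exact hj (IndA_block 𝔪 ι (Y j) (Y j) ζ χ₀ (hYI j) hζ (SMTa_refl 𝔪 (hYI j))
        (SMTa_same 𝔪 hχ₀ h1) hind)
    obtain ⟨c, hc, hc2⟩ := hind b hbc
    rw [hom ζ hζ, hb3 ζ hζ hζb, ← hθc] at hc2
    have h1 : θ j = -c := by
      apply Subtype.ext
      push_cast
      rw [hc2]
      push_cast
      ring
    rw [h1]
    exact 𝔪.neg_mem hc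
  have hθiff : ∀ j, θ j - 1 ∈ 𝔪 ↔ Ind 𝔪 ι (Y j) χ₀ := by
    intro j
    refine ⟨fun h1 => ?_, hA j⟩
    by_contra h2
    have h3 := 𝔪.sub_mem (hB j h2) h1
    rw [sub_sub_cancel] at h3
    exact hone h3
  have hβiff : ∀ i, β (X i) - 1 ∈ 𝔪 ↔ X i ∈ block 𝔪 χ₀ := by
    intro i
    refine ⟨fun h1 => ?_, hb4 _⟩
    by_contra h2
    rw [hb3 _ (hXI i) h2, zero_sub] at h1
    exact hone ((neg_mem_iff).1 h1)
  -- the numbers
  set cz : ℕ := Nat.card {x : G // IsConj z x} with hcz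
  have hu : ∀ i, IsIntegral ℤ (X i (w * ι y) * X i z⁻¹) := fun i =>
    (irr_integral (hXI i) _).mul (irr_integral (hXI i) _)
  set u : Fin K → AInt := fun i => ⟨X i (w * ι y) * X i z⁻¹, hu i⟩ with hudef
  have hv : ∀ j, IsIntegral ℤ (Y j y * ∑ c : C with IsConj z (w * ι c), Y j c⁻¹) := fun j =>
    (irr_integral (hYI j) _).mul (IsIntegral.sum _ fun c _ => irr_integral (hYI j) _)
  set v : Fin L → AInt := fun j => ⟨Y j y * ∑ c : C with IsConj z (w * ι c), Y j c⁻¹, hv j⟩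
    with hvdef
  have huc : ∀ i, ((u i : AInt) : ℂ) = X i (w * ι y) * X i z⁻¹ := fun _ => rfl
  have hvc : ∀ j, ((v j : AInt) : ℂ) = Y j y * ∑ c : C with IsConj z (w * ι c), Y j c⁻¹ :=
    fun _ => rfl
  -- column orthogonality
  obtain ⟨h1X, h2X⟩ : (∀ g h : G, ¬ IsConj g h → ∑ i, X i g * X i h⁻¹ = 0) ∧
      (∀ g h : G, IsConj g h → ∑ i, X i g * X i h⁻¹ =
        (Nat.card G : ℂ) / (Nat.card {x : G // IsConj g x} : ℂ)) := by
    obtain ⟨K', X', hi', hX', h1', h2'⟩ := Col_main G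
    have hsum : ∀ g h : G, ∑ i, X i g * X i h⁻¹ = ∑ i, X' i g * X' i h⁻¹ := by
      intro g h
      have e1 : ∑ i, X i g * X i h⁻¹ = ∑ χ ∈ Finset.univ.image X, χ g * χ h⁻¹ := by
        rw [Finset.sum_image (fun a _ b _ hab => hXi hab)]
      have e2 : ∑ i, X' i g * X' i h⁻¹ = ∑ χ ∈ Finset.univ.image X', χ g * χ h⁻¹ := by
        rw [Finset.sum_image (fun a _ b _ hab => hi' hab)]
      have e3 : Finset.univ.image X = Finset.univ.image X' := by
        ext χ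
        simp only [Finset.mem_image, Finset.mem_univ, true_and]
        rw [← Set.mem_range, ← Set.mem_range, hX, hX']
      rw [e1, e2, e3]
    exact ⟨fun g h hgh => (hsum g h).trans (h1' g h hgh),
      fun g h hgh => (hsum g h).trans (h2' g h hgh)⟩
  obtain ⟨h1Y, h2Y⟩ : (∀ g h : C, ¬ IsConj g h → ∑ i, Y i g * Y i h⁻¹ = 0) ∧
      (∀ g h : C, IsConj g h → ∑ i, Y i g * Y i h⁻¹ =
        (Nat.card C : ℂ) / (Nat.card {x : C // IsConj g x} : ℂ)) := by
    obtain ⟨K', X', hi', hX', h1', h2'⟩ := Col_main C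
    have hsum : ∀ g h : C, ∑ i, Y i g * Y i h⁻¹ = ∑ i, X' i g * X' i h⁻¹ := by
      intro g h
      have e1 : ∑ i, Y i g * Y i h⁻¹ = ∑ χ ∈ Finset.univ.image Y, χ g * χ h⁻¹ := by
        rw [Finset.sum_image (fun a _ b _ hab => hYi hab)]
      have e2 : ∑ i, X' i g * X' i h⁻¹ = ∑ χ ∈ Finset.univ.image X', χ g * χ h⁻¹ := by
        rw [Finset.sum_image (fun a _ b _ hab => hi' hab)]
      have e3 : Finset.univ.image Y = Finset.univ.image X' := by
        ext χ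
        simp only [Finset.mem_image, Finset.mem_univ, true_and]
        rw [← Set.mem_range, ← Set.mem_range, hY, hX']
      rw [e1, e2, e3]
    exact ⟨fun g h hgh => (hsum g h).trans (h1' g h hgh),
      fun g h hgh => (hsum g h).trans (h2' g h hgh)⟩
  have hwι : ∀ c : C, w * ι c = ι c * w := fun c => (hr _).1 ⟨c, rfl⟩
  -- the divisibility
  set tt := Nat.totient (orderOf y) with htt
  have htpos : 0 < tt := Nat.totient_pos.2 (orderOf_pos y)
  set bb : Fin K ⊕ Fin L → AInt := Sum.elim (fun i => β (X i)) θ with hbb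
  set vv : Fin K ⊕ Fin L → AInt := Sum.elim (fun i => (Nat.card C : AInt) * (cz : AInt) * u i)
    (fun j => -((Nat.card G : AInt) * v j)) with hvv
  have hdiv : ∀ k, n ≤ k * tt →
      (p : AInt) ^ (k * tt + 1) ∣ ∑ i, bb i ^ (p ^ (k * tt)) * vv i := by
    intro k hk
    set M := k * tt with hM
    have hyM : y ^ (p ^ M) = y := Lim_pow hp hy k
    have hwM : w ^ (p ^ M) = 1 := by
      obtain ⟨d, hd⟩ := Nat.exists_eq_add_of_le hk
      rw [hd, pow_add, pow_mul, hw, one_pow]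
    set α : MonoidAlgebra AInt G := MonoidAlgebra.of AInt G (ι y) * b with hα
    set αC : MonoidAlgebra AInt C := MonoidAlgebra.of AInt C y * trc ι b with hαC
    have hαM : α ^ (p ^ M) = MonoidAlgebra.of AInt G (ι y) * b ^ (p ^ M) := by
      have hc : Commute (MonoidAlgebra.of AInt G (ι y)) b := (hb1 _).symm
      rw [hα, hc.mul_pow, ← map_pow, ← map_pow, hyM]
    have hαCM : αC ^ (p ^ M) = MonoidAlgebra.of AInt C y * (trc ι b) ^ (p ^ M) := by
      have hc : Commute (MonoidAlgebra.of AInt C y) (trc ι b) :=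
        ((Alg_ctr _).1 hcc _).symm
      rw [hαC, hc.mul_pow, ← map_pow, hyM]
    have hαw : ∀ x, α.coeff (w * x * w⁻¹) = α.coeff x := by
      intro x
      rw [hα, SMTa_coeff, SMTa_coeff]
      have e1 : (ι y)⁻¹ * (w * x * w⁻¹) = w * ((ι y)⁻¹ * x) * w⁻¹ := by
        have e2 : (ι y)⁻¹ * w = w * (ι y)⁻¹ := by
          have := hwι y⁻¹
          rw [map_inv] at this
          exact this.symm
        calc (ι y)⁻¹ * (w * x * w⁻¹) = ((ι y)⁻¹ * w) * x * w⁻¹ := by group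
          _ = w * ((ι y)⁻¹ * x) * w⁻¹ := by rw [e2]; group
      rw [e1]
      exact hbc w _
    have hαCc : ∀ c, αC.coeff c = α.coeff (ι c) := by
      intro c
      rw [hαC, hα, SMTa_coeff, SMTa_coeff, Br_coeff, map_mul, map_inv]
    have hneck := NeckW_main (R := AInt) p hp w M hwM α hαw ι hι hr αC hαCc z
    set S1 : AInt := ∑ g : G with IsConj z (w * g), (α ^ (p ^ M)).coeff g with hS1
    set S2 : AInt := ∑ c : C with IsConj z (w * ι c), (αC ^ (p ^ M)).coeff c with hS2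
    -- left side
    have hL : (cz : ℂ) * ∑ i, ((β (X i) : AInt) : ℂ) ^ (p ^ M) * (X i (w * ι y) * X i z⁻¹) =
        (Nat.card G : ℂ) * (S1 : ℂ) := by
      have h3 := Lim_coeff X h1X h2X z (MonoidAlgebra.of AInt G w * α ^ (p ^ M))
      have e1 : ∀ i, ev (X i) (MonoidAlgebra.of AInt G w * α ^ (p ^ M)) =
          ((β (X i) : AInt) : ℂ) ^ (p ^ M) * X i (w * ι y) := by
        intro i
        rw [hαM, ← mul_assoc, ← map_mul]
        exact hb2 _ (hXI i) _ _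
      have e2 : ∑ g : G with IsConj z g, (MonoidAlgebra.of AInt G w * α ^ (p ^ M)).coeff g =
          S1 := by
        rw [hS1]
        symm
        refine Finset.sum_bij (fun g _ => w * g) ?_ ?_ ?_ ?_
        · intro g hg
          rw [Finset.mem_filter] at hg ⊢
          exact ⟨Finset.mem_univ _, hg.2⟩
        · intro g _ g' _ hgg
          exact mul_left_cancel hgg
        · intro g hg
          rw [Finset.mem_filter] at hg
          refine ⟨w⁻¹ * g, ?_, ?_⟩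
          · rw [Finset.mem_filter]
            refine ⟨Finset.mem_univ _, ?_⟩
            rw [mul_inv_cancel_left]
            exact hg.2
          · rw [mul_inv_cancel_left]
        · intro g _
          rw [SMTa_coeff, inv_mul_cancel_left]
      rw [e2] at h3
      rw [← h3, hcz]
      congr 1
      refine Finset.sum_congr rfl fun i _ => ?_
      rw [e1]
      ring
    -- right side
    have hR : (Nat.card C : ℂ) * (S2 : ℂ) = ∑ j, ((θ j : AInt) : ℂ) ^ (p ^ M) *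
        (Y j y * ∑ c : C with IsConj z (w * ι c), Y j c⁻¹) := by
      set f : C → ℂ := fun c => if IsConj z (w * ι c) then 1 else 0 with hf
      have hfc : ∀ c c' : C, IsConj c c' → f c = f c' := by
        intro c c' hcc'
        obtain ⟨d, hd⟩ := isConj_iff.1 hcc'
        have h4 : IsConj (w * ι c) (w * ι c') := by
          rw [isConj_iff]
          refine ⟨ι d, ?_⟩
          rw [← hd, map_mul, map_mul, map_inv]
          calc ι d * (w * ι c) * (ι d)⁻¹ = (ι d * w) * ι c * (ι d)⁻¹ := by group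
            _ = w * (ι d * ι c * (ι d)⁻¹) := by rw [← hwι d]; group
        have h5 : IsConj z (w * ι c) ↔ IsConj z (w * ι c') :=
          ⟨fun h => h.trans h4, fun h => h.trans h4.symm⟩
        rw [hf]
        simp only [h5]
      have hexp := fun c => Res_expand f hfc Y h1Y h2Y c
      have e1 : (S2 : ℂ) = ∑ c : C, f c * (((αC ^ (p ^ M)).coeff c : AInt) : ℂ) := by
        rw [hS2]
        push_cast
        rw [Finset.sum_filter]
        refine Finset.sum_congr rfl fun c _ => ?_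
        rw [hf]
        dsimp only
        split_ifs <;> simp
      have e2 : ∀ j, ∑ c : C, f c * Y j c⁻¹ = ∑ c : C with IsConj z (w * ι c), Y j c⁻¹ := by
        intro j
        rw [Finset.sum_filter]
        refine Finset.sum_congr rfl fun c _ => ?_
        rw [hf]
        dsimp only
        split_ifs <;> simp
      have e3 : ∀ j, ev (Y j) (αC ^ (p ^ M)) = ((θ j : AInt) : ℂ) ^ (p ^ M) * Y j y := by
        intro j
        rw [hαCM, SMTa_ev (Y j) (hYI j) (trc ι b) hcc y (p ^ M), hθc]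
      calc (Nat.card C : ℂ) * (S2 : ℂ)
          = ∑ c : C, ((Nat.card C : ℂ) * f c) * (((αC ^ (p ^ M)).coeff c : AInt) : ℂ) := by
            rw [e1, Finset.mul_sum]
            exact Finset.sum_congr rfl fun c _ => by ring
        _ = ∑ c : C, (∑ j, (∑ c' : C, f c' * Y j c'⁻¹) * Y j c) *
              (((αC ^ (p ^ M)).coeff c : AInt) : ℂ) := by
            refine Finset.sum_congr rfl fun c _ => ?_
            rw [hexp c]
        _ = ∑ j, (∑ c' : C, f c' * Y j c'⁻¹) * ev (Y j) (αC ^ (p ^ M)) := by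
            simp only [ev, Finset.mul_sum, Finset.sum_mul]
            rw [Finset.sum_comm]
            refine Finset.sum_congr rfl fun j _ => ?_
            refine Finset.sum_congr rfl fun c _ => ?_
            refine Finset.sum_congr rfl fun c' _ => ?_
            ring
        _ = ∑ j, ((θ j : AInt) : ℂ) ^ (p ^ M) *
              (Y j y * ∑ c : C with IsConj z (w * ι c), Y j c⁻¹) := by
            refine Finset.sum_congr rfl fun j _ => ?_
            rw [e2, e3]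
            ring
    have hfin : ∑ i, bb i ^ (p ^ M) * vv i =
        (Nat.card G : AInt) * (Nat.card C : AInt) * (S1 - S2) := by
      apply Subtype.ext
      rw [Fintype.sum_sum_type]
      simp only [hbb, hvv, Sum.elim_inl, Sum.elim_inr]
      push_cast
      have k1 : ∑ i, ((β (X i) : AInt) : ℂ) ^ (p ^ M) *
          ((Nat.card C : ℂ) * (cz : ℂ) * ((u i : AInt) : ℂ)) =
          (Nat.card C : ℂ) * ((Nat.card G : ℂ) * (S1 : ℂ)) := by
        rw [← hL, Finset.mul_sum, Finset.mul_sum]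
        refine Finset.sum_congr rfl fun i _ => ?_
        rw [huc]
        ring
      have k2 : ∑ j, ((θ j : AInt) : ℂ) ^ (p ^ M) *
          -((Nat.card G : ℂ) * ((v j : AInt) : ℂ)) =
          -((Nat.card G : ℂ) * ((Nat.card C : ℂ) * (S2 : ℂ))) := by
        rw [hR, Finset.mul_sum, ← Finset.sum_neg_distrib]
        refine Finset.sum_congr rfl fun j _ => ?_
        rw [hvc]
        ring
      rw [k1, k2]
      ring
    rw [hfin]
    exact Dvd.dvd.mul_left hneck _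
  have hlim := SMTa_lim p hp 𝔪 h𝔪 hp𝔪 bb vv (by
    rintro (i | j)
    · by_cases h1 : X i ∈ block 𝔪 χ₀
      · exact Or.inl (hb4 _ h1)
      · right
        show β (X i) ∈ 𝔪
        rw [hb3 _ (hXI i) h1]
        exact 𝔪.zero_mem
    · by_cases h1 : Ind 𝔪 ι (Y j) χ₀
      · exact Or.inl (hA j h1)
      · exact Or.inr (hB j h1)) tt htpos ⟨n, hdiv⟩
  rw [Finset.sum_filter, Fintype.sum_sum_type] at hlim
  simp only [hbb, hvv, Sum.elim_inl, Sum.elim_inr] at hlim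
  have hlim2 := congrArg (fun a : AInt => (a : ℂ)) hlim
  push_cast at hlim2
  have m1 : ∑ i, (((if β (X i) - 1 ∈ 𝔪 then (Nat.card C : AInt) * (cz : AInt) * u i else 0 :
      AInt)) : ℂ) = (Nat.card C : ℂ) * (cz : ℂ) *
        ∑ i with X i ∈ block 𝔪 χ₀, X i (w * ι y) * X i z⁻¹ := by
    rw [Finset.sum_filter, Finset.mul_sum]
    refine Finset.sum_congr rfl fun i _ => ?_
    by_cases h1 : X i ∈ block 𝔪 χ₀
    · rw [if_pos ((hβiff i).2 h1), if_pos h1]
      push_cast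
      rw [huc]
    · rw [if_neg (fun h2 => h1 ((hβiff i).1 h2)), if_neg h1]
      simp
  have m2 : ∑ j, (((if θ j - 1 ∈ 𝔪 then -((Nat.card G : AInt) * v j) else 0 : AInt)) : ℂ) =
      -((Nat.card G : ℂ) * ∑ j with Ind 𝔪 ι (Y j) χ₀,
        Y j y * ∑ c : C with IsConj z (w * ι c), Y j c⁻¹) := by
    rw [Finset.sum_filter, Finset.mul_sum, ← Finset.sum_neg_distrib]
    refine Finset.sum_congr rfl fun j _ => ?_
    by_cases h1 : Ind 𝔪 ι (Y j) χ₀
    · rw [if_pos ((hθiff j).2 h1), if_pos h1]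
      push_cast
      rw [hvc]
    · rw [if_neg (fun h2 => h1 ((hθiff j).1 h2)), if_neg h1]
      simp
  rw [m1, m2] at hlim2
  linear_combination hlim2

end Pool.Agent.KBQ
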